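import Pool.Agent.helper43.BMH.Spec

set_option autoImplicit false

namespace Pool.Agent.helper43.BMH

theorem t_cn1 (hg : GEO) (h0 : CN0) : CN1 := by
  intro η hη
  set x : ℝ := (η / 2) / (2 + η / 2) with hx
  have hden : 0 < 2 + η / 2 := by positivity
  have hx0 : 0 < x := by positivity
  have hx1 : x < 1 := by rw [hx, div_lt_one hden]; linarith
  have h2x : 2 * x / (1 - x) = η / 2 := by
    have h1 : 1 - x = 2 / (2 + η / 2) := by rw [hx]; field_simp; ring
    rw [h1, hx]; field_simp
  set t : ℝ := -Real.log x with ht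
  have ht0 : 0 < t := by rw [ht]; have := Real.log_neg hx0 hx1; linarith
  have hxt : x = Real.exp (-t) := by rw [ht, neg_neg, Real.exp_log hx0]
  refine ⟨η / (2 * t), by positivity, ?_⟩
  intro ι _ U hU
  classical
  set n : ℝ := (Fintype.card ι : ℝ) with hn
  have hn0 : 0 ≤ n := Nat.cast_nonneg _
  rcases U.eq_empty_or_nonempty with he | ⟨v, hv⟩
  · rw [he, Finset.card_empty, Nat.cast_zero]; positivity
  set U' : Finset (ι → ℤ) := U.image fun u => u - v with hU'
  have hcard : U'.card = U.card := Finset.card_image_of_injective _ (sub_left_injective)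
  have h1 := h0 ι (fun j => x ^ j.natAbs) (1 + η / 2) (Real.exp (-(η / 2 * n))) U'
    (fun j => by positivity) (fun S => by
      have := hg x hx0.le hx1 S
      rwa [h2x] at this) (by
      intro d hd
      obtain ⟨u, hu, rfl⟩ := Finset.mem_image.1 hd
      rw [Finset.prod_pow_eq_pow_sum]
      have h2 := hU u hu v hv
      have h3 : ((∑ i, ((u - v) i).natAbs : ℕ) : ℝ) ≤ η / (2 * t) * n := by
        refine le_trans ?_ h2
        push_cast
        refine Finset.sum_le_sum fun i _ => ?_
        have h4 : (((u - v) i).natAbs : ℤ) ≤ ((u - v) i) ^ 2 := by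
          rw [← Int.natAbs_sq]
          have h5 : ((u - v) i).natAbs ≤ ((u - v) i).natAbs ^ 2 := Nat.le_self_pow (by norm_num) _
          exact_mod_cast h5
        have h6 : ((((u - v) i).natAbs : ℤ) : ℝ) ≤ ((((u - v) i) ^ 2 : ℤ) : ℝ) := by
          exact_mod_cast h4
        calc (((u - v) i).natAbs : ℝ) = ((((u - v) i).natAbs : ℤ) : ℝ) := (Int.cast_natCast _).symm
          _ ≤ ((((u - v) i) ^ 2 : ℤ) : ℝ) := h6
          _ = _ := by simp only [Pi.sub_apply]; push_cast; ring
      rw [← Real.exp_log (pow_pos hx0 _), Real.log_pow]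
      apply Real.exp_le_exp.2
      have h7 : Real.log x = -t := by rw [ht, neg_neg]
      rw [h7]
      have h8 : ((∑ i, ((u - v) i).natAbs : ℕ) : ℝ) * t ≤ η / (2 * t) * n * t :=
        mul_le_mul_of_nonneg_right h3 ht0.le
      have h9 : η / (2 * t) * n * t = η / 2 * n := by field_simp
      rw [h9] at h8
      linarith)
  rw [hcard] at h1
  have h2 : (1 + η / 2) ^ Fintype.card ι ≤ Real.exp (η / 2 * n) := by
    calc (1 + η / 2) ^ Fintype.card ι ≤ (Real.exp (η / 2)) ^ Fintype.card ι := by
          apply pow_le_pow_left₀ (by positivity)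
          have := Real.add_one_le_exp (η / 2)
          linarith
      _ = Real.exp (η / 2 * n) := by rw [← Real.exp_nat_mul, hn]; congr 1; ring
  have h3 := h1.trans h2
  have h4 : (U.card : ℝ) = Real.exp (η / 2 * n) * (Real.exp (-(η / 2 * n)) * (U.card : ℝ)) := by
    rw [← mul_assoc, ← Real.exp_add]; simp
  rw [h4]
  calc Real.exp (η / 2 * n) * (Real.exp (-(η / 2 * n)) * (U.card : ℝ)) ≤
        Real.exp (η / 2 * n) * Real.exp (η / 2 * n) :=
        mul_le_mul_of_nonneg_left h3 (Real.exp_pos _).le
    _ = Real.exp (η * n) := by rw [← Real.exp_add]; congr 1; ring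

end Pool.Agent.helper43.BMH
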