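import Pool.Agent.helper43.BMH.Defs

set_option autoImplicit false

/-! Instance-free access to `cnt`. -/

namespace Pool.Agent.helper43.BMH

/-- `cnt` with arbitrary decidability instances -/
theorem cnt_eq {ι : Type} [Fintype ι] [DecidableEq ι] (T : Matrix ι ι ℝ) (lam D : ℝ) (z : ι → ℤ)
    [DecidablePred fun y : ι → ℤˣ => near T lam D y z] :
    cnt T lam D z = (Finset.univ.filter fun y : ι → ℤˣ => near T lam D y z).card := by
  unfold cnt
  congr
  exact Subsingleton.elim _ _

theorem cnt_eq_zero {ι : Type} [Fintype ι] (T : Matrix ι ι ℝ) (lam D : ℝ) (z : ι → ℤ) :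
    cnt T lam D z = 0 ↔ ∀ y : ι → ℤˣ, ¬ near T lam D y z := by
  classical
  rw [cnt_eq, Finset.card_eq_zero, Finset.filter_eq_empty_iff]
  simp

theorem exists_near_of_cnt_ne_zero {ι : Type} [Fintype ι] (T : Matrix ι ι ℝ) (lam D : ℝ)
    (z : ι → ℤ) (h : cnt T lam D z ≠ 0) : ∃ y : ι → ℤˣ, near T lam D y z := by
  by_contra hcon
  push Not at hcon
  exact h ((cnt_eq_zero T lam D z).2 hcon)

end Pool.Agent.helper43.BMH
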