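import Pool.Agent.helper43.BMH.Spec
import Pool.Agent.helper43.BMH.Cnt

set_option autoImplicit false

namespace Pool.Agent.helper43.BMH

theorem COR_reindex {κ κ' : Type} [Fintype κ] [DecidableEq κ] [Fintype κ'] [DecidableEq κ']
    (e : κ ≃ κ') (H : Matrix κ κ ℝ) (hH : IsHad H) (C : ℝ)
    (hC : ∀ x y : κ → ℤˣ, ∑ i, sv x i * H.mulVec (sv y) i ≤ C) :
    ∃ H' : Matrix κ' κ' ℝ, IsHad H' ∧ ∀ x y : κ' → ℤˣ, ∑ i, sv x i * H'.mulVec (sv y) i ≤ C := by
  refine ⟨H.submatrix e.symm e.symm, ⟨fun i j => hH.1 _ _, ?_⟩, fun x y => ?_⟩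
  · have hc : Fintype.card κ = Fintype.card κ' := Fintype.card_congr e
    rw [Matrix.transpose_submatrix, Matrix.submatrix_mul_equiv, hH.2, ← hc]
    have h1 : ((Fintype.card κ : ℝ) • (1 : Matrix κ κ ℝ)).submatrix e.symm e.symm =
        (Fintype.card κ : ℝ) • ((1 : Matrix κ κ ℝ).submatrix e.symm e.symm) := rfl
    rw [h1, Matrix.submatrix_one_equiv]
  · have h := hC (fun i => x (e i)) (fun i => y (e i))
    refine le_trans (le_of_eq ?_) h
    rw [← Equiv.sum_comp e]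
    refine Finset.sum_congr rfl fun i _ => ?_
    unfold sv Matrix.mulVec dotProduct
    simp only [Matrix.submatrix_apply, Equiv.symm_apply_apply]
    congr 1
    rw [← Equiv.sum_comp e]
    refine Finset.sum_congr rfl fun j _ => ?_
    simp only [Equiv.symm_apply_apply]

theorem COR_scale {ι : Type} [Fintype ι] (T : Matrix ι ι ℝ) (D : ℝ) (z z' : ι → ℤ)
    (hz : ∀ i, z' i = 2 * z i) :
    cnt T (1 / Real.sqrt 2) D z' = cnt T (Real.sqrt 2) D z := by
  have h2 : (0 : ℝ) < Real.sqrt 2 := by positivity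
  have h22 : Real.sqrt 2 * Real.sqrt 2 = 2 := Real.mul_self_sqrt (by norm_num)
  unfold cnt
  congr 1
  ext y
  simp only [Finset.mem_filter, Finset.mem_univ, true_and]
  unfold near
  have : ∀ i, 1 / Real.sqrt 2 * ((z' i : ℤ) : ℝ) = Real.sqrt 2 * ((z i : ℤ) : ℝ) := by
    intro i
    rw [hz i]
    push_cast
    rw [one_div, ← mul_assoc, inv_mul_eq_div]
    congr 1
    rw [div_eq_iff h2.ne']
    exact h22.symm
  simp only [this]

theorem COR_sq {ι : Type} [Fintype ι] (y : ι → ℤˣ) : ∑ i, (sv y i) ^ 2 = (Fintype.card ι : ℝ) := by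
  have : ∀ i, (sv y i) ^ 2 = 1 := by
    intro i
    unfold sv
    rcases Int.units_eq_one_or (y i) with h | h <;> rw [h] <;> simp
  simp only [this]
  rw [Finset.sum_const, Finset.card_univ, nsmul_eq_mul, mul_one]

/-- from no near match to the bound -/
theorem COR_bound (hn : HDN) {κ : Type} [Fintype κ] [DecidableEq κ] [Nonempty κ]
    (H : Matrix κ κ ℝ) (hH : IsHad H) (δ : ℝ) (x y : κ → ℤˣ)
    (h : ¬ near H 1 (2 * δ * (Fintype.card κ : ℝ)) y (fun i => ((x i : ℤˣ) : ℤ))) :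
    ∑ i, sv x i * H.mulVec (sv y) i ≤ (1 - δ) * (Fintype.card κ : ℝ) ^ (3 / 2 : ℝ) := by
  set d : ℝ := (Fintype.card κ : ℝ) with hd
  have hd0 : 0 < d := by rw [hd]; exact_mod_cast Fintype.card_pos
  have hs : 0 < Real.sqrt d := Real.sqrt_pos.2 hd0
  have hss : Real.sqrt d * Real.sqrt d = d := Real.mul_self_sqrt hd0.le
  unfold near at h
  push Not at h
  rw [← hd] at h
  have e1 : ∑ i, (H.mulVec (sv y) i / Real.sqrt d - 1 * ((((x i : ℤˣ) : ℤ)) : ℝ)) ^ 2 =
      (∑ i, (H.mulVec (sv y) i) ^ 2) / d - 2 / Real.sqrt d * (∑ i, sv x i * H.mulVec (sv y) i) +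
        ∑ i, (sv x i) ^ 2 := by
    rw [Finset.sum_div, Finset.mul_sum, ← Finset.sum_sub_distrib, ← Finset.sum_add_distrib]
    refine Finset.sum_congr rfl fun i _ => ?_
    have : (H.mulVec (sv y) i / Real.sqrt d) ^ 2 = (H.mulVec (sv y) i) ^ 2 / d := by
      rw [div_pow, Real.sq_sqrt hd0.le]
    rw [← this]
    unfold sv
    ring
  rw [e1, (hn κ H hH).2.2, COR_sq, COR_sq, ← hd, mul_div_assoc, div_self hd0.ne', mul_one] at h
  have e3 : d ^ (3 / 2 : ℝ) = d * Real.sqrt d := by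
    rw [Real.sqrt_eq_rpow]
    nth_rw 2 [← Real.rpow_one d]
    rw [← Real.rpow_add hd0]
    norm_num
  rw [e3]
  have e4 : 2 / Real.sqrt d * (∑ i, sv x i * H.mulVec (sv y) i) < 2 * d - 2 * δ * d := by linarith
  have e5 : ∑ i, sv x i * H.mulVec (sv y) i =
      (Real.sqrt d / 2) * (2 / Real.sqrt d * (∑ i, sv x i * H.mulVec (sv y) i)) := by
    field_simp
  rw [e5]
  calc (Real.sqrt d / 2) * (2 / Real.sqrt d * (∑ i, sv x i * H.mulVec (sv y) i)) ≤
        (Real.sqrt d / 2) * (2 * d - 2 * δ * d) :=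
        mul_le_mul_of_nonneg_left e4.le (by positivity)
    _ = (1 - δ) * (d * Real.sqrt d) := by ring

theorem t_cor (hl : POL) (hn : HDN) (hd : DBL) (hg : GAL) (hk : RTK) (hm : RTM) : COR := by
  obtain ⟨s, hs⟩ := hg
  obtain ⟨δ₁, hδ₁, k₁, hfam⟩ := hs (Real.sqrt 2) (by positivity) 1 (1 / 100) (by norm_num)
  obtain ⟨n₀, hn₀⟩ := hl 0 4 (1 / 20) (by norm_num)
  set δ₀ : ℝ := min δ₁ (1 / 20) with hδ₀
  have hδ₀0 : 0 < δ₀ := lt_min hδ₁ (by norm_num)
  refine ⟨s + 1, δ₀ / 4, by positivity, max k₁ (n₀ + 1), ?_⟩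
  intro k hkk hK
  obtain ⟨ι, iF, iD, Ω, iO, iN, F, hcard, hHad, hbd⟩ := hfam k ((le_max_left _ _).trans hkk) hK
  have hk1 : n₀ + 1 ≤ k := (le_max_right _ _).trans hkk
  have hkn : k ≤ Fintype.card ι := by
    rw [hcard]
    exact Nat.le_mul_of_pos_left k (by positivity)
  have hnpos : 0 < Fintype.card ι := by omega
  have : Nonempty ι := Fintype.card_pos_iff.1 hnpos
  set n : ℝ := (Fintype.card ι : ℝ) with hndef
  have hn0 : 0 < n := by rw [hndef]; exact_mod_cast hnpos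
  set D : ℝ := δ₀ * n with hD
  set N : (ι → ℤ) → ℝ := fun v => avgN F (Real.sqrt 2) D v with hN
  have hΩ : (0 : ℝ) < (Fintype.card Ω : ℝ) := by exact_mod_cast Fintype.card_pos
  have hN0 : ∀ v, 0 ≤ N v := by
    intro v
    rw [hN]
    unfold avgN
    positivity
  have hNle : ∀ v : ι → ℤ, (∀ i, |v i| ≤ 1) →
      N v ≤ Real.exp (-(Fintype.card ι : ℝ) * (9 / 10 * ent v - 9 / 200 - 1 / 100)) := by
    intro v hv
    refine hbd D ?_ v (by simpa using hv)
    rw [hD]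
    exact mul_le_mul_of_nonneg_right (min_le_left _ _) hn0.le
  have hNr : ∀ v : ι → ℤ, (∀ i, |v i| ≤ 1) → N v ≠ 0 →
      (Fintype.card ι : ℝ) / 4 ≤ (spt v : ℝ) ∧ (spt v : ℝ) ≤ 3 * (Fintype.card ι : ℝ) / 4 := by
    intro v hv hne
    obtain ⟨w, hw⟩ : ∃ w, cnt (F w) (Real.sqrt 2) D v ≠ 0 := by
      by_contra hcon
      push Not at hcon
      apply hne
      rw [hN]
      unfold avgN
      simp [hcon]
    obtain ⟨y, hy⟩ := exists_near_of_cnt_ne_zero _ _ _ _ hw
    refine hk ι (F w) (hHad w) D y v ?_ hv hy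
    rw [hD, ← hndef]
    have : δ₀ ≤ 1 / 20 := min_le_right _ _
    nlinarith
  have hsum := hm ι N hN0 hNle hNr
  have hlt : (2 * (Fintype.card ι : ℝ) + 1) ^ 4 * Real.exp (-(Fintype.card ι : ℝ) / 10) < 1 := by
    have h1 := hn₀ (Fintype.card ι) (by omega)
    rw [pow_zero, one_mul] at h1
    calc (2 * (Fintype.card ι : ℝ) + 1) ^ 4 * Real.exp (-(Fintype.card ι : ℝ) / 10) ≤
          Real.exp (1 / 20 * (Fintype.card ι : ℝ)) * Real.exp (-(Fintype.card ι : ℝ) / 10) :=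
          mul_le_mul_of_nonneg_right h1 (Real.exp_pos _).le
      _ = Real.exp (-(Fintype.card ι : ℝ) / 20) := by
          rw [← Real.exp_add]; congr 1; ring
      _ < 1 := by
          rw [Real.exp_lt_one_iff]
          have : 0 < (Fintype.card ι : ℝ) := hn0
          linarith
  -- the matrices
  have hmain : ∃ w₁ w₂ : Ω, ∀ a b : ι → ℤˣ,
      cnt (dbl (F w₁) (F w₂)) 1 D (fun i => ((Sum.elim a b i : ℤˣ) : ℤ)) = 0 := by
    by_contra hcon
    push Not at hcon
    have hone : ∀ w₁ w₂ : Ω, (1 : ℝ) ≤ ∑ a : ι → ℤˣ, ∑ b : ι → ℤˣ,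
        (cnt (dbl (F w₁) (F w₂)) 1 D (fun i => ((Sum.elim a b i : ℤˣ) : ℤ)) : ℝ) := by
      intro w₁ w₂
      obtain ⟨a, b, hab⟩ := hcon w₁ w₂
      have h1 : (1 : ℝ) ≤
          (cnt (dbl (F w₁) (F w₂)) 1 D (fun i => ((Sum.elim a b i : ℤˣ) : ℤ)) : ℝ) := by
        exact_mod_cast Nat.one_le_iff_ne_zero.2 hab
      refine h1.trans ?_
      refine le_trans ?_ (Finset.single_le_sum (f := fun a : ι → ℤˣ => ∑ b : ι → ℤˣ,
        (cnt (dbl (F w₁) (F w₂)) 1 D (fun i => ((Sum.elim a b i : ℤˣ) : ℤ)) : ℝ))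
        (fun _ _ => Finset.sum_nonneg fun _ _ => Nat.cast_nonneg _) (Finset.mem_univ a))
      exact Finset.single_le_sum (f := fun b : ι → ℤˣ =>
        (cnt (dbl (F w₁) (F w₂)) 1 D (fun i => ((Sum.elim a b i : ℤˣ) : ℤ)) : ℝ))
        (fun _ _ => Nat.cast_nonneg _) (Finset.mem_univ b)
    have hle : ∀ (w₁ w₂ : Ω) (a b : ι → ℤˣ),
        (cnt (dbl (F w₁) (F w₂)) 1 D (fun i => ((Sum.elim a b i : ℤˣ) : ℤ)) : ℝ) ≤
        (cnt (F w₁) (Real.sqrt 2) D (fun i => if a i = b i then ((a i : ℤˣ) : ℤ) else 0) : ℝ) *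
        (cnt (F w₂) (Real.sqrt 2) D (fun i => if a i = b i then 0 else ((a i : ℤˣ) : ℤ)) : ℝ) := by
      intro w₁ w₂ a b
      have h1 := (hd ι (F w₁) (F w₂)).2 1 D (fun i => ((Sum.elim a b i : ℤˣ) : ℤ))
      simp only [Sum.elim_inl, Sum.elim_inr] at h1
      rw [COR_scale (F w₁) D (fun i => if a i = b i then ((a i : ℤˣ) : ℤ) else 0) _ (by
          intro i
          rcases Int.units_eq_one_or (a i) with h | h <;>
            rcases Int.units_eq_one_or (b i) with h' | h' <;> simp [h, h']),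
        COR_scale (F w₂) D (fun i => if a i = b i then 0 else ((a i : ℤˣ) : ℤ)) _ (by
          intro i
          rcases Int.units_eq_one_or (a i) with h | h <;>
            rcases Int.units_eq_one_or (b i) with h' | h' <;> simp [h, h'])] at h1
      exact_mod_cast h1
    have hS1 : (Fintype.card Ω : ℝ) * (Fintype.card Ω : ℝ) ≤ ∑ w₁ : Ω, ∑ w₂ : Ω,
        ∑ a : ι → ℤˣ, ∑ b : ι → ℤˣ,
        (cnt (dbl (F w₁) (F w₂)) 1 D (fun i => ((Sum.elim a b i : ℤˣ) : ℤ)) : ℝ) := by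
      calc (Fintype.card Ω : ℝ) * (Fintype.card Ω : ℝ) = ∑ _w₁ : Ω, ∑ _w₂ : Ω, (1 : ℝ) := by
            simp
        _ ≤ _ := Finset.sum_le_sum fun w₁ _ => Finset.sum_le_sum fun w₂ _ => hone w₁ w₂
    have hS2 : ∑ w₁ : Ω, ∑ w₂ : Ω, ∑ a : ι → ℤˣ, ∑ b : ι → ℤˣ,
        (cnt (dbl (F w₁) (F w₂)) 1 D (fun i => ((Sum.elim a b i : ℤˣ) : ℤ)) : ℝ) ≤
        (Fintype.card Ω : ℝ) * (Fintype.card Ω : ℝ) * ∑ a : ι → ℤˣ, ∑ b : ι → ℤˣ,
          N (fun i => if a i = b i then ((a i : ℤˣ) : ℤ) else 0) *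
          N (fun i => if a i = b i then 0 else ((a i : ℤˣ) : ℤ)) := by
      calc _ ≤ ∑ w₁ : Ω, ∑ w₂ : Ω, ∑ a : ι → ℤˣ, ∑ b : ι → ℤˣ,
            (cnt (F w₁) (Real.sqrt 2) D
              (fun i => if a i = b i then ((a i : ℤˣ) : ℤ) else 0) : ℝ) *
            (cnt (F w₂) (Real.sqrt 2) D
              (fun i => if a i = b i then 0 else ((a i : ℤˣ) : ℤ)) : ℝ) :=
            Finset.sum_le_sum fun w₁ _ => Finset.sum_le_sum fun w₂ _ =>
              Finset.sum_le_sum fun a _ => Finset.sum_le_sum fun b _ => hle w₁ w₂ a b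
        _ = ∑ a : ι → ℤˣ, ∑ b : ι → ℤˣ,
            (∑ w₁ : Ω, (cnt (F w₁) (Real.sqrt 2) D
              (fun i => if a i = b i then ((a i : ℤˣ) : ℤ) else 0) : ℝ)) *
            (∑ w₂ : Ω, (cnt (F w₂) (Real.sqrt 2) D
              (fun i => if a i = b i then 0 else ((a i : ℤˣ) : ℤ)) : ℝ)) := by
            have e1 : ∀ w₁ : Ω, ∑ w₂ : Ω, ∑ a : ι → ℤˣ, ∑ b : ι → ℤˣ,
                (cnt (F w₁) (Real.sqrt 2) D
                  (fun i => if a i = b i then ((a i : ℤˣ) : ℤ) else 0) : ℝ) *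
                (cnt (F w₂) (Real.sqrt 2) D
                  (fun i => if a i = b i then 0 else ((a i : ℤˣ) : ℤ)) : ℝ) =
                ∑ a : ι → ℤˣ, ∑ b : ι → ℤˣ, ∑ w₂ : Ω,
                (cnt (F w₁) (Real.sqrt 2) D
                  (fun i => if a i = b i then ((a i : ℤˣ) : ℤ) else 0) : ℝ) *
                (cnt (F w₂) (Real.sqrt 2) D
                  (fun i => if a i = b i then 0 else ((a i : ℤˣ) : ℤ)) : ℝ) := by
              intro w₁
              rw [Finset.sum_comm]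
              refine Finset.sum_congr rfl fun a _ => ?_
              rw [Finset.sum_comm]
            simp only [e1]
            rw [Finset.sum_comm]
            refine Finset.sum_congr rfl fun a _ => ?_
            rw [Finset.sum_comm]
            refine Finset.sum_congr rfl fun b _ => ?_
            rw [Finset.sum_mul_sum]
        _ = _ := by
            rw [Finset.mul_sum]
            refine Finset.sum_congr rfl fun a _ => ?_
            rw [Finset.mul_sum]
            refine Finset.sum_congr rfl fun b _ => ?_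
            rw [hN]
            unfold avgN
            field_simp
    have hS3 := hS1.trans hS2
    have hS4 : (Fintype.card Ω : ℝ) * (Fintype.card Ω : ℝ) *
        (∑ a : ι → ℤˣ, ∑ b : ι → ℤˣ,
          N (fun i => if a i = b i then ((a i : ℤˣ) : ℤ) else 0) *
          N (fun i => if a i = b i then 0 else ((a i : ℤˣ) : ℤ))) <
        (Fintype.card Ω : ℝ) * (Fintype.card Ω : ℝ) * 1 :=
      mul_lt_mul_of_pos_left (hsum.trans_lt hlt) (by positivity)
    linarith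
  obtain ⟨w₁, w₂, hw⟩ := hmain
  have hcard2 : Fintype.card (ι ⊕ ι) = 2 ^ (s + 1) * k := by
    rw [Fintype.card_sum, hcard]; ring
  have hHH : IsHad (dbl (F w₁) (F w₂)) := (hd ι (F w₁) (F w₂)).1 (hHad w₁) (hHad w₂)
  have hfinal := COR_reindex (Fintype.equivFinOfCardEq hcard2) (dbl (F w₁) (F w₂)) hHH
    ((1 - δ₀ / 4) * ((2 ^ (s + 1) * k : ℕ) : ℝ) ^ (3 / 2 : ℝ)) (by
      intro x y
      have hb := COR_bound hn (dbl (F w₁) (F w₂)) hHH (δ₀ / 4) x y (by
        intro hnear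
        have h0 := hw (fun i => x (Sum.inl i)) (fun i => x (Sum.inr i))
        have hx : (fun i => ((Sum.elim (fun i => x (Sum.inl i)) (fun i => x (Sum.inr i)) i : ℤˣ) : ℤ)) =
            fun i => ((x i : ℤˣ) : ℤ) := by
          funext i
          cases i <;> rfl
        rw [hx] at h0
        rw [cnt_eq_zero] at h0
        refine h0 y ?_
        have hDD : 2 * (δ₀ / 4) * (Fintype.card (ι ⊕ ι) : ℝ) = D := by
          rw [Fintype.card_sum, hD, hndef]
          push_cast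
          ring
        rw [hDD] at hnear
        exact hnear)
      rw [hcard2] at hb
      exact hb)
  exact hfinal

end Pool.Agent.helper43.BMH
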