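import Pool.Agent.helper43.BMH.Spec
import Pool.Agent.helper43.BMH.Cnt

set_option autoImplicit false

namespace Pool.Agent.helper43.BMH

theorem t_cpb (h : CN1) : CPB := by
  intro lam hlam η hη
  obtain ⟨ρ, hρ, hcn⟩ := h η hη
  refine ⟨lam ^ 2 * ρ / 4, by positivity, ?_⟩
  intro ι _ T D hD U
  classical
  set n : ℝ := (Fintype.card ι : ℝ) with hn
  have hsw : ∑ u ∈ U, (cnt T lam D u : ℝ) =
      ∑ y : ι → ℤˣ, ((U.filter fun u => near T lam D y u).card : ℝ) := by
    have e1 : ∀ u, (cnt T lam D u : ℝ) = ∑ y : ι → ℤˣ, if near T lam D y u then (1 : ℝ) else 0 := by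
      intro u
      rw [cnt_eq, Finset.sum_boole]
    have e2 : ∀ y : ι → ℤˣ, ((U.filter fun u => near T lam D y u).card : ℝ) =
        ∑ u ∈ U, if near T lam D y u then (1 : ℝ) else 0 := by
      intro y
      rw [Finset.sum_boole]
    simp only [e1, e2]
    exact Finset.sum_comm
  have hy : ∀ y : ι → ℤˣ, ((U.filter fun u => near T lam D y u).card : ℝ) ≤
      Real.exp (η * n) := by
    intro y
    refine hcn ι _ ?_
    intro u hu v hv
    rw [Finset.mem_filter] at hu hv
    have hu2 := hu.2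
    have hv2 := hv.2
    unfold near at hu2 hv2
    have key : lam ^ 2 * ∑ i, ((u i : ℝ) - (v i : ℝ)) ^ 2 ≤ 2 * D + 2 * D := by
      calc lam ^ 2 * ∑ i, ((u i : ℝ) - (v i : ℝ)) ^ 2 = ∑ i, (lam * (u i : ℝ) - lam * (v i : ℝ)) ^ 2 := by
            rw [Finset.mul_sum]
            exact Finset.sum_congr rfl fun i _ => by ring
        _ ≤ ∑ i, (2 * (T.mulVec (sv y) i / Real.sqrt (Fintype.card ι) - lam * (u i : ℝ)) ^ 2 +
            2 * (T.mulVec (sv y) i / Real.sqrt (Fintype.card ι) - lam * (v i : ℝ)) ^ 2) := by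
            refine Finset.sum_le_sum fun i _ => ?_
            nlinarith [sq_nonneg ((T.mulVec (sv y) i / Real.sqrt (Fintype.card ι) - lam * (u i : ℝ)) +
              (T.mulVec (sv y) i / Real.sqrt (Fintype.card ι) - lam * (v i : ℝ)))]
        _ ≤ _ := by
            rw [Finset.sum_add_distrib, ← Finset.mul_sum, ← Finset.mul_sum]
            linarith
    have h1 : lam ^ 2 * ∑ i, ((u i : ℝ) - (v i : ℝ)) ^ 2 ≤ lam ^ 2 * (ρ * n) := by
      calc _ ≤ 2 * D + 2 * D := key
        _ ≤ lam ^ 2 * (ρ * n) := by nlinarith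
    exact le_of_mul_le_mul_left h1 (by positivity)
  rw [hsw]
  calc _ ≤ ∑ _y : ι → ℤˣ, Real.exp (η * n) := Finset.sum_le_sum fun y _ => hy y
    _ = 2 ^ Fintype.card ι * Real.exp (η * n) := by
        rw [Finset.sum_const, Finset.card_univ, Fintype.card_fun, nsmul_eq_mul]
        have : Fintype.card ℤˣ = 2 := by decide
        rw [this]
        push_cast
        rfl

end Pool.Agent.helper43.BMH
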