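import Pool.Agent.helper43.BMH.Spec
import Pool.Agent.helper43.BMH.Cnt

set_option autoImplicit false

namespace Pool.Agent.helper43.BMH

theorem DBL_had {ι : Type} [Fintype ι] [DecidableEq ι] (T₁ T₂ : Matrix ι ι ℝ) (h1 : IsHad T₁)
    (h2 : IsHad T₂) : IsHad (dbl T₁ T₂) := by
  constructor
  · rintro (i | i) (j | j)
    · simpa [dbl] using h1.1 i j
    · simpa [dbl] using h2.1 i j
    · simpa [dbl] using h1.1 i j
    · have := h2.1 i j
      simp only [dbl, Matrix.fromBlocks_apply₂₂, Matrix.neg_apply]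
      rcases this with h | h
      · right; rw [h]
      · left; rw [h]; norm_num
  · unfold dbl
    rw [Matrix.fromBlocks_transpose, Matrix.fromBlocks_multiply, Matrix.transpose_neg, h1.2,
      Matrix.mul_neg, Matrix.neg_mul, Matrix.neg_mul, h2.2, Matrix.mul_neg, neg_neg, h2.2]
    have e : (Fintype.card (ι ⊕ ι) : ℝ) = 2 * (Fintype.card ι : ℝ) := by
      rw [Fintype.card_sum]; push_cast; ring
    rw [e]
    ext i j
    rcases i with i | i <;> rcases j with j | j
    · simp only [Matrix.fromBlocks_apply₁₁, Matrix.add_apply, Matrix.smul_apply, smul_eq_mul,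
        Matrix.one_apply, Sum.inl.injEq]
      ring
    · simp only [Matrix.fromBlocks_apply₁₂, Matrix.add_apply, Matrix.neg_apply, Matrix.smul_apply,
        smul_eq_mul, Matrix.one_apply, reduceCtorEq, if_false]
      ring
    · simp only [Matrix.fromBlocks_apply₂₁, Matrix.add_apply, Matrix.neg_apply, Matrix.smul_apply,
        smul_eq_mul, Matrix.one_apply, reduceCtorEq, if_false]
      ring
    · simp only [Matrix.fromBlocks_apply₂₂, Matrix.add_apply, Matrix.smul_apply, smul_eq_mul,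
        Matrix.one_apply, Sum.inr.injEq]
      ring

theorem DBL_near {ι : Type} [Fintype ι] [DecidableEq ι] (T₁ T₂ : Matrix ι ι ℝ) (lam D : ℝ)
    (u : ι ⊕ ι → ℤ) (y : ι ⊕ ι → ℤˣ) (h : near (dbl T₁ T₂) lam D y u) :
    near T₁ (lam / Real.sqrt 2) D (fun i => y (Sum.inl i))
      (fun i => u (Sum.inl i) + u (Sum.inr i)) ∧
    near T₂ (lam / Real.sqrt 2) D (fun i => y (Sum.inr i))
      (fun i => u (Sum.inl i) - u (Sum.inr i)) := by
  unfold near at h ⊢
  set n : ℝ := (Fintype.card ι : ℝ) with hn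
  have hs2 : (0 : ℝ) < Real.sqrt 2 := by positivity
  have h22 : Real.sqrt 2 ^ 2 = 2 := Real.sq_sqrt (by norm_num)
  have e0 : Real.sqrt (Fintype.card (ι ⊕ ι) : ℝ) = Real.sqrt 2 * Real.sqrt n := by
    rw [Fintype.card_sum, ← Real.sqrt_mul (by norm_num)]
    congr 1
    push_cast
    ring
  have el : ∀ i, (dbl T₁ T₂).mulVec (sv y) (Sum.inl i) =
      T₁.mulVec (sv fun i => y (Sum.inl i)) i + T₂.mulVec (sv fun i => y (Sum.inr i)) i := by
    intro i
    unfold dbl sv Matrix.mulVec dotProduct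
    rw [Fintype.sum_sum_type]
    simp only [Matrix.fromBlocks_apply₁₁, Matrix.fromBlocks_apply₁₂]
  have er : ∀ i, (dbl T₁ T₂).mulVec (sv y) (Sum.inr i) =
      T₁.mulVec (sv fun i => y (Sum.inl i)) i - T₂.mulVec (sv fun i => y (Sum.inr i)) i := by
    intro i
    unfold dbl sv Matrix.mulVec dotProduct
    rw [Fintype.sum_sum_type]
    simp only [Matrix.fromBlocks_apply₂₁, Matrix.fromBlocks_apply₂₂, Matrix.neg_apply, neg_mul,
      Finset.sum_neg_distrib]
    ring
  rw [Fintype.sum_sum_type, e0] at h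
  simp only [el, er] at h
  set A : ι → ℝ := T₁.mulVec (sv fun i => y (Sum.inl i)) with hA
  set B : ι → ℝ := T₂.mulVec (sv fun i => y (Sum.inr i)) with hB
  have key : ∑ i, ((A i + B i) / (Real.sqrt 2 * Real.sqrt n) - lam * (u (Sum.inl i) : ℝ)) ^ 2 +
      ∑ i, ((A i - B i) / (Real.sqrt 2 * Real.sqrt n) - lam * (u (Sum.inr i) : ℝ)) ^ 2 =
      ∑ i, (A i / Real.sqrt n - lam / Real.sqrt 2 * ((u (Sum.inl i) + u (Sum.inr i) : ℤ) : ℝ)) ^ 2 +
      ∑ i, (B i / Real.sqrt n - lam / Real.sqrt 2 * ((u (Sum.inl i) - u (Sum.inr i) : ℤ) : ℝ)) ^ 2 := by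
    rw [← Finset.sum_add_distrib, ← Finset.sum_add_distrib]
    refine Finset.sum_congr rfl fun i _ => ?_
    push_cast
    set a := A i / Real.sqrt n with ha
    set b := B i / Real.sqrt n with hb
    have e1 : (A i + B i) / (Real.sqrt 2 * Real.sqrt n) = (a + b) / Real.sqrt 2 := by
      rw [ha, hb, ← add_div, div_div, mul_comm (Real.sqrt n)]
    have e2 : (A i - B i) / (Real.sqrt 2 * Real.sqrt n) = (a - b) / Real.sqrt 2 := by
      rw [ha, hb, ← sub_div, div_div, mul_comm (Real.sqrt n)]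
    rw [e1, e2]
    set x : ℝ := (u (Sum.inl i) : ℝ)
    set v : ℝ := (u (Sum.inr i) : ℝ)
    have f1 : ((a + b) / Real.sqrt 2 - lam * x) ^ 2 =
        (a + b) ^ 2 / 2 - 2 * ((a + b) / Real.sqrt 2) * (lam * x) + lam ^ 2 * x ^ 2 := by
      rw [sub_sq, div_pow, h22]; ring
    have f2 : ((a - b) / Real.sqrt 2 - lam * v) ^ 2 =
        (a - b) ^ 2 / 2 - 2 * ((a - b) / Real.sqrt 2) * (lam * v) + lam ^ 2 * v ^ 2 := by
      rw [sub_sq, div_pow, h22]; ring
    have f0 : (lam / Real.sqrt 2) ^ 2 = lam ^ 2 / 2 := by rw [div_pow, h22]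
    have f3 : (a - lam / Real.sqrt 2 * (x + v)) ^ 2 =
        a ^ 2 - 2 * a * (lam / Real.sqrt 2 * (x + v)) + lam ^ 2 / 2 * (x + v) ^ 2 := by
      rw [← f0]; ring
    have f4 : (b - lam / Real.sqrt 2 * (x - v)) ^ 2 =
        b ^ 2 - 2 * b * (lam / Real.sqrt 2 * (x - v)) + lam ^ 2 / 2 * (x - v) ^ 2 := by
      rw [← f0]; ring
    rw [f1, f2, f3, f4]
    ring
  rw [key] at h
  have p1 : 0 ≤ ∑ i, (A i / Real.sqrt n -
      lam / Real.sqrt 2 * ((u (Sum.inl i) + u (Sum.inr i) : ℤ) : ℝ)) ^ 2 :=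
    Finset.sum_nonneg fun i _ => sq_nonneg _
  have p2 : 0 ≤ ∑ i, (B i / Real.sqrt n -
      lam / Real.sqrt 2 * ((u (Sum.inl i) - u (Sum.inr i) : ℤ) : ℝ)) ^ 2 :=
    Finset.sum_nonneg fun i _ => sq_nonneg _
  constructor <;> linarith

theorem t_dbl : DBL := by
  intro ι _ _ T₁ T₂
  refine ⟨DBL_had T₁ T₂, fun lam D u => ?_⟩
  classical
  rw [cnt_eq, cnt_eq, cnt_eq, ← Finset.card_product]
  refine Finset.card_le_card_of_injOn
    (fun y => ((fun i => y (Sum.inl i)), (fun i => y (Sum.inr i)))) ?_ ?_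
  · intro y hy
    rw [Finset.mem_coe, Finset.mem_filter] at hy
    have := DBL_near T₁ T₂ lam D u y hy.2
    simp only [Finset.coe_product, Set.mem_prod, Finset.mem_coe, Finset.mem_filter,
      Finset.mem_univ, true_and]
    exact this
  · intro y _ y' _ h
    simp only [Prod.mk.injEq] at h
    funext j
    rcases j with i | i
    · exact congrFun h.1 i
    · exact congrFun h.2 i

end Pool.Agent.helper43.BMH
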