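import Pool.Agent.helper43.BMH.Spec

set_option autoImplicit false

namespace Pool.Agent.helper43.BMH

theorem t_dya : DYA := by
  intro f g f' g' ε h0 h1 hf hg hf' hg' hge hge' hf0 hg0 hk hab
  have hf00 : f 0 = 1 := by have := (hk 0).1; simpa using this
  have hg00 : g 0 = 1 := by have := (hk 0).2; simpa using this
  -- (**)
  have key : ∀ a, |f (2 * a) - (f a * g a) ^ 2| ≤ 3 * ε ∧ |g (2 * a) - (f a * g a) ^ 2| ≤ 3 * ε := by
    intro a
    set m := f a * g a with hm
    have e1 : |m - f' a| ≤ ε := by
      have := hab a 0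
      rw [add_zero, sub_zero, hg0, mul_one] at this
      exact this
    have e2 : |m - g' a| ≤ ε := by
      have := hab 0 a
      rw [zero_add, zero_sub, hge, hf0, one_mul] at this
      exact this
    have e3 : |f (2 * a) - f' a * g' a| ≤ ε := by
      have := hab a a
      rw [sub_self, hg00, mul_one, ← two_mul] at this
      exact this
    have e4 : |g (2 * a) - f' a * g' a| ≤ ε := by
      have := hab a (-a)
      rw [add_neg_cancel, hf00, one_mul, sub_neg_eq_add, ← two_mul, hge'] at this
      exact this
    have hmb : |m| ≤ 1 := by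
      rw [hm, abs_mul]; exact mul_le_one₀ (hf a) (abs_nonneg _) (hg a)
    have e5 : |f' a * g' a - m ^ 2| ≤ 2 * ε := by
      have : f' a * g' a - m ^ 2 = -((m - f' a) * g' a) - m * (m - g' a) := by ring
      rw [this]
      calc |(-((m - f' a) * g' a)) - m * (m - g' a)| ≤ |(-((m - f' a) * g' a))| + |m * (m - g' a)| :=
            abs_sub _ _
        _ = |m - f' a| * |g' a| + |m| * |m - g' a| := by rw [abs_neg, abs_mul, abs_mul]
        _ ≤ ε * 1 + 1 * ε := by
            apply add_le_add
            · exact mul_le_mul e1 (hg' a) (abs_nonneg _) h0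
            · exact mul_le_mul hmb e2 (abs_nonneg _) zero_le_one
        _ = 2 * ε := by ring
    constructor
    · have : f (2 * a) - m ^ 2 = (f (2 * a) - f' a * g' a) + (f' a * g' a - m ^ 2) := by ring
      rw [this]
      exact (abs_add_le _ _).trans (by linarith)
    · have : g (2 * a) - m ^ 2 = (g (2 * a) - f' a * g' a) + (f' a * g' a - m ^ 2) := by ring
      rw [this]
      exact (abs_add_le _ _).trans (by linarith)
  intro r
  induction r with
  | zero =>
    intro t k ht
    rw [pow_zero, one_mul] at ht
    rw [ht, (hk k).1, (hk k).2]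
    constructor <;> linarith
  | succ r ih =>
    intro t k ht
    have h2 := ih (2 * t) k (by rw [← ht]; ring)
    have k1 := (key t).1
    rw [abs_le] at k1
    have k3 := key (t / 2)
    have e : 2 * (t / 2) = t := by ring
    rw [e] at k3
    have k4 := (abs_le.1 k3.1).1
    have k5 := (abs_le.1 k3.2).1
    have sq0 := sq_nonneg (f (t / 2) * g (t / 2))
    set m := f t * g t with hm
    have hm2 : (1 - 4 * ε) ^ 2 ≤ m ^ 2 := by nlinarith [h2.1, k1.1, k1.2]
    have hmabs : 1 - 4 * ε ≤ |m| := by
      rw [sq_le_sq] at hm2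
      exact (le_abs_self _).trans hm2
    have hfa : |m| ≤ |f t| := by
      rw [hm, abs_mul]
      exact mul_le_of_le_one_right (abs_nonneg _) (hg t)
    have hga : |m| ≤ |g t| := by
      rw [hm, abs_mul]
      exact mul_le_of_le_one_left (abs_nonneg _) (hf t)
    constructor
    · rcases abs_cases (f t) with ⟨h, _⟩ | ⟨h, _⟩
      · linarith
      · linarith
    · rcases abs_cases (g t) with ⟨h, _⟩ | ⟨h, _⟩
      · linarith
      · linarith

end Pool.Agent.helper43.BMH
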