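import Mathlib
import Pool.Agent.helper75.BM.Strict

set_option autoImplicit false

/-!
# The Hadamard bound for the Banach-Mazur distance of `ℓ_p^d` and `ℓ_q^d` is never sharp: definitions
-/

namespace Pool.Agent.helper43.BMH

open scoped ENNReal

/-- the real vector of a sign vector -/
def sv {ι : Type} (y : ι → ℤˣ) : ι → ℝ := fun i => ((y i : ℤ) : ℝ)

/-- Hadamard matrices -/
def IsHad {ι : Type} [Fintype ι] [DecidableEq ι] (T : Matrix ι ι ℝ) : Prop :=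
  (∀ i j, T i j = 1 ∨ T i j = -1) ∧
    T * T.transpose = (Fintype.card ι : ℝ) • (1 : Matrix ι ι ℝ)

/-- signed permutations -/
abbrev SP (ι : Type) := Equiv.Perm ι × (ι → ℤˣ)

/-- the action on integer vectors: `(Pz)(σ i) = s_i z_i` -/
def act {ι : Type} (P : SP ι) (z : ι → ℤ) : ι → ℤ := fun j =>
  ((P.2 (P.1.symm j) : ℤˣ) : ℤ) * z (P.1.symm j)

/-- the matrix `T^P` -/
def rowAct {ι : Type} (P : SP ι) (T : Matrix ι ι ℝ) : Matrix ι ι ℝ := fun i j =>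
  (((P.2 i : ℤˣ) : ℤ) : ℝ) * T (P.1 i) j

/-- the orbit of `z` under signed permutations -/
def orb {ι : Type} [Fintype ι] [DecidableEq ι] (z : ι → ℤ) : Finset (ι → ℤ) :=
  Finset.univ.image fun P : SP ι => act P z

/-- the number of nonzero coordinates -/
def spt {ι : Type} [Fintype ι] (z : ι → ℤ) : ℕ := (Finset.univ.filter fun i => z i ≠ 0).card

/-- `n^{-1/2} T y` is within `√D` of `lam z` -/
def near {ι : Type} [Fintype ι] (T : Matrix ι ι ℝ) (lam D : ℝ) (y : ι → ℤˣ) (z : ι → ℤ) : Prop :=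
  ∑ i, (T.mulVec (sv y) i / Real.sqrt (Fintype.card ι) - lam * (z i : ℝ)) ^ 2 ≤ D

open Classical in
/-- `c_T(lam, D, z)` -/
noncomputable def cnt {ι : Type} [Fintype ι] (T : Matrix ι ι ℝ) (lam D : ℝ) (z : ι → ℤ) : ℕ :=
  (Finset.univ.filter fun y : ι → ℤˣ => near T lam D y z).card

/-- the average `N_F(lam, D, z)` over the family `F` -/
noncomputable def avgN {Ω ι : Type} [Fintype Ω] [Fintype ι] (F : Ω → Matrix ι ι ℝ)
    (lam D : ℝ) (z : ι → ℤ) : ℝ :=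
  (∑ w, (cnt (F w) lam D z : ℝ)) / (Fintype.card Ω : ℝ)

/-- the doubling `((T₁, T₂), (T₁, -T₂))` -/
def dbl {ι : Type} (T₁ T₂ : Matrix ι ι ℝ) : Matrix (ι ⊕ ι) (ι ⊕ ι) ℝ :=
  Matrix.fromBlocks T₁ T₂ T₁ (-T₂)

/-- the symmetrised frequency `m_f(g)` -/
noncomputable def fr {ι G : Type} [Fintype ι] [DecidableEq G] [Neg G] (f : ι → G) (g : G) : ℝ :=
  (((Finset.univ.filter fun i => f i = g).card : ℝ) +
    ((Finset.univ.filter fun i => f i = -g).card : ℝ)) / (2 * (Fintype.card ι : ℝ))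

/-- the entropy `H(f)` of the symmetrised empirical law -/
noncomputable def ent {ι G : Type} [Fintype ι] [DecidableEq G] [Neg G] (f : ι → G) : ℝ :=
  -(∑ i, Real.log (fr f (f i))) / (Fintype.card ι : ℝ)

/-- `P(X = a)` for the uniform probability on `Ω` -/
noncomputable def pr {Ω α : Type} [Fintype Ω] [DecidableEq α] (X : Ω → α) (a : α) : ℝ :=
  ((Finset.univ.filter fun w => X w = a).card : ℝ) / (Fintype.card Ω : ℝ)

/-- the entropy of `X` (natural logarithm) -/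
noncomputable def Ent {Ω α : Type} [Fintype Ω] [DecidableEq α] (X : Ω → α) : ℝ :=
  -(∑ w, Real.log (pr X (X w))) / (Fintype.card Ω : ℝ)

/-- the mutual information -/
noncomputable def MI {Ω α β : Type} [Fintype Ω] [DecidableEq α] [DecidableEq β] (X : Ω → α)
    (Y : Ω → β) : ℝ := Ent X + Ent Y - Ent (fun w => (X w, Y w))

/-- the (real) characteristic function `E cos(t X)` -/
noncomputable def ch {Ω : Type} [Fintype Ω] (X : Ω → ℤ) (t : ℝ) : ℝ :=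
  (∑ w, Real.cos (t * (X w : ℝ))) / (Fintype.card Ω : ℝ)

/-- `CLAIM(s)` of the paper with the constant `β` -/
def Good (s : ℕ) (β : ℝ) : Prop :=
  ∀ lam : ℝ, 0 < lam → ∀ B : ℕ, ∀ η : ℝ, 0 < η → ∃ δ : ℝ, 0 < δ ∧ ∃ k₀ : ℕ, ∀ k : ℕ, k₀ ≤ k →
    (∃ K : Matrix (Fin k) (Fin k) ℝ, IsHad K) →
    ∃ (ι : Type) (_ : Fintype ι) (_ : DecidableEq ι) (Ω : Type) (_ : Fintype Ω) (_ : Nonempty Ω)
      (F : Ω → Matrix ι ι ℝ), Fintype.card ι = 2 ^ s * k ∧ (∀ w, IsHad (F w)) ∧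
      ∀ D : ℝ, D ≤ δ * (Fintype.card ι : ℝ) → ∀ z : ι → ℤ, (∀ i, |z i| ≤ (B : ℤ)) →
        avgN F lam D z ≤ Real.exp (-(Fintype.card ι : ℝ) * (9 / 10 * ent z - β - η))

open Pool.Agent.helper75.BM in
/-- linear admissibility -/
def LA (p q : ℝ≥0∞) [Fact (1 ≤ p)] [Fact (1 ≤ q)] (d : ℕ) (lam : ℝ) : Prop :=
  0 < lam ∧ ∃ A : (Fin d → ℝ) ≃ₗ[ℝ] (Fin d → ℝ), (∀ x, nrm p (A x) ≤ nrm q x) ∧
    ∀ x, nrm q x ≤ lam * nrm p (A x)

/-- the exponent `max (1/p - 1/2) (1/2 - 1/q)` -/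
noncomputable def gam (p q : ℝ≥0∞) : ℝ := max ((1 / p).toReal - 1 / 2) (1 / 2 - (1 / q).toReal)

end Pool.Agent.helper43.BMH
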