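import Pool.Agent.helper43.BMH.Spec

set_option autoImplicit false

namespace Pool.Agent.helper43.BMH

/-- entropy does not change under injective maps -/
theorem ENI_inj {Ω α β : Type} [Fintype Ω] [DecidableEq α] [DecidableEq β] (X : Ω → α)
    (g : α → β) (hg : Function.Injective g) : Ent (fun w => g (X w)) = Ent X := by
  unfold Ent pr
  congr 2
  refine Finset.sum_congr rfl fun w _ => ?_
  congr 4
  ext v
  simp only [Finset.mem_filter, Finset.mem_univ, true_and]
  exact hg.eq_iff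

theorem ENI_sum_Z {ι : Type} [Fintype ι] (F : ι × ℤˣ → ℝ) :
    ∑ w, F w = ∑ i, F (i, 1) + ∑ i, F (i, -1) := by
  rw [Fintype.sum_prod_type, ← Finset.sum_add_distrib]
  refine Finset.sum_congr rfl fun i _ => ?_
  have : (Finset.univ : Finset ℤˣ) = {1, -1} := by decide
  rw [this, Finset.sum_pair (by decide)]

theorem ENI_fr_neg {ι G : Type} [Fintype ι] [AddCommGroup G] [DecidableEq G] (f : ι → G) (g : G) :
    fr f (-g) = fr f g := by
  unfold fr
  rw [neg_neg, add_comm]

theorem ENI_card_pos {ι : Type} [Fintype ι] [Nonempty ι] : (0 : ℝ) < Fintype.card ι := by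
  exact_mod_cast Fintype.card_pos

theorem ENI_card_Om {ι : Type} [Fintype ι] :
    (Fintype.card (ι × ℤˣ) : ℝ) = 2 * (Fintype.card ι : ℝ) := by
  rw [Fintype.card_prod]
  have : Fintype.card ℤˣ = 2 := by decide
  rw [this]
  push_cast
  ring

/-- the frequency of a function on a sum -/
theorem ENI_fr_sum {ι : Type} [Fintype ι] [Nonempty ι] (u : ι ⊕ ι → ℤ) (g : ℤ) :
    fr u g = (fr (fun i => u (Sum.inl i)) g + fr (fun i => u (Sum.inr i)) g) / 2 := by
  have hn := ENI_card_pos (ι := ι)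
  have h : ∀ c : ℤ, ((Finset.univ.filter fun i => u i = c).card : ℝ) =
      ((Finset.univ.filter fun i => u (Sum.inl i) = c).card : ℝ) +
        ((Finset.univ.filter fun i => u (Sum.inr i) = c).card : ℝ) := by
    intro c
    have e1 : ∀ (κ : Type) [Fintype κ] (v : κ → ℤ),
        ((Finset.univ.filter fun i => v i = c).card : ℝ) = ∑ i, if v i = c then (1 : ℝ) else 0 := by
      intro κ _ v
      rw [Finset.sum_boole]
    rw [e1, e1, e1, Fintype.sum_sum_type]
  unfold fr
  rw [h, h, Fintype.card_sum]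
  push_cast
  field_simp
  ring

theorem ENI_fr_sum_le {Ω : Type} [Fintype Ω] [Nonempty Ω] {ι : Type} [Fintype ι] [Nonempty ι]
    (X : Ω → ℤ) (u : ι → ℤ) :
    ∑ a ∈ Finset.univ.image X, fr u a ≤ 1 := by
  classical
  have hn := ENI_card_pos (ι := ι)
  have h : ∀ (S : Finset ℤ), ∑ a ∈ S, ((Finset.univ.filter fun i => u i = a).card : ℝ) ≤
      (Fintype.card ι : ℝ) := by
    intro S
    have e : ∑ a ∈ S, (Finset.univ.filter fun i => u i = a).card ≤ Fintype.card ι := by
      rw [← Finset.card_biUnion]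
      · exact Finset.card_le_univ _
      · intro a _ b _ hab
        rw [Function.onFun, Finset.disjoint_left]
        intro i hi hj
        simp only [Finset.mem_filter, Finset.mem_univ, true_and] at hi hj
        exact hab (hi.symm.trans hj)
    exact_mod_cast e
  have h2 : ∑ a ∈ Finset.univ.image X, ((Finset.univ.filter fun i => u i = -a).card : ℝ) ≤
      (Fintype.card ι : ℝ) := by
    have := h ((Finset.univ.image X).map ⟨fun x => -x, neg_injective⟩)
    rw [Finset.sum_map] at this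
    exact this
  unfold fr
  rw [← Finset.sum_div, Finset.sum_add_distrib, div_le_one (by positivity)]
  have := h (Finset.univ.image X)
  linarith

theorem t_eni (he : EXH) (hg : GIB) (hp : PIN) (hf : FOU) (hs : SYM) : ENI := by
  intro ι _ _ u
  have hn := ENI_card_pos (ι := ι)
  set a : ι → ℤ := fun i => u (Sum.inl i) with ha
  set b : ι → ℤ := fun i => u (Sum.inr i) with hb
  set X : ι × ℤˣ → ℤ := fun w => ((w.2 : ℤˣ) : ℤ) * a w.1 with hX
  set Y : ι × ℤˣ → ℤ := fun w => ((w.2 : ℤˣ) : ℤ) * b w.1 with hY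
  -- identities
  have eX : ent a = Ent X := (hs ι ℤ a).1
  have eY : ent b = Ent Y := (hs ι ℤ b).1
  have eXY : ent (fun i => (a i, b i)) = Ent (fun w => (X w, Y w)) :=
    (hs ι (ℤ × ℤ) (fun i => (a i, b i))).1
  have eS : ent (fun i => a i + b i) = Ent (fun w => X w + Y w) := by
    rw [(hs ι ℤ (fun i => a i + b i)).1]
    congr 1
    funext w
    simp only [smul_eq_mul, hX, hY]
    ring
  have eD : ent (fun i => a i - b i) = Ent (fun w => X w - Y w) := by
    rw [(hs ι ℤ (fun i => a i - b i)).1]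
    congr 1
    funext w
    simp only [smul_eq_mul, hX, hY]
    ring
  have eSD : Ent (fun w => (X w + Y w, X w - Y w)) = Ent (fun w => (X w, Y w)) := by
    refine ENI_inj (fun w => (X w, Y w)) (fun p : ℤ × ℤ => (p.1 + p.2, p.1 - p.2)) ?_
    rintro ⟨x, y⟩ ⟨x', y'⟩ h
    simp only [Prod.mk.injEq] at h ⊢
    constructor
    · linarith [h.1, h.2]
    · linarith [h.1, h.2]
  -- cross entropy
  have cross : ∀ (v : ι → ℤ), (∀ i, 0 < fr u (v i)) →
      ent v ≤ -(∑ i, Real.log (fr u (v i))) / (Fintype.card ι : ℝ) := by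
    intro v hv
    have h1 := hg (ι × ℤˣ) ℤ (fun w => ((w.2 : ℤˣ) : ℤ) * v w.1) (fr u) (by
      rintro ⟨i, s⟩
      rcases Int.units_eq_one_or s with rfl | rfl
      · simpa using hv i
      · have := hv i
        simp only [Units.val_neg, Units.val_one, neg_mul, one_mul]
        rw [ENI_fr_neg]
        exact this) (ENI_fr_sum_le _ u)
    have h2 : ent v = Ent (fun w : ι × ℤˣ => ((w.2 : ℤˣ) : ℤ) * v w.1) := (hs ι ℤ v).1
    rw [h2]
    refine h1.trans (le_of_eq ?_)
    rw [ENI_sum_Z, ENI_card_Om]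
    simp only [Units.val_neg, Units.val_one, neg_mul, one_mul, ENI_fr_neg]
    field_simp
    ring
  have hpos : ∀ j, 0 < fr u (u j) := (he (ι ⊕ ι) ℤ u).2.2.1
  have c1 := cross a (fun i => hpos (Sum.inl i))
  have c2 := cross b (fun i => hpos (Sum.inr i))
  have hu : 2 * ent u = -(∑ i, Real.log (fr u (a i))) / (Fintype.card ι : ℝ) +
      -(∑ i, Real.log (fr u (b i))) / (Fintype.card ι : ℝ) := by
    unfold ent
    rw [Fintype.sum_sum_type, Fintype.card_sum]
    push_cast
    field_simp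
    ring
  have hI := (hp (ι × ℤˣ) ℤ ℤ X Y).1
  have hI' := (hp (ι × ℤˣ) ℤ ℤ (fun w => X w + Y w) (fun w => X w - Y w)).1
  have hF := hf (ι × ℤˣ) X Y ((Equiv.refl ι).prodCongr (Equiv.neg ℤˣ)) (by
    rintro ⟨i, s⟩
    simp [hX]) (by
    rintro ⟨i, s⟩
    simp [hY])
  set I := MI X Y with hIdef
  set I' := MI (fun w => X w + Y w) (fun w => X w - Y w) with hIdef'
  have d1 : I = ent a + ent b - ent (fun i => (a i, b i)) := by
    rw [hIdef, MI, eX, eY, eXY]
  have d2 : I' = ent (fun i => a i + b i) + ent (fun i => a i - b i) - ent (fun i => (a i, b i)) := by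
    rw [hIdef', MI, eS, eD, eXY, eSD]
  have hsum : ent a + ent b ≤ 2 * ent u := by rw [hu]; linarith
  refine ⟨by linarith, by linarith, ?_⟩
  -- the support
  have cardX : ∀ v : ι → ℤ, ((Finset.univ.filter fun w : ι × ℤˣ => ((w.2 : ℤˣ) : ℤ) * v w.1 ≠ 0).card : ℝ) =
      2 * (spt v : ℝ) := by
    intro v
    have e1 : ∀ (κ : Type) [Fintype κ] (f : κ → ℤ),
        ((Finset.univ.filter fun i => f i ≠ 0).card : ℝ) = ∑ i, if f i ≠ 0 then (1 : ℝ) else 0 := by
      intro κ _ f
      rw [Finset.sum_boole]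
    unfold spt
    rw [e1, e1, ENI_sum_Z]
    simp only [Units.val_neg, Units.val_one, neg_mul, one_mul, neg_ne_zero]
    ring
  have hspt : (spt u : ℝ) = (spt a : ℝ) + (spt b : ℝ) := by
    have e1 : ∀ (κ : Type) [Fintype κ] (f : κ → ℤ),
        (spt f : ℝ) = ∑ i, if f i ≠ 0 then (1 : ℝ) else 0 := by
      intro κ _ f
      unfold spt
      rw [Finset.sum_boole]
    rw [e1, e1, e1, Fintype.sum_sum_type]
  have k1 : (spt a : ℝ) / (Fintype.card ι : ℝ) ≤ 32 * (Real.sqrt I + Real.sqrt I') := by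
    have := hF.1
    rw [hX, cardX a, ENI_card_Om] at this
    calc (spt a : ℝ) / (Fintype.card ι : ℝ) = 2 * (spt a : ℝ) / (2 * (Fintype.card ι : ℝ)) := by
          field_simp
      _ ≤ _ := this
  have k2 : (spt b : ℝ) / (Fintype.card ι : ℝ) ≤ 32 * (Real.sqrt I + Real.sqrt I') := by
    have := hF.2
    rw [hY, cardX b, ENI_card_Om] at this
    calc (spt b : ℝ) / (Fintype.card ι : ℝ) = 2 * (spt b : ℝ) / (2 * (Fintype.card ι : ℝ)) := by
          field_simp
      _ ≤ _ := this
  have k3 : (spt u : ℝ) / (2 * (Fintype.card ι : ℝ)) ≤ 32 * (Real.sqrt I + Real.sqrt I') := by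
    rw [hspt]
    have : ((spt a : ℝ) + (spt b : ℝ)) / (2 * (Fintype.card ι : ℝ)) =
        ((spt a : ℝ) / (Fintype.card ι : ℝ) + (spt b : ℝ) / (Fintype.card ι : ℝ)) / 2 := by
      field_simp
    rw [this]
    linarith
  have k0 : 0 ≤ (spt u : ℝ) / (2 * (Fintype.card ι : ℝ)) := by positivity
  have k4 : ((spt u : ℝ) / (2 * (Fintype.card ι : ℝ))) ^ 2 ≤
      (32 * (Real.sqrt I + Real.sqrt I')) ^ 2 := pow_le_pow_left₀ k0 k3 2
  have k5 : (Real.sqrt I + Real.sqrt I') ^ 2 ≤ 2 * (I + I') := by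
    have q1 := Real.sq_sqrt hI
    have q2 := Real.sq_sqrt hI'
    nlinarith [sq_nonneg (Real.sqrt I - Real.sqrt I')]
  nlinarith [k4, k5, hsum, d1, d2]

end Pool.Agent.helper43.BMH
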