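import Pool.Agent.helper43.BMH.Spec

set_option autoImplicit false

namespace Pool.Agent.helper43.BMH

open scoped ENNReal
open Pool.Agent.helper75.BM (nrm N2 L dBM nrm_nonneg adm_of_linear dBM_le_of_adm)

section

variable {p q : ℝ≥0∞} [Fact (1 ≤ p)] [Fact (1 ≤ q)]

omit [Fact (1 ≤ q)] in
theorem FIN_gam_pos (hp2 : p < 2) : 0 < gam p q := by
  have hp1 : 1 ≤ p := Fact.out
  have hpt : p ≠ ⊤ := (hp2.trans ENNReal.ofNat_lt_top).ne
  have h1 : 1 ≤ p.toReal := by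
    rw [← ENNReal.toReal_one]; exact ENNReal.toReal_mono hpt hp1
  have h2 : p.toReal < 2 := by
    have := (ENNReal.toReal_lt_toReal hpt (by norm_num)).2 hp2
    simpa using this
  unfold gam
  refine lt_of_lt_of_le ?_ (le_max_left _ _)
  rw [ENNReal.toReal_div, ENNReal.toReal_one]
  have : 1 / 2 < 1 / p.toReal := by
    rw [div_lt_div_iff₀ (by norm_num) (by linarith)]; linarith
  linarith

theorem FIN_LA_mono {d : ℕ} {l l' : ℝ} (h : LA p q d l) (hl : l ≤ l') : LA p q d l' := by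
  obtain ⟨h0, A, h1, h2⟩ := h
  refine ⟨h0.trans_le hl, A, h1, fun x => (h2 x).trans ?_⟩
  exact mul_le_mul_of_nonneg_right hl (nrm_nonneg _)

theorem FIN_dBM_le (hp2 : p < 2) (hq2 : 2 < q) {d : ℕ} (hd : 2 ≤ d) {l : ℝ} (h : LA p q d l) :
    dBM (L d p) (L d q) ≤ Real.log l := by
  obtain ⟨h0, A, h1, h2⟩ := h
  exact dBM_le_of_adm hp2 hq2 hd (adm_of_linear h0 A h1 h2)

end

theorem t_fin (hc : COR) (hs : STA) (hl : HLA) (hb : BLK) (hk : HKR) (ha : ALR) (hd : DEN) :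
    FIN := by
  intro p q _ _ hp2 hq2
  obtain ⟨Lv, δ, hδ, k₀, hcor⟩ := hc
  obtain ⟨δ', hδ'0, hδ'1, hsta⟩ := hs p q hp2 hq2 δ hδ
  obtain ⟨C, hC, halr⟩ := ha p q hp2 hq2
  have hγ : 0 < gam p q := FIN_gam_pos hp2
  set γ := gam p q with hγdef
  have hpq : p ≤ q := (hp2.trans hq2).le
  -- choose ε
  obtain ⟨ε, hε0, hε1, hεC⟩ : ∃ ε : ℝ, 0 < ε ∧ ε < 1 / 2 ∧ C * ε ^ γ ≤ δ' / 2 := by
    have hx : 0 < δ' / 2 / C := by positivity
    refine ⟨min (1 / 4) ((δ' / 2 / C) ^ (1 / γ)), lt_min (by norm_num) (by positivity),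
      (min_le_left _ _).trans_lt (by norm_num), ?_⟩
    have h1 : (min (1 / 4) ((δ' / 2 / C) ^ (1 / γ))) ^ γ ≤ ((δ' / 2 / C) ^ (1 / γ)) ^ γ :=
      Real.rpow_le_rpow (by positivity) (min_le_right _ _) hγ.le
    rw [← Real.rpow_mul hx.le, one_div_mul_cancel hγ.ne', Real.rpow_one] at h1
    calc C * _ ≤ C * (δ' / 2 / C) := mul_le_mul_of_nonneg_left h1 hC.le
      _ = δ' / 2 := by field_simp
  obtain ⟨N, hN⟩ := hd ε hε0 (by linarith)
  refine ⟨δ' / 2, by positivity, 2 + Nat.ceil ((2 : ℝ) ^ Lv * (max N 0 + 2 * (k₀ + 1))), ?_⟩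
  intro d hdd
  have hd2 : 2 ≤ d := by omega
  have hd0 : (0 : ℝ) < d := by exact_mod_cast (by omega : 0 < d)
  have h2L : (0 : ℝ) < (2 : ℝ) ^ Lv := by positivity
  have hdbig : (2 : ℝ) ^ Lv * (max N 0 + 2 * (k₀ + 1)) ≤ d := by
    calc (2 : ℝ) ^ Lv * (max N 0 + 2 * (k₀ + 1)) ≤
        ((Nat.ceil ((2 : ℝ) ^ Lv * (max N 0 + 2 * (k₀ + 1))) : ℕ) : ℝ) := Nat.le_ceil _
      _ ≤ (d : ℝ) := Nat.cast_le.2 (by omega)
  set x : ℝ := (d : ℝ) / 2 ^ Lv with hx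
  have hxbig : max N 0 + 2 * ((k₀ : ℝ) + 1) ≤ x := by
    rw [hx, le_div_iff₀ h2L, mul_comm]; exact hdbig
  have hNx : N ≤ x := by
    have h1 := le_max_left N 0
    have h2 : (0 : ℝ) ≤ k₀ := Nat.cast_nonneg _
    linarith
  obtain ⟨i, j, hij1, hij2⟩ := hN x hNx
  set k : ℕ := 2 ^ i * 12 ^ j with hkdef
  have hkcast : ((k : ℕ) : ℝ) = (2 : ℝ) ^ i * 12 ^ j := by rw [hkdef]; push_cast; ring
  rw [← hkcast] at hij1 hij2
  have hkk : k₀ ≤ k := by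
    have h1 := le_max_right N 0
    have h2 : (0 : ℝ) ≤ k₀ := Nat.cast_nonneg _
    have h3 : (k₀ : ℝ) ≤ k := by
      have : (1 / 2 : ℝ) * x ≤ (1 - ε) * x := by
        apply mul_le_mul_of_nonneg_right _ (by linarith)
        linarith
      linarith
    exact_mod_cast h3
  obtain ⟨m, hm⟩ : ∃ m : ℕ, m = 2 ^ Lv * k := ⟨_, rfl⟩
  have hcor' := hcor k hkk (hk i j)
  rw [← hm] at hcor'
  obtain ⟨H, hH, hHE⟩ := hcor'
  have hmcast : ((m : ℕ) : ℝ) = 2 ^ Lv * (k : ℝ) := by rw [hm]; push_cast; ring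
  have hdx : (d : ℝ) = 2 ^ Lv * x := by rw [hx]; field_simp
  have hm1 : (1 - ε) * d ≤ m := by
    rw [hmcast, hdx]
    calc (1 - ε) * (2 ^ Lv * x) = 2 ^ Lv * ((1 - ε) * x) := by ring
      _ ≤ 2 ^ Lv * (k : ℝ) := mul_le_mul_of_nonneg_left hij1 h2L.le
  have hm2 : (m : ℝ) ≤ d := by
    rw [hmcast, hdx]
    exact mul_le_mul_of_nonneg_left hij2 h2L.le
  have hm2' : m ≤ d := by exact_mod_cast hm2
  have hmpos : (0 : ℝ) < m := lt_of_lt_of_le (mul_pos (by linarith) hd0) hm1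
  have hmpos' : 0 < m := by exact_mod_cast hmpos
  have hLA1 : LA p q m ((1 - δ') * (m : ℝ) ^ γ) := by
    refine hl p q hp2 hq2 m H (1 - δ') hmpos' (by linarith) hH ?_
    exact hsta m H hmpos' hH hHE
  have hmγ : (m : ℝ) ^ γ ≤ (d : ℝ) ^ γ := Real.rpow_le_rpow hmpos.le hm2 hγ.le
  have hdγ : (0 : ℝ) < (d : ℝ) ^ γ := Real.rpow_pos_of_pos hd0 _
  have hLA : LA p q d ((1 - δ' / 2) * (d : ℝ) ^ γ) := by
    rcases Nat.eq_zero_or_pos (d - m) with h0 | h0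
    · have hdm : m = d := by omega
      rw [hdm] at hLA1
      refine FIN_LA_mono hLA1 ?_
      exact mul_le_mul_of_nonneg_right (by linarith) hdγ.le
    · have h1 := hb p q hpq m (d - m) _ _ hLA1 (halr (d - m) h0)
      have hdm : m + (d - m) = d := by omega
      rw [hdm] at h1
      refine FIN_LA_mono h1 ?_
      have hr : ((d - m : ℕ) : ℝ) ≤ ε * d := by
        rw [Nat.cast_sub hm2']
        linarith
      have hr' : ((d - m : ℕ) : ℝ) ^ γ ≤ (ε * d) ^ γ :=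
        Real.rpow_le_rpow (Nat.cast_nonneg _) hr hγ.le
      rw [Real.mul_rpow hε0.le hd0.le] at hr'
      have h2 : C * ((d - m : ℕ) : ℝ) ^ γ ≤ δ' / 2 * (d : ℝ) ^ γ := by
        calc C * ((d - m : ℕ) : ℝ) ^ γ ≤ C * (ε ^ γ * (d : ℝ) ^ γ) :=
              mul_le_mul_of_nonneg_left hr' hC.le
          _ = (C * ε ^ γ) * (d : ℝ) ^ γ := by ring
          _ ≤ δ' / 2 * (d : ℝ) ^ γ := mul_le_mul_of_nonneg_right hεC hdγ.le
      have h3 : (1 - δ') * (m : ℝ) ^ γ ≤ (1 - δ') * (d : ℝ) ^ γ :=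
        mul_le_mul_of_nonneg_left hmγ (by linarith)
      calc _ ≤ (1 - δ') * (d : ℝ) ^ γ + δ' / 2 * (d : ℝ) ^ γ := add_le_add h3 h2
        _ = (1 - δ' / 2) * (d : ℝ) ^ γ := by ring
  have hfin := FIN_dBM_le hp2 hq2 hd2 hLA
  have hpos : 0 < 1 - δ' / 2 := by linarith
  rw [Real.log_mul hpos.ne' hdγ.ne', Real.log_rpow hd0] at hfin
  have hlog : Real.log (1 - δ' / 2) ≤ -(δ' / 2) := by
    have := Real.log_le_sub_one_of_pos hpos
    linarith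
  linarith

end Pool.Agent.helper43.BMH
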