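import Pool.Agent.helper43.BMH.Spec

set_option autoImplicit false

namespace Pool.Agent.helper43.BMH

theorem FOU_ch_le {Ω : Type} [Fintype Ω] [Nonempty Ω] (X : Ω → ℤ) (t : ℝ) : |ch X t| ≤ 1 := by
  have hO : (0 : ℝ) < Fintype.card Ω := by exact_mod_cast Fintype.card_pos
  unfold ch
  rw [abs_div, abs_of_pos hO, div_le_one hO]
  calc |∑ w, Real.cos (t * (X w : ℝ))| ≤ ∑ w, |Real.cos (t * (X w : ℝ))| :=
        Finset.abs_sum_le_sum_abs _ _
    _ ≤ ∑ _w : Ω, (1 : ℝ) := Finset.sum_le_sum fun w _ => Real.abs_cos_le_one _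
    _ = Fintype.card Ω := by rw [Finset.sum_const, Finset.card_univ, nsmul_eq_mul, mul_one]

theorem FOU_ch_even {Ω : Type} [Fintype Ω] (X : Ω → ℤ) (t : ℝ) : ch X (-t) = ch X t := by
  unfold ch
  congr 1
  refine Finset.sum_congr rfl fun w _ => ?_
  rw [neg_mul, Real.cos_neg]

theorem FOU_ch_per {Ω : Type} [Fintype Ω] [Nonempty Ω] (X : Ω → ℤ) (k : ℤ) :
    ch X (2 * Real.pi * k) = 1 := by
  have hO : (0 : ℝ) < Fintype.card Ω := by exact_mod_cast Fintype.card_pos
  unfold ch
  rw [div_eq_one_iff_eq hO.ne']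
  calc ∑ w, Real.cos (2 * Real.pi * k * (X w : ℝ)) = ∑ _w : Ω, (1 : ℝ) := by
        refine Finset.sum_congr rfl fun w _ => ?_
        have := Real.cos_int_mul_two_pi (k * X w)
        rw [← this]
        congr 1
        push_cast
        ring
    _ = Fintype.card Ω := by rw [Finset.sum_const, Finset.card_univ, nsmul_eq_mul, mul_one]

/-- from the lower bound at the dyadic points to the probability -/
theorem FOU_avg (hr : RTS) {Ω : Type} [Fintype Ω] [Nonempty Ω] (X : Ω → ℤ) (δ : ℝ) (r : ℕ)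
    (hX : ∀ w, |X w| < 2 ^ r)
    (h : ∀ j : ℕ, 1 - δ ≤ ch X (2 * Real.pi * j / 2 ^ r)) :
    ((Finset.univ.filter fun w => X w ≠ 0).card : ℝ) / (Fintype.card Ω : ℝ) ≤ δ := by
  have hO : (0 : ℝ) < Fintype.card Ω := by exact_mod_cast Fintype.card_pos
  have h2 : (0 : ℝ) < 2 ^ r := by positivity
  have e1 : ∑ j ∈ Finset.range (2 ^ r), ch X (2 * Real.pi * j / 2 ^ r) =
      2 ^ r * (((Finset.univ.filter fun w => X w = 0).card : ℝ) / (Fintype.card Ω : ℝ)) := by
    unfold ch
    rw [← Finset.sum_div, Finset.sum_comm]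
    have : ∑ w : Ω, ∑ j ∈ Finset.range (2 ^ r),
        Real.cos (2 * Real.pi * j / 2 ^ r * (X w : ℝ)) = ∑ w : Ω, if X w = 0 then (2 : ℝ) ^ r else 0 :=
      Finset.sum_congr rfl fun w _ => hr r (X w) (hX w)
    rw [this, ← Finset.sum_filter, Finset.sum_const, nsmul_eq_mul]
    ring
  have e2 : (2 : ℝ) ^ r * (1 - δ) ≤ ∑ j ∈ Finset.range (2 ^ r), ch X (2 * Real.pi * j / 2 ^ r) := by
    calc (2 : ℝ) ^ r * (1 - δ) = ∑ _j ∈ Finset.range (2 ^ r), (1 - δ) := by
          rw [Finset.sum_const, Finset.card_range, nsmul_eq_mul]; push_cast; ring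
      _ ≤ _ := Finset.sum_le_sum fun j _ => h j
  rw [e1] at e2
  have e3 := le_of_mul_le_mul_left e2 h2
  have e4 : ((Finset.univ.filter fun w => X w = 0).card : ℝ) +
      ((Finset.univ.filter fun w => X w ≠ 0).card : ℝ) = (Fintype.card Ω : ℝ) := by
    have := Finset.card_filter_add_card_filter_not (s := (Finset.univ : Finset Ω)) (fun w => X w = 0)
    rw [Finset.card_univ] at this
    exact_mod_cast this
  have e5 : ((Finset.univ.filter fun w => X w = 0).card : ℝ) / (Fintype.card Ω : ℝ) +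
      ((Finset.univ.filter fun w => X w ≠ 0).card : ℝ) / (Fintype.card Ω : ℝ) = 1 := by
    rw [← add_div, e4, div_self hO.ne']
  linarith

theorem FOU_le_one {Ω : Type} [Fintype Ω] [Nonempty Ω] (X : Ω → ℤ) :
    ((Finset.univ.filter fun w => X w ≠ 0).card : ℝ) / (Fintype.card Ω : ℝ) ≤ 1 := by
  have hO : (0 : ℝ) < Fintype.card Ω := by exact_mod_cast Fintype.card_pos
  rw [div_le_one hO]
  exact_mod_cast Finset.card_le_univ _

theorem FOU_exists_r {Ω : Type} [Fintype Ω] (X Y : Ω → ℤ) :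
    ∃ r : ℕ, (∀ w, |X w| < 2 ^ r) ∧ ∀ w, |Y w| < 2 ^ r := by
  classical
  obtain ⟨M, hM⟩ : ∃ M : ℕ, ∀ w, |X w| ≤ M ∧ |Y w| ≤ M := by
    refine ⟨∑ w, ((X w).natAbs + (Y w).natAbs), fun w => ?_⟩
    have := Finset.single_le_sum (f := fun w => (X w).natAbs + (Y w).natAbs)
      (fun w _ => Nat.zero_le _) (Finset.mem_univ w)
    change (X w).natAbs + (Y w).natAbs ≤ _ at this
    rw [Int.abs_eq_natAbs, Int.abs_eq_natAbs]
    omega
  refine ⟨M, fun w => ?_, fun w => ?_⟩
  · have h1 := (hM w).1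
    have h2 : (M : ℤ) < 2 ^ M := by exact_mod_cast Nat.lt_two_pow_self
    omega
  · have h1 := (hM w).2
    have h2 : (M : ℤ) < 2 ^ M := by exact_mod_cast Nat.lt_two_pow_self
    omega

theorem t_fou (_hp : PIN) (hc : CHS) (hd : DYA) (hr : RTS) : FOU := by
  intro Ω _ _ X Y e hX hY
  set I := MI X Y with hI
  set I' := MI (fun w => X w + Y w) (fun w => X w - Y w) with hI'
  set ε := 2 * Real.sqrt I + 2 * Real.sqrt I' with hε
  have s1 := Real.sqrt_nonneg I
  have s2 := Real.sqrt_nonneg I'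
  have hε0 : 0 ≤ ε := by rw [hε]; positivity
  by_cases hle : ε ≤ 1 / 16
  · have key := hd (ch X) (ch Y) (ch (fun w => X w + Y w)) (ch (fun w => X w - Y w)) ε hε0 hle
      (FOU_ch_le _) (FOU_ch_le _) (FOU_ch_le _) (FOU_ch_le _) (FOU_ch_even _) (FOU_ch_even _)
      (by have := FOU_ch_per (fun w => X w + Y w) 0; simpa using this)
      (by have := FOU_ch_per (fun w => X w - Y w) 0; simpa using this)
      (fun k => ⟨FOU_ch_per _ k, FOU_ch_per _ k⟩) (by
        intro a b
        have h1 := hc Ω X Y e hX hY (a + b) (a - b)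
        have h2 := hc Ω (fun w => X w + Y w) (fun w => X w - Y w) e
          (fun w => by simp only [hX, hY]; ring) (fun w => by simp only [hX, hY]; ring) a b
        have e1 : ∑ w, Real.cos (a * (((X w + Y w : ℤ)) : ℝ) + b * ((X w - Y w : ℤ) : ℝ)) =
            ∑ w, Real.cos ((a + b) * (X w : ℝ) + (a - b) * (Y w : ℝ)) := by
          refine Finset.sum_congr rfl fun w _ => ?_
          congr 1
          push_cast
          ring
        rw [e1] at h2
        rw [← hI] at h1
        rw [← hI'] at h2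
        rw [abs_le] at h1 h2 ⊢
        rw [hε]
        constructor <;> linarith [h1.1, h1.2, h2.1, h2.2])
    obtain ⟨r, hr1, hr2⟩ := FOU_exists_r X Y
    have h2r : (2 : ℝ) ^ r ≠ 0 := by positivity
    have k1 := FOU_avg hr X (4 * ε) r hr1 (fun j => (key r (2 * Real.pi * j / 2 ^ r) j (by
      push_cast; field_simp)).1)
    have k2 := FOU_avg hr Y (4 * ε) r hr2 (fun j => (key r (2 * Real.pi * j / 2 ^ r) j (by
      push_cast; field_simp)).2)
    constructor <;> linarith
  · push Not at hle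
    have k1 := FOU_le_one X
    have k2 := FOU_le_one Y
    constructor <;> linarith

end Pool.Agent.helper43.BMH
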