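import Pool.Agent.helper43.BMH.Spec

set_option autoImplicit false

namespace Pool.Agent.helper43.BMH

theorem t_hyn (h : HYB) : HYN := by
  intro d H hH a b ha ha2 hab hb x
  have ha0 : 0 < a := by linarith
  have hb0 : 0 < b := by linarith
  set S : ℝ := ∑ i, |H.mulVec x i| ^ b with hS
  set N : ℝ := ∑ i, |x i| ^ a with hN
  have hS0 : 0 ≤ S := Finset.sum_nonneg fun i _ => Real.rpow_nonneg (abs_nonneg _) _
  have hN0 : 0 ≤ N := Finset.sum_nonneg fun i _ => Real.rpow_nonneg (abs_nonneg _) _
  rcases hS0.eq_or_lt with hSz | hSpos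
  · rw [← hSz, Real.zero_rpow (by positivity)]
    positivity
  rcases hN0.eq_or_lt with hNz | hNpos
  · -- `x = 0`
    exfalso
    have hx : ∀ i, x i = 0 := by
      intro i
      have h1 := (Finset.sum_eq_zero_iff_of_nonneg
        (fun i _ => Real.rpow_nonneg (abs_nonneg (x i)) a)).1 hNz.symm i (Finset.mem_univ i)
      rw [Real.rpow_eq_zero (abs_nonneg _) ha0.ne', abs_eq_zero] at h1
      exact h1
    have hx0 : x = 0 := funext hx
    rw [hS, hx0, Matrix.mulVec_zero] at hSpos
    simp only [Pi.zero_apply, abs_zero] at hSpos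
    rw [Real.zero_rpow hb0.ne'] at hSpos
    simp at hSpos
  have hq1 : (b - 1) * a = b := by
    field_simp at hab
    linarith
  have hNN : 0 < N ^ (1 / a) := Real.rpow_pos_of_pos hNpos _
  have hSS : 0 < S ^ (1 / a) := Real.rpow_pos_of_pos hSpos _
  have hNp : (N ^ (1 / a)) ^ a = N := by
    rw [← Real.rpow_mul hNpos.le, one_div_mul_cancel ha0.ne', Real.rpow_one]
  have hSp : (S ^ (1 / a)) ^ a = S := by
    rw [← Real.rpow_mul hSpos.le, one_div_mul_cancel ha0.ne', Real.rpow_one]
  set c : ℝ := (N ^ (1 / a))⁻¹ with hc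
  have hc0 : 0 < c := by positivity
  have hm : ∀ i, H.mulVec (fun j => c * x j) i = c * H.mulVec x i := by
    intro i
    have : (fun j => c * x j) = c • x := by funext j; rfl
    rw [this, Matrix.mulVec_smul]
    rfl
  have key := h d H hH a ha.le ha2 (fun j => c * x j)
    (fun i => SignType.sign (H.mulVec x i) * (|H.mulVec x i| ^ (b - 1) / S ^ (1 / a))) (by
      have e1 : ∀ i, |c * x i| ^ a = c ^ a * |x i| ^ a := by
        intro i
        rw [abs_mul, abs_of_pos hc0, Real.mul_rpow hc0.le (abs_nonneg _)]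
      simp only [e1]
      rw [← Finset.mul_sum, ← hN, hc, Real.inv_rpow hNN.le, hNp, inv_mul_cancel₀ hNpos.ne']) (by
      have e1 : ∀ i, |(SignType.sign (H.mulVec x i) : ℝ) *
          (|H.mulVec x i| ^ (b - 1) / S ^ (1 / a))| ^ a = |H.mulVec x i| ^ b / S := by
        intro i
        have p1 : 0 ≤ |H.mulVec x i| ^ (b - 1) := Real.rpow_nonneg (abs_nonneg _) _
        rcases eq_or_ne (H.mulVec x i) 0 with h0 | h0
        · rw [h0, sign_zero, abs_zero, Real.zero_rpow hb0.ne']
          simp [Real.zero_rpow ha0.ne']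
        · have hs : |(SignType.sign (H.mulVec x i) : ℝ)| = 1 := by
            rcases lt_or_gt_of_ne h0 with h1 | h1
            · rw [sign_neg h1]; simp
            · rw [sign_pos h1]; simp
          rw [abs_mul, hs, one_mul, abs_of_nonneg (div_nonneg p1 hSS.le),
            Real.div_rpow p1 hSS.le, hSp, ← Real.rpow_mul (abs_nonneg _), hq1]
      simp only [e1]
      rw [← Finset.sum_div, ← hS, div_self hSpos.ne'])
  have e2 : ∑ i, (SignType.sign (H.mulVec x i) : ℝ) * (|H.mulVec x i| ^ (b - 1) / S ^ (1 / a)) *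
      H.mulVec (fun j => c * x j) i = c * (S / S ^ (1 / a)) := by
    have : ∀ i, (SignType.sign (H.mulVec x i) : ℝ) * (|H.mulVec x i| ^ (b - 1) / S ^ (1 / a)) *
        H.mulVec (fun j => c * x j) i = c / S ^ (1 / a) * |H.mulVec x i| ^ b := by
      intro i
      rw [hm]
      rcases eq_or_ne (H.mulVec x i) 0 with h0 | h0
      · rw [h0, abs_zero, Real.zero_rpow hb0.ne']; simp
      · have h1 : (SignType.sign (H.mulVec x i) : ℝ) * H.mulVec x i = |H.mulVec x i| :=
          sign_mul_self _
        have h2 : |H.mulVec x i| ^ b = |H.mulVec x i| ^ (b - 1) * |H.mulVec x i| := by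
          rw [← Real.rpow_add_one (abs_ne_zero.2 h0)]; congr 1; ring
        rw [h2, ← h1]
        field_simp
    simp only [this]
    rw [← Finset.mul_sum, ← hS]
    field_simp
  rw [e2] at key
  have e3 : S / S ^ (1 / a) = S ^ (1 / b) := by
    have : (1 : ℝ) / b = 1 - 1 / a := by linarith
    rw [this, Real.rpow_sub hSpos, Real.rpow_one]
  have e4 : 1 - 1 / a = 1 / b := by linarith
  rw [e3, e4, hc] at key
  calc S ^ (1 / b) = N ^ (1 / a) * ((N ^ (1 / a))⁻¹ * S ^ (1 / b)) := by
        field_simp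
    _ ≤ N ^ (1 / a) * (d : ℝ) ^ (1 / b) := mul_le_mul_of_nonneg_left key hNN.le
    _ = _ := by ring

end Pool.Agent.helper43.BMH
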