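import Pool.Agent.helper43.BMH.Spec

set_option autoImplicit false

namespace Pool.Agent.helper43.BMH

theorem t_orb : ORB := by
  intro ι _ _ z u hu
  obtain ⟨P, _, rfl⟩ := Finset.mem_image.1 hu
  have hact : ∀ i, act P z (P.1 i) = ((P.2 i : ℤˣ) : ℤ) * z i := by
    intro i; unfold act; rw [Equiv.symm_apply_apply]
  have hneg : ∀ (f : ι → ℤ) (g : ℤ), fr f (-g) = fr f g := by
    intro f g; unfold fr; rw [neg_neg, add_comm]
  have hfr : ∀ g : ℤ, fr (act P z) g = fr z g := by
    intro g
    unfold fr
    congr 1
    rw [← Finset.sum_boole, ← Finset.sum_boole, ← Finset.sum_boole, ← Finset.sum_boole,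
      ← Finset.sum_add_distrib, ← Finset.sum_add_distrib, ← Equiv.sum_comp P.1]
    refine Finset.sum_congr rfl fun i _ => ?_
    rw [hact]
    rcases Int.units_eq_one_or (P.2 i) with h | h
    · rw [h]; simp
    · rw [h]
      simp only [Units.val_neg, Units.val_one, neg_mul, one_mul, neg_inj]
      rw [add_comm]
      congr 2
      exact propext neg_eq_iff_eq_neg
  refine ⟨?_, ?_, ?_⟩
  · unfold ent
    congr 2
    rw [← Equiv.sum_comp P.1]
    refine Finset.sum_congr rfl fun i _ => ?_
    rw [hfr, hact]
    rcases Int.units_eq_one_or (P.2 i) with h | h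
    · rw [h]; simp
    · rw [h]
      simp only [Units.val_neg, Units.val_one, neg_mul, one_mul]
      rw [hneg]
  · unfold spt
    refine (Finset.card_bij (fun i _ => P.1 i) ?_ ?_ ?_).symm
    · intro i hi
      rw [Finset.mem_filter] at hi ⊢
      refine ⟨Finset.mem_univ _, ?_⟩
      rw [hact]
      exact mul_ne_zero (Units.ne_zero _) hi.2
    · intro i _ j _ h
      exact P.1.injective h
    · intro j hj
      rw [Finset.mem_filter] at hj
      refine ⟨P.1.symm j, ?_, P.1.apply_symm_apply j⟩
      rw [Finset.mem_filter]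
      refine ⟨Finset.mem_univ _, fun h0 => hj.2 ?_⟩
      unfold act
      rw [h0, mul_zero]
  · intro B hB i
    have h1 := hact (P.1.symm i)
    rw [Equiv.apply_symm_apply] at h1
    rw [h1, abs_mul, Int.abs_eq_natAbs, Int.units_natAbs]
    simpa using hB _

end Pool.Agent.helper43.BMH
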