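import Pool.Agent.helper43.BMH.Spec

set_option autoImplicit false

namespace Pool.Agent.helper43.BMH

theorem RTE_fr {ι G : Type} [Fintype ι] [AddCommGroup G] [DecidableEq G] (f : ι → G) (g : G)
    (b : ι → ℝ) (hb : ∀ j, (if f j = g then (1 : ℝ) else 0) + (if f j = -g then (1 : ℝ) else 0) =
      b j) : fr f g = (∑ j, b j) / (2 * (Fintype.card ι : ℝ)) := by
  unfold fr
  congr 1
  rw [← Finset.sum_boole, ← Finset.sum_boole, ← Finset.sum_add_distrib]
  exact Finset.sum_congr rfl fun j _ => hb j

theorem t_rte : RTE := by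
  intro ι _ _ _ x y h1 h2
  set n : ℝ := (Fintype.card ι : ℝ) with hn
  have hn0 : 0 < n := by rw [hn]; exact_mod_cast Fintype.card_pos
  set S : ℝ := ((Finset.univ.filter fun i => x i = y i).card : ℝ) with hS
  set T : ℝ := n - S with hT
  have hS0 : 0 < S := by linarith
  have hT0 : 0 < T := by linarith
  have sS : ∑ j, (if x j = y j then (1 : ℝ) else 0) = S := by rw [Finset.sum_boole]
  have sT : ∑ j, (if x j = y j then (0 : ℝ) else 1) = T := by
    have : ∀ j, (if x j = y j then (0 : ℝ) else 1) = 1 - (if x j = y j then (1 : ℝ) else 0) := by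
      intro j; split_ifs <;> norm_num
    simp only [this]
    rw [Finset.sum_sub_distrib, sS, Finset.sum_const, Finset.card_univ, nsmul_eq_mul, mul_one]
  have s2S : ∑ j, (if x j = y j then (2 : ℝ) else 0) = 2 * S := by
    rw [← sS, Finset.mul_sum]
    refine Finset.sum_congr rfl fun j _ => ?_
    split_ifs <;> norm_num
  have s2T : ∑ j, (if x j = y j then (0 : ℝ) else 2) = 2 * T := by
    rw [← sT, Finset.mul_sum]
    refine Finset.sum_congr rfl fun j _ => ?_
    split_ifs <;> norm_num
  -- a sum over i of a function of the class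
  have hsum : ∀ a b : ℝ, ∑ i, (if x i = y i then a else b) = S * a + T * b := by
    intro a b
    have : ∀ i, (if x i = y i then a else b) =
        (if x i = y i then (1 : ℝ) else 0) * a + (if x i = y i then (0 : ℝ) else 1) * b := by
      intro i; split_ifs <;> ring
    simp only [this]
    rw [Finset.sum_add_distrib, ← Finset.sum_mul, ← Finset.sum_mul, sS, sT]
  have u1 : ∀ a : ℤˣ, a = 1 ∨ a = -1 := Int.units_eq_one_or
  -- the three entropies
  have e1 : ent (fun i => if x i = y i then ((x i : ℤˣ) : ℤ) else 0) =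
      -(S * Real.log (S / (2 * n)) + T * Real.log (2 * T / (2 * n))) / n := by
    unfold ent
    rw [← hsum]
    congr 2
    refine Finset.sum_congr rfl fun i _ => ?_
    beta_reduce
    by_cases hi : x i = y i
    · rw [if_pos hi, if_pos hi, RTE_fr _ _ (fun j => if x j = y j then (1 : ℝ) else 0), sS]
      intro j
      rcases u1 (x i) with a | a <;> rcases u1 (x j) with b | b <;> rcases u1 (y j) with c | c <;>
        simp [a, b, c]
    · rw [if_neg hi, if_neg hi, RTE_fr _ _ (fun j => if x j = y j then (0 : ℝ) else 2), s2T]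
      intro j
      rcases u1 (x j) with b | b <;> rcases u1 (y j) with c | c <;>
        simp [b, c] <;> norm_num
  have e2 : ent (fun i => if x i = y i then 0 else ((x i : ℤˣ) : ℤ)) =
      -(S * Real.log (2 * S / (2 * n)) + T * Real.log (T / (2 * n))) / n := by
    unfold ent
    rw [← hsum]
    congr 2
    refine Finset.sum_congr rfl fun i _ => ?_
    beta_reduce
    by_cases hi : x i = y i
    · rw [if_pos hi, if_pos hi, RTE_fr _ _ (fun j => if x j = y j then (2 : ℝ) else 0), s2S]
      intro j
      rcases u1 (x j) with b | b <;> rcases u1 (y j) with c | c <;>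
        simp [b, c] <;> norm_num
    · rw [if_neg hi, if_neg hi, RTE_fr _ _ (fun j => if x j = y j then (0 : ℝ) else 1), sT]
      intro j
      rcases u1 (x i) with a | a <;> rcases u1 (x j) with b | b <;> rcases u1 (y j) with c | c <;>
        simp [a, b, c]
  have e3 : ent (fun i => (((x i : ℤˣ) : ℤ), ((y i : ℤˣ) : ℤ))) =
      -(S * Real.log (S / (2 * n)) + T * Real.log (T / (2 * n))) / n := by
    unfold ent
    rw [← hsum]
    congr 2
    refine Finset.sum_congr rfl fun i _ => ?_
    beta_reduce
    by_cases hi : x i = y i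
    · rw [if_pos hi, RTE_fr _ _ (fun j => if x j = y j then (1 : ℝ) else 0), sS]
      intro j
      rcases u1 (x i) with a | a <;> rcases u1 (x j) with b | b <;> rcases u1 (y j) with c | c <;>
        simp [a, b, c, ← hi]
    · rw [if_neg hi, RTE_fr _ _ (fun j => if x j = y j then (0 : ℝ) else 1), sT]
      intro j
      rcases u1 (x i) with a | a <;> rcases u1 (y i) with a' | a' <;>
        rcases u1 (x j) with b | b <;> rcases u1 (y j) with c | c <;>
        simp [a, a', b, c] <;> simp [a, a'] at hi
  -- logarithms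
  set κ : ℝ := S / n with hκ
  set τ : ℝ := T / n with hτ
  have hκ0 : 0 < κ := by positivity
  have hτ0 : 0 < τ := by positivity
  have hκτ : κ + τ = 1 := by rw [hκ, hτ, hT]; field_simp; ring
  have hl2 : 0 < Real.log 2 := Real.log_pos (by norm_num)
  have l1 : Real.log (S / (2 * n)) = Real.log κ - Real.log 2 := by
    rw [← Real.log_div hκ0.ne' (by norm_num), hκ]; congr 1; field_simp
  have l2 : Real.log (T / (2 * n)) = Real.log τ - Real.log 2 := by
    rw [← Real.log_div hτ0.ne' (by norm_num), hτ]; congr 1; field_simp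
  have l3 : Real.log (2 * S / (2 * n)) = Real.log κ := by
    rw [hκ]; congr 1; field_simp
  have l4 : Real.log (2 * T / (2 * n)) = Real.log τ := by
    rw [hτ]; congr 1; field_simp
  have q1 : S = κ * n := by rw [hκ]; field_simp
  have q2 : T = τ * n := by rw [hτ]; field_simp
  have r1 : -(S * Real.log (S / (2 * n)) + T * Real.log (2 * T / (2 * n))) / n =
      -(κ * (Real.log κ - Real.log 2) + τ * Real.log τ) := by
    rw [l1, l4, q1, q2]; field_simp
  have r2 : -(S * Real.log (2 * S / (2 * n)) + T * Real.log (T / (2 * n))) / n =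
      -(κ * Real.log κ + τ * (Real.log τ - Real.log 2)) := by
    rw [l3, l2, q1, q2]; field_simp
  have r3 : -(S * Real.log (S / (2 * n)) + T * Real.log (T / (2 * n))) / n =
      -(κ * (Real.log κ - Real.log 2) + τ * (Real.log τ - Real.log 2)) := by
    rw [l1, l2, q1, q2]; field_simp
  rw [e1, e2, e3, r1, r2, r3]
  have k1 : Real.log κ ≤ κ - 1 := Real.log_le_sub_one_of_pos hκ0
  have k2 : Real.log τ ≤ τ - 1 := Real.log_le_sub_one_of_pos hτ0
  have k3 : κ * Real.log κ ≤ κ * (κ - 1) := mul_le_mul_of_nonneg_left k1 hκ0.le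
  have k4 : τ * Real.log τ ≤ τ * (τ - 1) := mul_le_mul_of_nonneg_left k2 hτ0.le
  have k5 : 1 / 4 ≤ κ := by rw [hκ, le_div_iff₀ hn0]; linarith
  have k6 : κ ≤ 3 / 4 := by rw [hκ, div_le_iff₀ hn0]; linarith
  have k7 : 3 / 16 ≤ κ * τ := by
    have : τ = 1 - κ := by linarith
    rw [this]
    nlinarith
  have k8 : Real.log 2 < 0.7 := by have := Real.log_two_lt_d9; linarith
  have k9 : τ = 1 - κ := by linarith
  have k10 : κ * Real.log 2 + τ * Real.log 2 = Real.log 2 := by rw [← add_mul, hκτ, one_mul]
  have k11 : κ * Real.log κ + τ * Real.log τ ≤ -(3 / 8) := by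
    have a1 : κ * (κ - 1) = -(κ * τ) := by rw [k9]; ring
    have a2 : τ * (τ - 1) = -(κ * τ) := by rw [k9]; ring
    linarith
  linarith

end Pool.Agent.helper43.BMH
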