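import Pool.Agent.helper43.BMH.Spec

set_option autoImplicit false

namespace Pool.Agent.helper43.BMH

theorem t_rtm (he : EXH) (ht : TYS) (hr : RTE) : RTM := by
  intro ι _ _ _ N hN0 hN hNr
  set n : ℝ := (Fintype.card ι : ℝ) with hn
  have hn0 : 0 < n := by rw [hn]; exact_mod_cast Fintype.card_pos
  set W : (ι → ℤˣ) × (ι → ℤˣ) → (ι → ℤ × ℤ) := fun p i =>
    (((p.1 i : ℤˣ) : ℤ), ((p.2 i : ℤˣ) : ℤ)) with hW
  have hunit : ∀ a : ℤˣ, |((a : ℤˣ) : ℤ)| ≤ 1 := by
    intro a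
    rcases Int.units_eq_one_or a with h | h <;> rw [h] <;> simp
  have hpt : ∀ p : (ι → ℤˣ) × (ι → ℤˣ),
      N (fun i => if p.1 i = p.2 i then ((p.1 i : ℤˣ) : ℤ) else 0) *
      N (fun i => if p.1 i = p.2 i then 0 else ((p.1 i : ℤˣ) : ℤ)) ≤
      Real.exp (-n / 10) * ∏ i, fr (W p) (W p i) := by
    rintro ⟨x, y⟩
    simp only
    have hb1 : ∀ i, |(if x i = y i then ((x i : ℤˣ) : ℤ) else 0)| ≤ 1 := by
      intro i
      split_ifs
      · exact hunit _
      · simp
    have hb2 : ∀ i, |(if x i = y i then 0 else ((x i : ℤˣ) : ℤ))| ≤ 1 := by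
      intro i
      split_ifs
      · simp
      · exact hunit _
    have hprod : 0 ≤ ∏ i, fr (W (x, y)) (W (x, y) i) :=
      Finset.prod_nonneg fun i _ => ((he ι (ℤ × ℤ) (W (x, y))).2.2.1 i).le
    by_cases h0 : N (fun i => if x i = y i then ((x i : ℤˣ) : ℤ) else 0) = 0
    · rw [h0, zero_mul]
      exact mul_nonneg (Real.exp_pos _).le hprod
    · obtain ⟨r1, r2⟩ := hNr _ hb1 h0
      have hs : spt (fun i => if x i = y i then ((x i : ℤˣ) : ℤ) else 0) =
          (Finset.univ.filter fun i => x i = y i).card := by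
        unfold spt
        congr 1
        ext i
        simp only [Finset.mem_filter, Finset.mem_univ, true_and]
        by_cases hi : x i = y i
        · rw [if_pos hi]
          exact ⟨fun _ => hi, fun _ => Units.ne_zero _⟩
        · rw [if_neg hi]
          exact ⟨fun h => absurd rfl h, fun h => absurd h hi⟩
      rw [hs] at r1 r2
      have hrte := hr ι x y r1 r2
      have n1 := hN _ hb1
      have n2 := hN _ hb2
      rw [← (he ι (ℤ × ℤ) (W (x, y))).1, ← Real.exp_add]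
      refine (mul_le_mul n1 n2 (hN0 _) (Real.exp_pos _).le).trans ?_
      rw [← Real.exp_add]
      apply Real.exp_le_exp.2
      have hW' : ent (W (x, y)) = ent (fun i => (((x i : ℤˣ) : ℤ), ((y i : ℤˣ) : ℤ))) := rfl
      rw [← hn, hW']
      nlinarith [mul_le_mul_of_nonneg_left hrte hn0.le]
  have hsum : ∑ x : ι → ℤˣ, ∑ y : ι → ℤˣ,
      N (fun i => if x i = y i then ((x i : ℤˣ) : ℤ) else 0) *
      N (fun i => if x i = y i then 0 else ((x i : ℤˣ) : ℤ)) =
      ∑ p : (ι → ℤˣ) × (ι → ℤˣ),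
      N (fun i => if p.1 i = p.2 i then ((p.1 i : ℤˣ) : ℤ) else 0) *
      N (fun i => if p.1 i = p.2 i then 0 else ((p.1 i : ℤˣ) : ℤ)) := by
    rw [Fintype.sum_prod_type]
  rw [hsum]
  have hcount : ∑ p : (ι → ℤˣ) × (ι → ℤˣ), ∏ i, fr (W p) (W p i) ≤ (2 * n + 1) ^ 4 := by
    set A : Finset (ℤ × ℤ) := ({-1, 1} : Finset ℤ) ×ˢ ({-1, 1} : Finset ℤ) with hA
    have hAcard : A.card = 4 := by rw [hA]; decide
    have h4 := ht ι (ℤ × ℤ) A
    rw [hAcard] at h4
    refine le_trans ?_ h4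
    have hinj : Function.Injective W := by
      rintro ⟨x, y⟩ ⟨x', y'⟩ h
      have h1 : ∀ i, x i = x' i := fun i => Units.ext (congrArg Prod.fst (congrFun h i))
      have h2 : ∀ i, y i = y' i := fun i => Units.ext (congrArg Prod.snd (congrFun h i))
      rw [Prod.mk.injEq]
      exact ⟨funext h1, funext h2⟩
    have e1 : ∑ p : (ι → ℤˣ) × (ι → ℤˣ), ∏ i, fr (W p) (W p i) =
        ∑ f ∈ Finset.univ.image W, ∏ i, fr f (f i) := by
      rw [Finset.sum_image fun a _ b _ h => hinj h]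
    rw [e1]
    refine Finset.sum_le_sum_of_subset_of_nonneg ?_ ?_
    · intro f hf
      obtain ⟨p, _, rfl⟩ := Finset.mem_image.1 hf
      rw [Fintype.mem_piFinset]
      intro i
      rw [hA, Finset.mem_product]
      constructor
      · rcases Int.units_eq_one_or (p.1 i) with h | h <;> simp [hW, h]
      · rcases Int.units_eq_one_or (p.2 i) with h | h <;> simp [hW, h]
    · intro f _ _
      exact Finset.prod_nonneg fun i _ => ((he ι (ℤ × ℤ) f).2.2.1 i).le
  calc _ ≤ ∑ p : (ι → ℤˣ) × (ι → ℤˣ), Real.exp (-n / 10) * ∏ i, fr (W p) (W p i) :=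
        Finset.sum_le_sum fun p _ => hpt p
    _ = Real.exp (-n / 10) * ∑ p : (ι → ℤˣ) × (ι → ℤˣ), ∏ i, fr (W p) (W p i) :=
        (Finset.mul_sum _ _ _).symm
    _ ≤ Real.exp (-n / 10) * (2 * n + 1) ^ 4 :=
        mul_le_mul_of_nonneg_left hcount (Real.exp_pos _).le
    _ = _ := by ring

end Pool.Agent.helper43.BMH
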