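import Pool.Agent.helper43.BMH.Spec

set_option autoImplicit false

namespace Pool.Agent.helper43.BMH

theorem t_stu (he : EXH) (ht : TYS) (ho : ORB) (ha : AVG) (hi : ENI) : STU := by
  intro ι _ _ _ B z N κ β η hκ hz hspt hN0 hN
  set n : ℝ := (Fintype.card ι : ℝ) with hn
  have hn0 : 0 < n := by rw [hn]; exact_mod_cast Fintype.card_pos
  have hcard2 : (Fintype.card (ι ⊕ ι) : ℝ) = 2 * n := by
    rw [Fintype.card_sum]; push_cast; ring
  set P : (ι ⊕ ι → ℤ) → (ι → ℤ) := fun u i => u (Sum.inl i) + u (Sum.inr i) with hP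
  set M : (ι ⊕ ι → ℤ) → (ι → ℤ) := fun u i => u (Sum.inl i) - u (Sum.inr i) with hM
  set W : (ι ⊕ ι → ℤ) → (ι → ℤ × ℤ) := fun u i => (u (Sum.inl i), u (Sum.inr i)) with hW
  have h1 := ha (ι ⊕ ι) B z (fun u => N (P u) * N (M u))
    (fun u => mul_nonneg (hN0 _) (hN0 _)) hz
  rw [hcard2] at h1
  set c : ℝ := κ ^ 2 / 40960 with hc
  -- pointwise
  have h2 : ∀ u ∈ orb z, N (P u) * N (M u) ≤
      Real.exp (2 * n * ent z) * (∏ i, fr (W u) (W u i)) *
        Real.exp (-(2 * n) * (9 / 10 * ent z + c - β - η)) := by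
    intro u hu
    obtain ⟨e1, e2, e3⟩ := ho (ι ⊕ ι) z u hu
    have e3' := e3 B hz
    have hb1 : ∀ i, |P u i| ≤ (2 * B : ℤ) := by
      intro i
      have a1 := e3' (Sum.inl i)
      have a2 := e3' (Sum.inr i)
      have := abs_add_le (u (Sum.inl i)) (u (Sum.inr i))
      simp only [hP]
      linarith
    have hb2 : ∀ i, |M u i| ≤ (2 * B : ℤ) := by
      intro i
      have a1 := e3' (Sum.inl i)
      have a2 := e3' (Sum.inr i)
      have := abs_sub (u (Sum.inl i)) (u (Sum.inr i))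
      simp only [hM]
      linarith
    have n1 := hN (P u) hb1
    have n2 := hN (M u) hb2
    obtain ⟨f1, f2, f3⟩ := hi ι u
    rw [e1] at f1 f3
    rw [e2] at f3
    have hk : κ ^ 2 ≤ ((spt z : ℝ) / (2 * n)) ^ 2 := by
      apply pow_le_pow_left₀ hκ.le
      rw [le_div_iff₀ (by positivity)]
      exact hspt
    have ex := (he ι (ℤ × ℤ) (W u)).1
    rw [← ex]
    calc N (P u) * N (M u) ≤ Real.exp (-n * (9 / 10 * ent (P u) - β - η)) *
          Real.exp (-n * (9 / 10 * ent (M u) - β - η)) :=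
          mul_le_mul n1 n2 (hN0 _) (Real.exp_pos _).le
      _ = Real.exp (-n * (9 / 10 * ent (P u) - β - η) + -n * (9 / 10 * ent (M u) - β - η)) :=
          (Real.exp_add _ _).symm
      _ ≤ Real.exp (2 * n * ent z + -n * ent (W u) + -(2 * n) * (9 / 10 * ent z + c - β - η)) := by
          apply Real.exp_le_exp.2
          have key : ent (W u) + 9 / 5 * ent z + 2 * c ≤
              2 * ent z + 9 / 10 * (ent (P u) + ent (M u)) := by
            have g1 : ent (W u) ≤ 2 * ent z := f1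
            have g2 : ent (W u) ≤ ent (P u) + ent (M u) := f2
            have g3 : ((spt z : ℝ) / (2 * n)) ^ 2 / 2048 ≤
              2 * ent z + ent (P u) + ent (M u) - 2 * ent (W u) := f3
            have g4 : 2 * c = κ ^ 2 / 20480 := by rw [hc]; ring
            rw [g4]
            linarith
          nlinarith [mul_le_mul_of_nonneg_left key hn0.le]
      _ = _ := by rw [Real.exp_add, Real.exp_add]
  -- the sum over types
  have h3 : ∑ u ∈ orb z, ∏ i, fr (W u) (W u i) ≤ (2 * n + 1) ^ ((2 * B + 1) ^ 2) := by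
    set A : Finset (ℤ × ℤ) := Finset.Icc (-(B : ℤ)) B ×ˢ Finset.Icc (-(B : ℤ)) B with hA
    have hAcard : A.card = (2 * B + 1) ^ 2 := by
      rw [hA, Finset.card_product, Int.card_Icc]
      have : ((B : ℤ) + 1 - -(B : ℤ)).toNat = 2 * B + 1 := by omega
      rw [this]; ring
    have h4 := ht ι (ℤ × ℤ) A
    rw [hAcard] at h4
    refine le_trans ?_ h4
    have hinj : Function.Injective W := by
      intro u v huv
      funext j
      rcases j with i | i
      · have := congrArg Prod.fst (congrFun huv i)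
        exact this
      · have := congrArg Prod.snd (congrFun huv i)
        exact this
    have e1 : ∑ u ∈ orb z, ∏ i, fr (W u) (W u i) =
        ∑ f ∈ (orb z).image W, ∏ i, fr f (f i) := by
      rw [Finset.sum_image fun a _ b _ h => hinj h]
    rw [e1]
    refine Finset.sum_le_sum_of_subset_of_nonneg ?_ ?_
    · intro f hf
      obtain ⟨u, hu, rfl⟩ := Finset.mem_image.1 hf
      have e3' := (ho (ι ⊕ ι) z u hu).2.2 B hz
      rw [Fintype.mem_piFinset]
      intro i
      have a1 := abs_le.1 (e3' (Sum.inl i))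
      have a2 := abs_le.1 (e3' (Sum.inr i))
      rw [hA, Finset.mem_product, Finset.mem_Icc, Finset.mem_Icc]
      exact ⟨a1, a2⟩
    · intro f _ _
      exact Finset.prod_nonneg fun i _ => ((he ι (ℤ × ℤ) f).2.2.1 i).le
  -- assemble
  have hexp : Real.exp (-(2 * n) * ent z) * Real.exp (2 * n * ent z) = 1 := by
    rw [← Real.exp_add]
    have : -(2 * n) * ent z + 2 * n * ent z = 0 := by ring
    rw [this, Real.exp_zero]
  have hSP : (0 : ℝ) ≤ (Fintype.card (SP (ι ⊕ ι)) : ℝ) := Nat.cast_nonneg _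
  have hpoly : (0 : ℝ) ≤ (Real.exp 1 * (2 * n)) ^ (B + 1) := by positivity
  calc ∑ Q : SP (ι ⊕ ι), N (P (act Q z)) * N (M (act Q z)) ≤ _ := h1
    _ ≤ (Fintype.card (SP (ι ⊕ ι)) : ℝ) * (Real.exp 1 * (2 * n)) ^ (B + 1) *
        Real.exp (-(2 * n) * ent z) * ∑ u ∈ orb z, (Real.exp (2 * n * ent z) *
          (∏ i, fr (W u) (W u i)) * Real.exp (-(2 * n) * (9 / 10 * ent z + c - β - η))) :=
        mul_le_mul_of_nonneg_left (Finset.sum_le_sum h2) (by positivity)
    _ = (Fintype.card (SP (ι ⊕ ι)) : ℝ) * (Real.exp 1 * (2 * n)) ^ (B + 1) *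
        (∑ u ∈ orb z, ∏ i, fr (W u) (W u i)) *
          Real.exp (-(2 * n) * (9 / 10 * ent z + c - β - η)) := by
        rw [← Finset.sum_mul, ← Finset.mul_sum]
        calc _ = (Fintype.card (SP (ι ⊕ ι)) : ℝ) * (Real.exp 1 * (2 * n)) ^ (B + 1) *
              (Real.exp (-(2 * n) * ent z) * Real.exp (2 * n * ent z)) *
              (∑ u ∈ orb z, ∏ i, fr (W u) (W u i)) *
              Real.exp (-(2 * n) * (9 / 10 * ent z + c - β - η)) := by ring
          _ = _ := by rw [hexp, mul_one]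
    _ ≤ (Fintype.card (SP (ι ⊕ ι)) : ℝ) * (Real.exp 1 * (2 * n)) ^ (B + 1) *
        ((2 * n + 1) ^ ((2 * B + 1) ^ 2)) *
          Real.exp (-(2 * n) * (9 / 10 * ent z + c - β - η)) := by
        apply mul_le_mul_of_nonneg_right _ (Real.exp_pos _).le
        exact mul_le_mul_of_nonneg_left h3 (by positivity)
    _ = _ := by ring

end Pool.Agent.helper43.BMH
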