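import Pool.Agent.helper43.BMH.Defs

set_option autoImplicit false

/-!
# Rows bmh:* (MP_cef0b4_gt): the Hadamard bound is never asymptotically sharp

Paper proof: /team-store/MP_cef0b4_paper_helper43.md (the numbers (1.0) ... (6.4) below refer to it).
Every row is a Prop; the docstring contains a complete proof and the list of the rows it may
assume as hypotheses (the exact theorem line is in the lock note).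
All index types are in `Type`. `n` denotes `Fintype.card ι`. Logarithms are natural.
-/

namespace Pool.Agent.helper43.BMH

open scoped ENNReal
open Pool.Agent.helper75.BM (nrm N2 L dBM)

/-! ## Block 1: counting integer vectors -/

/-- GEO (short). `∑_{j ∈ S} x^|j| ≤ 1 + 2x/(1-x)`.
Proof. `S ⊆ Icc (-N) N` for some `N : ℕ` (all terms are `≥ 0`), and by induction on `N`
`∑_{j ∈ Icc (-N) N} x^|j| = 1 + 2 ∑_{j=1}^N x^j ≤ 1 + 2x/(1-x)` (geometric sum). Alternative: split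
`S` in `{0}`, positive and negative part, each of the last two has sum `≤ ∑_{j≥1} x^j = x/(1-x)`
(`Summable.sum_le_tsum` or `geom_sum`). -/
def GEO : Prop := ∀ x : ℝ, 0 ≤ x → x < 1 → ∀ S : Finset ℤ,
  ∑ j ∈ S, x ^ j.natAbs ≤ 1 + 2 * x / (1 - x)

/-- CN0 (short), (1.0). Proof. Let `S` be the finite set of all values `u i`, `u ∈ U` (e.g.
`U.biUnion fun u => Finset.univ.image u`). `U ⊆ Fintype.piFinset fun _ => S`, hence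
`c |U| ≤ ∑_{u ∈ U} ∏ w(u_i) ≤ ∑_{u ∈ piFinset} ∏ w (u_i) = ∏_i ∑_{j ∈ S} w j` (`Finset.prod_univ_sum`)
`= (∑_S w)^n ≤ W^n`. -/
def CN0 : Prop := ∀ (ι : Type) [Fintype ι] (w : ℤ → ℝ) (W c : ℝ) (U : Finset (ι → ℤ)),
  (∀ j, 0 ≤ w j) → (∀ S : Finset ℤ, ∑ j ∈ S, w j ≤ W) → (∀ u ∈ U, c ≤ ∏ i, w (u i)) →
    c * (U.card : ℝ) ≤ W ^ Fintype.card ι

/-- CN1 (short-medium), (1.1). `theorem t_cn1 (hg : GEO) (h0 : CN0) : CN1`.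
Proof. Given `η > 0` choose `x ∈ (0,1)` with `2x/(1-x) ≤ η/2` (e.g. `x = (η/2)/(2+η/2)`; then
`2x/(1-x) = η/2`), and `t = -log x > 0`, `ρ = η/(2t)`. If `U = ∅` fine. Otherwise fix `v ∈ U` and let
`U' = U.image (fun u => u - v)` (same cardinality). For `d = u - v`: `∏ x^|d_i| = x^{∑ |d_i|}` and
`∑ |d_i| ≤ ∑ d_i² ≤ ρ n` (`|m| ≤ m²` for integers), so `∏ ≥ exp(-t ρ n) = exp(-(η/2) n)`. CN0 with
`w j = x^|j|`, `W = 1 + η/2 ≤ exp(η/2)` gives `|U| ≤ exp(η/2 n) exp(η/2 n)`. -/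
def CN1 : Prop := ∀ η : ℝ, 0 < η → ∃ ρ : ℝ, 0 < ρ ∧ ∀ (ι : Type) [Fintype ι]
  (U : Finset (ι → ℤ)),
  (∀ u ∈ U, ∀ v ∈ U, ∑ i, ((u i : ℝ) - (v i : ℝ)) ^ 2 ≤ ρ * (Fintype.card ι : ℝ)) →
    (U.card : ℝ) ≤ Real.exp (η * (Fintype.card ι : ℝ))

/-- CN2 (short-medium), (1.2). `theorem t_cn2 (hg : GEO) (h0 : CN0) : CN2`.
Proof. `x = exp(-φ/16)`, choose `t ≥ 1` with `exp(-t) · 2x/(1-x) ≤ φ/4`, `κ = min 1 (φ/(4t))`.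
`w 0 = 1`, `w j = exp(-t) x^|j|` for `j ≠ 0`. `∑_S w ≤ 1 + exp(-t) 2x/(1-x) ≤ 1 + φ/4 ≤ exp(φ/4)`:
the sum over `S \ {0}` is `≤ exp(-t) (∑_{S ∪ {0}} x^|j| - 1)`. For `g ∈ U`:
`∏ w(g_i) = exp(-t)^{spt g} x^{∑|g_i|} ≥ exp(-t κ n) exp(-(φ/16) 4 n) ≥ exp(-(φ/4) n - (φ/4) n)` since
`∑|g_i| ≤ ∑ g_i² ≤ 4n`. CN0: `|U| ≤ exp((3φ/4) n)`. -/
def CN2 : Prop := ∀ φ : ℝ, 0 < φ → ∃ κ : ℝ, 0 < κ ∧ κ ≤ 1 ∧ ∀ (ι : Type) [Fintype ι]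
  (U : Finset (ι → ℤ)),
  (∀ g ∈ U, (spt g : ℝ) ≤ κ * (Fintype.card ι : ℝ) ∧
    ∑ i, (g i : ℝ) ^ 2 ≤ 4 * (Fintype.card ι : ℝ)) →
    (U.card : ℝ) ≤ Real.exp (φ * (Fintype.card ι : ℝ))

/-- POL (short). Polynomials are below exponentials. Proof. `e·2n ≤ 6n+1`, so the left side is `≤ (6n+1)^{a+b}`, and `(6n+1)^{a+b} exp(-η n) → 0`, e.g. `isLittleO_pow_exp_atTop` or
`tendsto_pow_mul_exp_neg_atTop_nhds_zero`. -/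
def POL : Prop := ∀ (a b : ℕ) (η : ℝ), 0 < η → ∃ n₀ : ℕ, ∀ n : ℕ, n₀ ≤ n →
  (Real.exp 1 * (2 * (n : ℝ))) ^ a * (2 * (n : ℝ) + 1) ^ b ≤ Real.exp (η * (n : ℝ))

/-! ## Block 2: types -/

/-- EXH (short). `fr f (f i) ≥ 1/(2n) > 0` (the index `i` itself is counted) and `fr f (f i) ≤ 1`
(each of the two cards is `≤ n`). So `-n · ent f = ∑ log fr`, `exp` of it is the product, and
`ent f ≥ 0` since all logarithms are `≤ 0`. -/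
def EXH : Prop := ∀ (ι G : Type) [Fintype ι] [Nonempty ι] [AddCommGroup G] [DecidableEq G]
  (f : ι → G), Real.exp (-(Fintype.card ι : ℝ) * ent f) = ∏ i, fr f (f i) ∧ 0 ≤ ent f ∧
    (∀ i, 0 < fr f (f i)) ∧ ∀ i, fr f (f i) ≤ 1

/-- TYS (medium), (2.1). Proof. For `f : ι → A` let `τ_f : A → Fin (2n+1)`,
`τ_f(g) = #{f = g} + #{f = -g} ≤ 2n`. Fibre the sum over `τ` (`Finset.sum_fiberwise` or
`Finset.sum_le_card_nsmul` over the image): the number of possible `τ : A → Fin (2n+1)` is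
`(2n+1)^|A|`. For fixed `τ` with non-empty fibre, `∑_{f in the fibre} ∏_i fr f (f i) =
∑ ∏_i τ(f i)/(2n) ≤ ∑_{f ∈ piFinset A} ∏_i τ(f_i)/(2n) = (∑_{g∈A} τ(g)/(2n))^n ≤ 1`, because for an
`f` in the fibre `∑_{g ∈ A} τ(g) = ∑_{g∈A} #{f = g} + ∑_{g∈A} #{f = -g} ≤ n + n` (disjoint sets of
indices; negation is injective). -/
def TYS : Prop := ∀ (ι G : Type) [Fintype ι] [DecidableEq ι] [Nonempty ι] [AddCommGroup G]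
  [DecidableEq G] (A : Finset G),
  ∑ f ∈ Fintype.piFinset (fun _ : ι => A), ∏ i, fr f (f i) ≤
    (2 * (Fintype.card ι : ℝ) + 1) ^ A.card

/-- FAC (medium). Proof. Let `N a = #{i | c i = a}`, `∑ N a = n`. `k! ≤ e k (k/e)^k` for `k ≥ 1`
(induction: `(k+1)! ≤ (k+1) e k (k/e)^k ≤ e (k+1) ((k+1)/e)^{k+1}` because `e ≤ (1+1/k)^{k+1}`, i.e.
`1/(k+1) ≤ log(1+1/k)`), `0! = 1 ≤ e n`, and `n! ≥ (n/e)^n` (`exp n ≥ n^n/n!`,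
`Real.pow_div_factorial_le_exp`). With the convention `0^0 = 1`:
`∏_a (N a)! ≤ (e n)^m ∏_a (N a/e)^{N a} = (e n)^m e^{-n} ∏_a (N a)^{N a}` and
`n! ∏_i (N (c i)/n) = n! ∏_a (N a/n)^{N a} = n! n^{-n} ∏_a (N a)^{N a} ≥ e^{-n} ∏_a (N a)^{N a}`
(`Finset.prod_fiberwise`/`Finset.prod_comp`). -/
def FAC : Prop := ∀ (ι : Type) [Fintype ι] [Nonempty ι] (m : ℕ) (c : ι → Fin m),
  (∏ a : Fin m, (((Finset.univ.filter fun i => c i = a).card.factorial : ℕ) : ℝ)) ≤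
    ((Fintype.card ι).factorial : ℝ) * (Real.exp 1 * (Fintype.card ι : ℝ)) ^ m *
      ∏ i, (((Finset.univ.filter fun j => c j = c i).card : ℝ) / (Fintype.card ι : ℝ))

/-- PRM (short-medium). Proof. If the set is empty fine. Otherwise fix `σ₀` in it; `σ ↦ σ₀⁻¹ σ`
(i.e. `i ↦ σ₀⁻¹ (σ i)`) maps it injectively into `{τ | ∀ i, c (τ i) = c i}`: `c (σ₀⁻¹ (σ i)) =
c' (σ₀ (σ₀⁻¹ (σ i))) = c' (σ i) = c i`. The cardinality of the last set is `∏_a (N a)!`: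
`DomMulAct.stabilizer_card` (or `Equiv.Perm` of a sigma type by hand). -/
def PRM : Prop := ∀ (ι : Type) [Fintype ι] [DecidableEq ι] (m : ℕ) (c c' : ι → Fin m),
  (Finset.univ.filter fun σ : Equiv.Perm ι => ∀ i, c' (σ i) = c i).card ≤
    ∏ a : Fin m, (Finset.univ.filter fun i => c i = a).card.factorial

/-- TY2 (medium), (2.2). `theorem t_ty2 (he : EXH) (hf : FAC) (hp : PRM) : TY2`.
Proof. `act P z = u` means `u (σ i) = s_i z_i` for all `i` (`P = (σ, s)`), so `|u (σ i)| = |z_i|`.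
If there is no such `P` fine; otherwise also `|u| ≤ B`. Colours `c i = |z i|`, `c' i = |u i|` in
`Fin (B+1)`. The number of `σ` is `≤ ∏_a (N a)!` by PRM; for each `σ` the number of `s : ι → ℤˣ` with
`s_i z_i = u (σ i)` for all `i` is `≤ 2^{N 0}` (`s_i` is determined when `z_i ≠ 0`;
`Fintype.card_piFinset`/`Finset.card_le`...). `|SP ι| = n! 2^n`. For `z_i ≠ 0`:
`fr z (z i) = N(c i)/(2n)` (`#{z = z_i} + #{z = -z_i} = #{|z| = |z_i|}`, disjoint), for `z_i = 0`: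
`fr z 0 = N 0/n`. So `exp(-n ent z) = ∏ fr z (z i) = 2^{-(n - N 0)} ∏_i N(c i)/n` and the claim is
FAC times `2^{N 0}`. -/
def TY2 : Prop := ∀ (ι : Type) [Fintype ι] [DecidableEq ι] [Nonempty ι] (B : ℕ) (z u : ι → ℤ),
  (∀ i, |z i| ≤ (B : ℤ)) →
    ((Finset.univ.filter fun P : SP ι => act P z = u).card : ℝ) ≤
      (Fintype.card (SP ι) : ℝ) * (Real.exp 1 * (Fintype.card ι : ℝ)) ^ (B + 1) *
        Real.exp (-(Fintype.card ι : ℝ) * ent z)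

/-- ORB (short-medium). For `u = act P z`: `u (σ i) = s_i z_i`. `#{u = g} + #{u = -g} =
#{z = g} + #{z = -g}` for every `g` (bijection `i ↦ σ i` between `{z = ±g}` and `{u = ±g}`; for
`g = 0` both are `2 #{= 0}`), so `fr u = fr z`, and `fr z (-g) = fr z g`, so
`∑_j log fr u (u j) = ∑_i log fr z (s_i z_i) = ∑_i log fr z (z_i)`. The rest is clear. -/
def ORB : Prop := ∀ (ι : Type) [Fintype ι] [DecidableEq ι] (z u : ι → ℤ), u ∈ orb z →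
  ent u = ent z ∧ spt u = spt z ∧ ∀ B : ℤ, (∀ i, |z i| ≤ B) → ∀ i, |u i| ≤ B

/-- AVG (short). `theorem t_avg (h : TY2) : AVG`. Proof. `∑_P F (act P z) = ∑_{u ∈ orb z} #{P | act P z
= u} F u` (`Finset.sum_fiberwise_of_maps_to`), and TY2. -/
def AVG : Prop := ∀ (ι : Type) [Fintype ι] [DecidableEq ι] [Nonempty ι] (B : ℕ) (z : ι → ℤ)
  (F : (ι → ℤ) → ℝ), (∀ u, 0 ≤ F u) → (∀ i, |z i| ≤ (B : ℤ)) →
    ∑ P : SP ι, F (act P z) ≤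
      (Fintype.card (SP ι) : ℝ) * (Real.exp 1 * (Fintype.card ι : ℝ)) ^ (B + 1) *
        Real.exp (-(Fintype.card ι : ℝ) * ent z) * ∑ u ∈ orb z, F u

/-! ## Block 3: the entropy inequality -/

/-- GIB (short-medium), Gibbs. Proof. `log (r(X w)/pr X (X w)) ≤ r(X w)/pr X (X w) - 1`. Sum over `w`
and divide by `|Ω|`: `(1/|Ω|) ∑_w r(X w)/pr X (X w) = ∑_{a ∈ image} r a ≤ 1` (group by the value: the
number of `w` with `X w = a` is `|Ω| pr X a`). -/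
def GIB : Prop := ∀ (Ω α : Type) [Fintype Ω] [Nonempty Ω] [DecidableEq α] (X : Ω → α)
  (r : α → ℝ), (∀ w, 0 < r (X w)) → (∑ a ∈ Finset.univ.image X, r a ≤ 1) →
    Ent X ≤ -(∑ w, Real.log (r (X w))) / (Fintype.card Ω : ℝ)

/-- PIN (medium), (3.1). Also the mutual information is `≥ 0`.
Proof. `S = image (X,Y) ⊆ SX × SY`, `SX = image X`, `SY = image Y`. `P(a,b) = pr (X,Y) (a,b)`,
`Q(a,b) = pr X a · pr Y b`; both have total mass `1` on `SX ×ˢ SY`, and `P > 0 ⇒ Q > 0`.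
`MI X Y = (1/|Ω|) ∑_w log (P/Q)(X w,Y w) = ∑_{S} P log(P/Q)`
`= -2 ∑_S P log √(Q/P) ≥ -2 ∑_S P (√(Q/P) - 1) = 2 - 2 ∑_S √(PQ) = 2 - 2 ∑_{SX×SY} √(PQ)
= ∑ (√P - √Q)² =: h ≥ 0`. The left side is `|∑ (P - Q)(a,b) f(a) g(b)| ≤ ∑ |P - Q|
= ∑ |√P - √Q| (√P + √Q) ≤ √h · √(∑ (√P+√Q)²)` (Cauchy-Schwarz) and
`∑ (√P+√Q)² ≤ 2 ∑ (P + Q) = 4`. So it is `≤ 2 √h ≤ 2 √(MI)`. -/
def PIN : Prop := ∀ (Ω α β : Type) [Fintype Ω] [Nonempty Ω] [DecidableEq α] [DecidableEq β]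
  (X : Ω → α) (Y : Ω → β), 0 ≤ MI X Y ∧
    ∀ (f : α → ℂ) (g : β → ℂ), (∀ a, ‖f a‖ ≤ 1) → (∀ b, ‖g b‖ ≤ 1) →
      ‖(∑ w, f (X w) * g (Y w)) / (Fintype.card Ω : ℂ) -
        ((∑ w, f (X w)) / (Fintype.card Ω : ℂ)) * ((∑ w, g (Y w)) / (Fintype.card Ω : ℂ))‖ ≤
        2 * Real.sqrt (MI X Y)

/-- CHS (short-medium). `theorem t_chs (h : PIN) : CHS`. Proof. PIN with `f a = exp(i s a)`,
`g b = exp(i t b)`. By the symmetry `e` (`Equiv.sum_comp`) the sums of `sin(s X)`, `sin(t Y)`,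
`sin(sX+tY)` vanish, so the three averages of exponentials are the real averages of cosines. -/
def CHS : Prop := ∀ (Ω : Type) [Fintype Ω] [Nonempty Ω] (X Y : Ω → ℤ) (e : Ω ≃ Ω),
  (∀ w, X (e w) = -X w) → (∀ w, Y (e w) = -Y w) → ∀ s t : ℝ,
    |(∑ w, Real.cos (s * (X w : ℝ) + t * (Y w : ℝ))) / (Fintype.card Ω : ℝ) -
      ch X s * ch Y t| ≤ 2 * Real.sqrt (MI X Y)

/-- DYA (short-medium), the claim in (3.2). Proof. With `m = f a * g a`: the last hypothesis for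
`(a,0)`, `(0,a)` gives `|f' a - m| ≤ ε`, `|g' a - m| ≤ ε` (evenness of `g`); for `(a,a)`, `(a,-a)`:
`|f (2a) - f' a g' a| ≤ ε`, `|g (2a) - f' a g' a| ≤ ε` (evenness of `g'`). As `|f' g' - m²| ≤
|f'-m||g'| + |m||g'-m| ≤ 2ε`: `|f(2a) - m²| ≤ 3ε`, `|g(2a) - m²| ≤ 3ε` (**). Induction on `r` for
all `t`, `k`. `r = 0`: values `1`. Step: `2^r (2t) = 2πk`, so `f(2t) ≥ 1-4ε` and by (**)
`m(t)² ≥ 1-7ε ≥ (1-4ε)²` (as `ε ≤ 1/16`), so `|m| ≥ 1-4ε`, and `|f t| ≥ |m|`, `|g t| ≥ |m|`. By (**) at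
`t/2`: `f t ≥ -3ε`, `g t ≥ -3ε`. Since `1-4ε ≥ 3/4 > 3ε` the sign is `+`. -/
def DYA : Prop := ∀ (f g f' g' : ℝ → ℝ) (ε : ℝ), 0 ≤ ε → ε ≤ 1 / 16 →
  (∀ t, |f t| ≤ 1) → (∀ t, |g t| ≤ 1) → (∀ t, |f' t| ≤ 1) → (∀ t, |g' t| ≤ 1) →
  (∀ t, g (-t) = g t) → (∀ t, g' (-t) = g' t) →
  f' 0 = 1 → g' 0 = 1 → (∀ k : ℤ, f (2 * Real.pi * k) = 1 ∧ g (2 * Real.pi * k) = 1) →
  (∀ a b, |f (a + b) * g (a - b) - f' a * g' b| ≤ ε) →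
  ∀ (r : ℕ) (t : ℝ) (k : ℤ), 2 ^ r * t = 2 * Real.pi * k → 1 - 4 * ε ≤ f t ∧ 1 - 4 * ε ≤ g t

/-- RTS (short-medium). Averages of roots of unity: for `|x| < 2^r` the sum of `cos(2π j x/2^r)` over
`j < 2^r` is `2^r` if `x = 0` and `0` otherwise. Proof. For `x ≠ 0`, `ζ = exp(2π i x/2^r) ≠ 1` (as
`x/2^r` is not an integer, `Complex.exp_eq_one_iff`), `ζ^{2^r} = 1`, geometric sum `= 0`, real part. -/
def RTS : Prop := ∀ (r : ℕ) (x : ℤ), |x| < 2 ^ r →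
  ∑ j ∈ Finset.range (2 ^ r), Real.cos (2 * Real.pi * j / 2 ^ r * (x : ℝ)) =
    if x = 0 then (2 : ℝ) ^ r else 0

/-- FOU (medium), (3.2). `theorem t_fou (hp : PIN) (hc : CHS) (hd : DYA) (hr : RTS) : FOU`.
Proof. `ε = 2√I + 2√I'`, `I = MI X Y`, `I' = MI (X+Y) (X-Y)`. If `ε > 1/16` the right side is
`16 ε > 1 ≥` left side. Otherwise DYA for `f = ch X`, `g = ch Y`, `f' = ch (X+Y)`, `g' = ch (X-Y)`: bounded
by 1, even, `1` at `0`, `1` at `2πk` (`cos (2πk x) = 1`), and for all `a b`, with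
`J = (∑_w cos((a+b) X + (a-b) Y))/|Ω| = (∑_w cos(a (X+Y) + b (X-Y)))/|Ω|`: `|J - f(a+b) g(a-b)| ≤ 2√I`
(CHS), `|J - f' a g' b| ≤ 2√I'` (CHS for `X+Y`, `X-Y`). Choose `r` with `2^r > |X w|, |Y w|` for all `w`,
`t_j = 2πj/2^r`: `2^r t_j = 2π j`, so `f(t_j) ≥ 1-4ε`; the average over `j < 2^r` of `f(t_j)` is
`(1/|Ω|) ∑_w [X w = 0]` by RTS. So `P(X ≠ 0) ≤ 4ε ≤ 16 ε`. Same for `Y` (`g`). -/
def FOU : Prop := ∀ (Ω : Type) [Fintype Ω] [Nonempty Ω] (X Y : Ω → ℤ) (e : Ω ≃ Ω),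
  (∀ w, X (e w) = -X w) → (∀ w, Y (e w) = -Y w) →
    ((Finset.univ.filter fun w => X w ≠ 0).card : ℝ) / (Fintype.card Ω : ℝ) ≤
      32 * (Real.sqrt (MI X Y) + Real.sqrt (MI (fun w => X w + Y w) (fun w => X w - Y w))) ∧
    ((Finset.univ.filter fun w => Y w ≠ 0).card : ℝ) / (Fintype.card Ω : ℝ) ≤
      32 * (Real.sqrt (MI X Y) + Real.sqrt (MI (fun w => X w + Y w) (fun w => X w - Y w)))

/-- SYM (short-medium). Proof. For `X (i,s) = s • f i`: `#{w | X w = g} = #{i | f i = g} +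
#{i | -f i = g}` (`s = 1`, `s = -1`), so `pr X g = fr f g`; `fr f (-g) = fr f g`; so
`∑_w log pr X (X w) = 2 ∑_i log fr f (f i)` and `|Ω| = 2n`. -/
def SYM : Prop := ∀ (ι G : Type) [Fintype ι] [Nonempty ι] [AddCommGroup G] [DecidableEq G]
  (f : ι → G), ent f = Ent (fun w : ι × ℤˣ => ((w.2 : ℤˣ) : ℤ) • f w.1) ∧
    ∀ g, fr f g = pr (fun w : ι × ℤˣ => ((w.2 : ℤˣ) : ℤ) • f w.1) g

/-- ENI (medium), (3.3). `theorem t_eni (he : EXH) (hg : GIB) (hp : PIN) (hf : FOU) (hs : SYM) : ENI`.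
Proof. `a i = u (inl i)`, `b i = u (inr i)`. `Ω = ι × ℤˣ`, `X (i,s) = s a_i`, `Y (i,s) = s b_i`,
`e (i,s) = (i,-s)`. By SYM `ent a = Ent X`, `ent b = Ent Y`, `ent (a,b) = Ent (X,Y)` (`s • (a,b) =
(s a, s b)`) `= Ent (X+Y, X-Y)` (the map `(x,y) ↦ (x+y,x-y)` is injective, `pr` does not change),
`ent (a ± b) = Ent (X ± Y)`. (1) `2 ent u ≥ ent a + ent b`: `fr u g = (fr a g + fr b g)/2`, so
`2 ent u = -(1/n) ∑_i log fr u (a i) - (1/n) ∑_i log fr u (b i)` and by SYM/GIB with `r = fr u`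
(`fr u > 0` at the values, sum over the image of `X` is `≤ 1` because `fr u` is a probability)
`-(1/n) ∑_i log fr u (a i) = -(1/|Ω|) ∑_w log fr u (X w) ≥ Ent X`, same for `b`. So with
`I = MI X Y ≥ 0`, `I' = MI (X+Y) (X-Y) ≥ 0` (PIN): (i) `2 ent u - ent (a,b) ≥ I ≥ 0`, (ii) `ent(a+b) + ent(a-b) -
ent(a,b) = I' ≥ 0`, (iii) the right side is `≥ I + I' ≥ (√I+√I')²/2 ≥ M²/2048`, `M = max(P(X≠0), P(Y≠0))
≥ (P(X≠0)+P(Y≠0))/2 = spt u/(2n)`. -/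
def ENI : Prop := ∀ (ι : Type) [Fintype ι] [Nonempty ι] (u : ι ⊕ ι → ℤ),
  ent (fun i => (u (Sum.inl i), u (Sum.inr i))) ≤ 2 * ent u ∧
  ent (fun i => (u (Sum.inl i), u (Sum.inr i))) ≤
    ent (fun i => u (Sum.inl i) + u (Sum.inr i)) + ent (fun i => u (Sum.inl i) - u (Sum.inr i)) ∧
  ((spt u : ℝ) / (2 * (Fintype.card ι : ℝ))) ^ 2 / 2048 ≤
    2 * ent u + ent (fun i => u (Sum.inl i) + u (Sum.inr i)) +
      ent (fun i => u (Sum.inl i) - u (Sum.inr i)) -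
      2 * ent (fun i => (u (Sum.inl i), u (Sum.inr i)))

/-! ## Block 4: random Hadamard matrices -/

/-- HDN (short). `T Tᵀ = n` implies `Tᵀ T = n` (square matrices, `n ≠ 0`; for `n = 0` trivial), so
`|T v|² = vᵀ Tᵀ T v = n |v|²`. -/
def HDN : Prop := ∀ (ι : Type) [Fintype ι] [DecidableEq ι] (T : Matrix ι ι ℝ), IsHad T →
  T.transpose * T = (Fintype.card ι : ℝ) • (1 : Matrix ι ι ℝ) ∧ IsHad T.transpose ∧
    ∀ v : ι → ℝ, ∑ i, (T.mulVec v i) ^ 2 = (Fintype.card ι : ℝ) * ∑ i, (v i) ^ 2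

/-- ROW (short-medium), (4.1). Proof. `(rowAct P T) y = i ↦ s_i (T y)(σ i)`. The rows of `rowAct P T`
are the rows of `T` permuted, with signs, so again Hadamard: `∑_j s_i T(σ i) j s_k T(σ k) j =
s_i s_k n [σ i = σ k]`. `(s_i (Ty)(σ i)/√n - lam z_i)² = ((Ty)(σ i)/√n - lam s_i z_i)²` and `s_i z_i =
(act P z)(σ i)`; reindex by `σ`. -/
def ROW : Prop := ∀ (ι : Type) [Fintype ι] [DecidableEq ι] (T : Matrix ι ι ℝ) (P : SP ι),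
  (IsHad T → IsHad (rowAct P T)) ∧
    ∀ (lam D : ℝ) (z : ι → ℤ), cnt (rowAct P T) lam D z = cnt T lam D (act P z)

/-- DBL (medium), (4.5). Proof. Hadamard: block multiplication
(`Matrix.fromBlocks_transpose, Matrix.fromBlocks_multiply`). Count: `y ↦ (y ∘ inl, y ∘ inr)` is injective; with
`a = T₁ y₁/√n`, `b = T₂ y₂/√n`, `(dbl T₁ T₂) y/√(2n) = ((a+b)/√2, (a-b)/√2)` and
`((a+b)/√2 - λ u)² + ((a-b)/√2 - λ v)² = (a - (λ/√2)(u+v))² + (b - (λ/√2)(u-v))²` for all reals, so if `y` is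
near `u` then `y₁` is near `u₁+u₂` and `y₂` is near `u₁-u₂`. (`n = 0`: both sides are 1 or 0,
the identity still holds because all sums are empty.) -/
def DBL : Prop := ∀ (ι : Type) [Fintype ι] [DecidableEq ι] (T₁ T₂ : Matrix ι ι ℝ),
  (IsHad T₁ → IsHad T₂ → IsHad (dbl T₁ T₂)) ∧
    ∀ (lam D : ℝ) (u : ι ⊕ ι → ℤ), cnt (dbl T₁ T₂) lam D u ≤
      cnt T₁ (lam / Real.sqrt 2) D (fun i => u (Sum.inl i) + u (Sum.inr i)) *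
      cnt T₂ (lam / Real.sqrt 2) D (fun i => u (Sum.inl i) - u (Sum.inr i))

/-- PAI (short), (4.2). `theorem t_pai (hr : ROW) (ha : AVG) : PAI`. -/
def PAI : Prop := ∀ (ι : Type) [Fintype ι] [DecidableEq ι] [Nonempty ι] (T : Matrix ι ι ℝ)
  (B : ℕ) (z : ι → ℤ) (lam D : ℝ), (∀ i, |z i| ≤ (B : ℤ)) →
    ∑ P : SP ι, (cnt (rowAct P T) lam D z : ℝ) ≤
      (Fintype.card (SP ι) : ℝ) * (Real.exp 1 * (Fintype.card ι : ℝ)) ^ (B + 1) *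
        Real.exp (-(Fintype.card ι : ℝ) * ent z) * ∑ u ∈ orb z, (cnt T lam D u : ℝ)

/-- CPB (short-medium). `theorem t_cpb (h : CN1) : CPB`. Proof. `ρ` from CN1 for `η`, `δ = lam² ρ/4`. Swap:
`∑_{u ∈ U} #{y | near} = ∑_y #{u ∈ U | near}`, there are `2^n` sign vectors `y`. For fixed `y` two such
`u,v` satisfy `lam² ∑ (u_i - v_i)² ≤ 2D + 2D ≤ 4 δ n` (`(a-b)² ≤ 2a²+2b²`), so there are `≤ exp(ηn)`. -/
def CPB : Prop := ∀ lam : ℝ, 0 < lam → ∀ η : ℝ, 0 < η → ∃ δ : ℝ, 0 < δ ∧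
  ∀ (ι : Type) [Fintype ι] (T : Matrix ι ι ℝ) (D : ℝ), D ≤ δ * (Fintype.card ι : ℝ) →
    ∀ U : Finset (ι → ℤ), ∑ u ∈ U, (cnt T lam D u : ℝ) ≤
      2 ^ (Fintype.card ι) * Real.exp (η * (Fintype.card ι : ℝ))

/-- CPS (medium), the count in (4.4). `theorem t_cps (h1 : CN1) (h2 : CN2) (hn : HDN) : CPS`.
Proof. `κ = min (κ₂(φ/2)) (ρ₁(φ/2)/4)` (`κ₂` from CN2, `ρ₁` from CN1), `κ ≤ 1`;
`δ = min (lam² ρ₁(η)/4) (κ/4)`. If `D < 0` there is nothing. Let `(y,u)`, `u ∈ U`, be near. `g_i = round (lam u_i)`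
(`g_i = 0` when `u_i = 0`), `|lam u_i - g_i| ≤ 1/2`, so `|lam u - g|² ≤ κn/4`; so
`|Ty/√n - g|² ≤ 2 D + 2 κ n/4 ≤ κ n` (as `D ≤ κn/4`), `|Ty/√n|² = n` (HDN), so `|g|² ≤ 2n + 2κn ≤ 4n`, and `spt g ≤ spt u ≤ κ n`:
by CN2 there are `≤ exp((φ/2) n)` possible `g`. For given `g` two such `y,y'` satisfy
`|y-y'|² = |T(y-y')/√n|² ≤ 2κn + 2κn = 4κ n ≤ ρ₁(φ/2) n`: by CN1 (for the integer vectors `y`) `≤ exp((φ/2)n)` possible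
`y`. For given `y` two such `u,u'` satisfy `lam²|u-u'|² ≤ 4D ≤ lam² ρ₁(η) n`: `≤ exp(ηn)` possible `u`.
The pairs `(y,u)` inject into triples `(g,y,u)`: use `Finset.card_le_mul_card_image` twice. -/
def CPS : Prop := ∀ φ : ℝ, 0 < φ → ∃ κ : ℝ, 0 < κ ∧ κ ≤ 1 ∧ ∀ lam : ℝ, 0 < lam →
  ∀ η : ℝ, 0 < η → ∃ δ : ℝ, 0 < δ ∧
  ∀ (ι : Type) [Fintype ι] [DecidableEq ι] (T : Matrix ι ι ℝ), IsHad T →
    ∀ D : ℝ, D ≤ δ * (Fintype.card ι : ℝ) → ∀ U : Finset (ι → ℤ),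
      (∀ u ∈ U, (spt u : ℝ) ≤ κ * (Fintype.card ι : ℝ)) →
      ∑ u ∈ U, (cnt T lam D u : ℝ) ≤ Real.exp ((φ + η) * (Fintype.card ι : ℝ))

/-- BAS (short-medium), (4.3). `theorem t_bas (hp : PAI) (hc : CPB) (hl : POL) : BAS`. Proof. PAI, CPB with
`η/2`, `2^n = exp(n log 2)`, POL (`a = B+1`, `b = 0`, `η/2`; `(e n)^{B+1} ≤ (e 2n)^{B+1}`), `n₀ ≥ 1`. -/
def BAS : Prop := ∀ lam : ℝ, 0 < lam → ∀ B : ℕ, ∀ η : ℝ, 0 < η → ∃ δ : ℝ, 0 < δ ∧ ∃ n₀ : ℕ,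
  ∀ (ι : Type) [Fintype ι] [DecidableEq ι] (T : Matrix ι ι ℝ), IsHad T →
    n₀ ≤ Fintype.card ι → ∀ D : ℝ, D ≤ δ * (Fintype.card ι : ℝ) → ∀ z : ι → ℤ,
    (∀ i, |z i| ≤ (B : ℤ)) → ∑ P : SP ι, (cnt (rowAct P T) lam D z : ℝ) ≤
      (Fintype.card (SP ι) : ℝ) *
        Real.exp (-(Fintype.card ι : ℝ) * (ent z - Real.log 2 - η))

/-- SPA (short-medium), (4.4). `theorem t_spa (hp : PAI) (hc : CPS) (ho : ORB) (hl : POL) : SPA`. Proof. PAI and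
CPS (with `η/2`) for `U = orb z` (`spt u = spt z` by ORB), POL with `η/2`. -/
def SPA : Prop := ∀ φ : ℝ, 0 < φ → ∃ κ : ℝ, 0 < κ ∧ κ ≤ 1 ∧ ∀ lam : ℝ, 0 < lam → ∀ B : ℕ,
  ∀ η : ℝ, 0 < η → ∃ δ : ℝ, 0 < δ ∧ ∃ n₀ : ℕ,
  ∀ (ι : Type) [Fintype ι] [DecidableEq ι] (T : Matrix ι ι ℝ), IsHad T →
    n₀ ≤ Fintype.card ι → ∀ D : ℝ, D ≤ δ * (Fintype.card ι : ℝ) → ∀ z : ι → ℤ,
    (∀ i, |z i| ≤ (B : ℤ)) → (spt z : ℝ) ≤ κ * (Fintype.card ι : ℝ) →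
    ∑ P : SP ι, (cnt (rowAct P T) lam D z : ℝ) ≤
      (Fintype.card (SP ι) : ℝ) * Real.exp (-(Fintype.card ι : ℝ) * (ent z - φ - η))

/-- FAM (short-medium). `theorem t_fam (hr : ROW) (hd : DBL) : FAM`. Proof. `|Ω'| = |SP| |Ω|²`,
`cnt (rowAct P (dbl T₁ T₂)) lam D z = cnt (dbl T₁ T₂) lam D (act P z) ≤ product` and the double sum over
`(T₁,T₂)` of the product is the product of the sums. -/
def FAM : Prop := ∀ (Ω ι : Type) [Fintype Ω] [Nonempty Ω] [Fintype ι] [DecidableEq ι]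
  (F : Ω → Matrix ι ι ℝ) (lam D : ℝ) (z : ι ⊕ ι → ℤ),
  avgN (fun w : SP (ι ⊕ ι) × Ω × Ω => rowAct w.1 (dbl (F w.2.1) (F w.2.2))) lam D z ≤
    (∑ P : SP (ι ⊕ ι),
      avgN F (lam / Real.sqrt 2) D (fun i => act P z (Sum.inl i) + act P z (Sum.inr i)) *
      avgN F (lam / Real.sqrt 2) D (fun i => act P z (Sum.inl i) - act P z (Sum.inr i))) /
        (Fintype.card (SP (ι ⊕ ι)) : ℝ)

/-- STU (medium). `theorem t_stu (he : EXH) (ht : TYS) (ho : ORB) (ha : AVG) (hi : ENI) : STU`.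
Proof. AVG on `ι ⊕ ι` (cardinality `2n`) for `F u = N (u₁+u₂) N (u₁-u₂)`: the left side is
`≤ |SP| (e 2n)^{B+1} exp(-2n h) ∑_{u ∈ orb z} F u`, `h = ent z`. For `u ∈ orb z`: `|u| ≤ B`,
`|u₁ ± u₂| ≤ 2B`, `ent u = h`, `spt u = spt z > κ 2n` (ORB), so with `H₊, H₋` the entropies of
`u₁ ± u₂` and `H = ent (u₁,u₂)`: `F u ≤ exp(-n(9/10 (H₊+H₋) - 2β - 2η))` and by ENI
`2h + 9/10 (H₊+H₋) - H - 9/5 h = 9/10 (H₊+H₋-H) + 1/10 (2h-H) ≥ 1/10 (2h+H₊+H₋-2H) ≥ κ²/20480`. So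
`exp(-2nh) F u ≤ exp(-n H) exp(-2n (9/10 h + κ²/40960 - β - η))`, and `∑_{u ∈ orb z} exp(-n H) ≤
∑_{f ∈ piFinset A} ∏ fr f (f i) ≤ (2n+1)^{(2B+1)²}` by EXH and TYS, `A = Icc (-B) B ×ˢ Icc (-B) B` in `ℤ × ℤ`
(`u ↦ (i ↦ (u (inl i), u (inr i)))` is injective). -/
def STU : Prop := ∀ (ι : Type) [Fintype ι] [DecidableEq ι] [Nonempty ι] (B : ℕ)
  (z : ι ⊕ ι → ℤ) (N : (ι → ℤ) → ℝ) (κ β η : ℝ), 0 < κ → (∀ i, |z i| ≤ (B : ℤ)) →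
  κ * (2 * (Fintype.card ι : ℝ)) ≤ (spt z : ℝ) → (∀ v, 0 ≤ N v) →
  (∀ v : ι → ℤ, (∀ i, |v i| ≤ (2 * B : ℤ)) →
    N v ≤ Real.exp (-(Fintype.card ι : ℝ) * (9 / 10 * ent v - β - η))) →
  ∑ P : SP (ι ⊕ ι), N (fun i => act P z (Sum.inl i) + act P z (Sum.inr i)) *
      N (fun i => act P z (Sum.inl i) - act P z (Sum.inr i)) ≤
    (Fintype.card (SP (ι ⊕ ι)) : ℝ) * ((Real.exp 1 * (2 * (Fintype.card ι : ℝ))) ^ (B + 1) *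
      (2 * (Fintype.card ι : ℝ) + 1) ^ ((2 * B + 1) ^ 2)) *
      Real.exp (-(2 * (Fintype.card ι : ℝ)) * (9 / 10 * ent z + κ ^ 2 / 40960 - β - η))

/-- STP (medium), the induction step (4.6).
`theorem t_stp (he : EXH) (hl : POL) (hr : ROW) (hd : DBL) (hs : SPA) (hf : FAM) (hu : STU) : STP`.
Proof. `κ` from SPA for `φ = 1/25`, `c = κ²/40960`. Given `lam, B, η`: Good s β for `(lam/√2, 2B, η/4)` gives
`δ₁, k₁`; SPA for `(lam, B, min η (1/200))` gives `δ₂, n₂`; POL for `a = B+1`, `b = (2B+1)²`, `η/2`... gives `n₃`.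
`δ = min (δ₁/2) δ₂`, `k₀` large (`2^s k ≥ k`). Family `F' = rowAct P (dbl (F w₁) (F w₂))` on `ι ⊕ ι`, all
Hadamard (ROW, DBL), cardinality `2·2^s k`. Let `n = card ι`, `D ≤ δ 2n`. Case `spt z ≤ κ 2n`: SPA for each
`T = dbl (F w₁) (F w₂)` and averaging give `avgN F' ≤ exp(-2n(h - 9/200))` (`1/25 + 1/200 = 9/200`),
and `h ≥ 9/10 h` (`h ≥ 0`, EXH), so `≤ exp(-2n(9/10 h - max(..) - η))`. Otherwise FAM and STU with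
`N = avgN F (lam/√2) D`, `η/4`: `avgN F' ≤ poly · exp(-2n(9/10 h + c - β - η/4))`, `poly ≤ exp(η n)`, so
`≤ exp(-2n(9/10 h - (β - c) - η/4 - η/2))`. -/
def STP : Prop := ∃ c : ℝ, 0 < c ∧ ∀ (s : ℕ) (β : ℝ), Good s β → Good (s + 1) (max (β - c) (9 / 200))

/-- GD0 (short). `theorem t_gd0 (he : EXH) (hr : ROW) (hb : BAS) : GD0`. Proof. `ι = Fin k`, `Ω = SP (Fin k)`,
`F P = rowAct P K`, BAS, and `ent z ≥ 9/10 ent z`. -/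
def GD0 : Prop := Good 0 (Real.log 2)

/-- GAL (short). `theorem t_gal (h0 : GD0) (h : STP) : GAL`. Proof. `Good s β` and `β ≤ β'` imply `Good s β'`.
By induction `Good s (max (log 2 - s c) (9/200))`; take `s` with `log 2 - s c ≤ 9/200`. -/
def GAL : Prop := ∃ s : ℕ, Good s (9 / 200)

/-- RTK (short), the range of `κ` in (4.7). `theorem t_rtk (h : HDN) : RTK`. Proof. `a = Ty/√n`, `|a|² = n` (HDN,
`|y|² = n`), `b = √2 z`, `|b|² = 2 spt z` (`z_i² = [z_i ≠ 0]`), `|a-b|² ≤ n/20`. From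
`|b|² ≤ (5/4)|a|² + 5|a-b|²` (`x² ≤ (5/4) y² + 5 (x-y)²` pointwise): `2 spt z ≤ (5/4) n + n/4 = (3/2) n`, and
`n = |a|² ≤ (5/4) 2 spt z + n/4`, so `spt z ≥ 3n/10`. -/
def RTK : Prop := ∀ (ι : Type) [Fintype ι] [DecidableEq ι] (T : Matrix ι ι ℝ), IsHad T →
  ∀ (D : ℝ) (y : ι → ℤˣ) (z : ι → ℤ), D ≤ (Fintype.card ι : ℝ) / 20 → (∀ i, |z i| ≤ 1) →
    near T (Real.sqrt 2) D y z →
    (Fintype.card ι : ℝ) / 4 ≤ (spt z : ℝ) ∧ (spt z : ℝ) ≤ 3 * (Fintype.card ι : ℝ) / 4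

/-- RTE (medium), the entropies in (4.7). Let `S = {i | x i = y i}`, `κ = |S|/n`, `z₁ = x` on `S`, `0` off `S`,
`z₂ = 0` on `S` and `x` off `S`. Then (`#{z₁ = 1} + #{z₁ = -1} = |S|` etc.) `fr z₁ (z₁ i) = κ/2` on `S`,
`1-κ` off `S`; `fr z₂ = κ` on `S`, `(1-κ)/2` off `S`; `fr (x,y) = κ/2` on `S` (values `±(1,1)`), `(1-κ)/2` off `S`.
So with `h = -κ log κ - (1-κ) log(1-κ)`: `ent z₁ = h + κ log 2`, `ent z₂ = h + (1-κ) log 2`,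
`ent (x,y) = h + log 2`, and `h ≥ κ(1-κ) + (1-κ)κ ≥ 3/8` (`-log t ≥ 1-t`). Claim:
`8/10 h ≥ 1/10 log 2 + 21/100`, true since `3/10 ≥ 0.0694 + 0.21`. -/
def RTE : Prop := ∀ (ι : Type) [Fintype ι] [DecidableEq ι] [Nonempty ι] (x y : ι → ℤˣ),
  (Fintype.card ι : ℝ) / 4 ≤ ((Finset.univ.filter fun i => x i = y i).card : ℝ) →
  ((Finset.univ.filter fun i => x i = y i).card : ℝ) ≤ 3 * (Fintype.card ι : ℝ) / 4 →
  ent (fun i => (((x i : ℤˣ) : ℤ), ((y i : ℤˣ) : ℤ))) + 1 / 10 ≤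
    9 / 10 * (ent (fun i => if x i = y i then ((x i : ℤˣ) : ℤ) else 0) +
      ent (fun i => if x i = y i then 0 else ((x i : ℤˣ) : ℤ))) - 2 * (9 / 200) - 2 / 100

/-- RTM (medium), the sum in (4.7). `theorem t_rtm (he : EXH) (ht : TYS) (hr : RTE) : RTM`. Proof. For `x,y` with
`N z₁ ≠ 0`: `spt z₁ = #{x = y}` is in `[n/4, 3n/4]`, so RTE gives
`N z₁ N z₂ ≤ exp(-n(9/10 (ent z₁ + ent z₂) - 2·9/200 - 2/100)) ≤ exp(-n/10) exp(-n ent (x,y))`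
`= exp(-n/10) ∏ fr (x,y) (..)` (EXH), and the sum over all `(x,y)` of the product is `≤ (2n+1)^4` by TYS with
`A = {-1,1} ×ˢ {-1,1}` in `ℤ × ℤ` (the map `(x,y) ↦ (i ↦ (x i, y i))` is injective). -/
def RTM : Prop := ∀ (ι : Type) [Fintype ι] [DecidableEq ι] [Nonempty ι] (N : (ι → ℤ) → ℝ),
  (∀ v, 0 ≤ N v) →
  (∀ v : ι → ℤ, (∀ i, |v i| ≤ 1) →
    N v ≤ Real.exp (-(Fintype.card ι : ℝ) * (9 / 10 * ent v - 9 / 200 - 1 / 100))) →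
  (∀ v : ι → ℤ, (∀ i, |v i| ≤ 1) → N v ≠ 0 →
    (Fintype.card ι : ℝ) / 4 ≤ (spt v : ℝ) ∧ (spt v : ℝ) ≤ 3 * (Fintype.card ι : ℝ) / 4) →
  ∑ x : ι → ℤˣ, ∑ y : ι → ℤˣ,
    N (fun i => if x i = y i then ((x i : ℤˣ) : ℤ) else 0) *
    N (fun i => if x i = y i then 0 else ((x i : ℤˣ) : ℤ)) ≤
    (2 * (Fintype.card ι : ℝ) + 1) ^ 4 * Real.exp (-(Fintype.card ι : ℝ) / 10)

/-- COR (medium), Theorem E.
`theorem t_cor (hl : POL) (hn : HDN) (hd : DBL) (hg : GAL) (hk : RTK) (hm : RTM) : COR`.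
Proof. `s` from GAL; `Good s (9/200)` for `lam = √2`, `B = 1`, `η = 1/100` gives `δ₁, k₁`; `δ₀ = min δ₁ (1/20)`; family
`F` on `ι`, `n = card ι = 2^s k`, `D = δ₀ n`, `N = avgN F √2 D`. If `N v ≠ 0` some `cnt (F w) √2 D v ≠ 0`, so RTK
applies. RTM: the sum over `x₁,x₂ : ι → ℤˣ` of `N z₁ N z₂` is `≤ (2n+1)^4 exp(-n/10) < 1` for `k` large (POL with
`a = 0, b = 4, η = 1/20`). For `x = (x₁,x₂)`: `(1/√2)(x₁+x₂) = √2 z₁`, `(1/√2)(x₁-x₂) = √2 z₂`, so by DBL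
`cnt (dbl T₁ T₂) 1 D x ≤ cnt T₁ √2 D z₁ · cnt T₂ √2 D z₂`, and averaging over `T₁,T₂ ∈ F` and summing over `x`
gives a number `< 1`; so for some `T₁,T₂` the natural number `∑_x cnt (dbl T₁ T₂) 1 D x` is `0`. `H = dbl T₁ T₂`, on
`ι ⊕ ι`, `d = 2n`: for all sign vectors `D < |H y/√d - x|² = d - 2⟨x,Hy⟩/√d + d` (HDN), so
`⟨x,Hy⟩ < √d (d - D/2) = (1 - δ₀/4) d^{3/2}`. Transport to `Fin (2^(s+1) k)` by an equivalence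
(`Matrix.reindex`). `L = s+1`, `δ = δ₀/4`, `k₀ ≥ 1`. -/
def COR : Prop := ∃ L : ℕ, ∃ δ : ℝ, 0 < δ ∧ ∃ k₀ : ℕ, ∀ k : ℕ, k₀ ≤ k →
  (∃ K : Matrix (Fin k) (Fin k) ℝ, IsHad K) →
    ∃ H : Matrix (Fin (2 ^ L * k)) (Fin (2 ^ L * k)) ℝ, IsHad H ∧
      ∀ x y : Fin (2 ^ L * k) → ℤˣ, ∑ i, sv x i * H.mulVec (sv y) i ≤
        (1 - δ) * ((2 ^ L * k : ℕ) : ℝ) ^ (3 / 2 : ℝ)

/-! ## Block 5: Hadamard orders (`p < 2 < q`, `nrm` is the `ℓ_p` norm of helper75/BM) -/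

/-- HYB (medium), Hausdorff-Young, bilinear form. `theorem t_hyb (h : HDN) : HYB`.
Proof as in `Pool/Agent/helper75/BM/HY.lean` (`FF`, `FF_interp`, `bilin`), for `d × d` matrices. By the triangle
inequality in the signs it suffices to bound `F(1/r)`, where `X_j = |x_j|^r`, `Y_i = |y_i|^r`, `∑X = ∑Y = 1`,
`F(z) = ∑_{i,j} σ_i τ_j H_ij (Y_i : ℂ)^z (X_j : ℂ)^z`, `σ, τ` the signs of `y, x`. `F` is analytic and bounded on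
`1/2 ≤ Re z ≤ 1`; `Re z = 1`: `|F| ≤ ∑ Y_i X_j = 1`; `Re z = 1/2`: with `b_i = σ_i Y_i^z`, `a_j = τ_j X_j^z` complex,
`∑|b_i|² = ∑ Y_i = 1 = ∑ |a_j|²`, `|F| ≤ (∑|b|²)^{1/2} (∑ |(Ha)_i|²)^{1/2} = √d` (real and imaginary part of `a`
with HDN). Three lines (`Complex.HadamardThreeLines`): `|F(1/r)| ≤ (√d)^{2(1-1/r)} = d^{1-1/r}`. -/
def HYB : Prop := ∀ (d : ℕ) (H : Matrix (Fin d) (Fin d) ℝ), IsHad H → ∀ r : ℝ, 1 ≤ r → r ≤ 2 →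
  ∀ x y : Fin d → ℝ, ∑ i, |x i| ^ r = 1 → ∑ i, |y i| ^ r = 1 →
    ∑ i, y i * H.mulVec x i ≤ (d : ℝ) ^ (1 - 1 / r)

/-- HYN (short-medium). `theorem t_hyn (h : HYB) : HYN`. Proof. If `x = 0` or `H x = 0` fine. Scale
`∑|x|^a = 1` and take `y_i = sgn((Hx)_i) |(Hx)_i|^{b-1}/S^{1/a}`, `S = ∑ |(Hx)_i|^b`, `(b-1) a = b`: `∑|y|^a = 1` and
`∑ y_i (Hx)_i = S/S^{1/a} = S^{1/b}`; `1 - 1/a = 1/b`. -/
def HYN : Prop := ∀ (d : ℕ) (H : Matrix (Fin d) (Fin d) ℝ), IsHad H → ∀ a b : ℝ, 1 < a → a ≤ 2 →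
  1 / a + 1 / b = 1 → 1 < b → ∀ x : Fin d → ℝ,
    (∑ i, |H.mulVec x i| ^ b) ^ (1 / b) ≤ (d : ℝ) ^ (1 / b) * (∑ i, |x i| ^ a) ^ (1 / a)

/-- HPQ (medium), (5.1). `theorem t_hpq (h : HYN) : HPQ`. Proof exactly as `hy_B`, `hy_A`, `hy_all` in
`Pool/Agent/helper75/BM/Upper.lean` (there for the matrix `(1,1;1,-1)`): if `1 - 1/p ≤ 1/q`, `q < ∞`: exponents
`b = q`, `a = q' ≥ p`, `nrm_anti`. If `1/q ≤ 1 - 1/p`, `p > 1`: `a = p`, `b = p' ≤ q`. If `p = 1`, `q = ∞`: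
`|(Hx)_i| ≤ ∑|x_j|`. -/
def HPQ : Prop := ∀ (p q : ℝ≥0∞) [Fact (1 ≤ p)] [Fact (1 ≤ q)], p < 2 → 2 < q →
  ∀ (d : ℕ) (H : Matrix (Fin d) (Fin d) ℝ), 0 < d → IsHad H → ∀ x : Fin d → ℝ,
    nrm q (H.mulVec x) ≤ (d : ℝ) ^ (max (1 / q).toReal (1 - (1 / p).toReal)) * nrm p x

/-- QPB (short), (5.2). `theorem t_qpb (h : HDN) : QPB`. Proof. `pm1`, `pm2` of
`Pool/Agent/helper75/BM/Strict.lean` and `e2 (H y) = √d e2 y`; exponents add up. -/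
def QPB : Prop := ∀ (p q : ℝ≥0∞) [Fact (1 ≤ p)] [Fact (1 ≤ q)], p < 2 → 2 < q →
  ∀ (d : ℕ) (H : Matrix (Fin d) (Fin d) ℝ), 0 < d → IsHad H → ∀ y : Fin d → ℝ,
    nrm p (H.mulVec y) ≤ (d : ℝ) ^ ((1 / p).toReal + 1 / 2 - (1 / q).toReal) * nrm q y

/-- HO1 (short-medium), Hoelder. For `1 ≤ p < 2`, `θ = 2/p - 1 ∈ (0,1]`: `|v|_p ≤ |v|_1^θ |v|_2^{1-θ}`. Proof:
`|v_i|^p = |v_i|^{pθ} |v_i|^{p(1-θ)}`, Hoelder with exponents `1/(pθ)` and `2/(p(1-θ))` (`pθ + p(1-θ)/2 = 1`), or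
log-convexity; `p = 1` is trivial (`θ = 1`). The Euclidean norm is `e2 v = √(∑ v_i²)`. -/
def HO1 : Prop := ∀ (p : ℝ≥0∞) [Fact (1 ≤ p)], p < 2 → ∀ (d : ℕ) (v : Fin d → ℝ),
  nrm p v ≤ (∑ i, |v i|) ^ (2 * (1 / p).toReal - 1) *
    (Real.sqrt (∑ i, v i ^ 2)) ^ (2 - 2 * (1 / p).toReal)

/-- HO2 (short-medium), Hoelder. For `2 < q ≤ ∞`, `t = 1/(2(1-1/q)) ∈ [1/2,1)`: `|y|_2 ≤ |y|_1^{1-t} |y|_q^t`. Proof:
`q = ∞`: `∑ y_i² ≤ max|y| ∑|y_i|`. `q < ∞`: `y_i² = |y_i|^{2(1-t)} |y_i|^{2t}`, Hoelder with exponents `1/(2(1-t))`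
and `q/(2t)` (`2(1-t) + 2t/q = 1`). -/
def HO2 : Prop := ∀ (q : ℝ≥0∞) [Fact (1 ≤ q)], 2 < q → ∀ (d : ℕ) (y : Fin d → ℝ),
  Real.sqrt (∑ i, y i ^ 2) ≤ (∑ i, |y i|) ^ (1 - 1 / (2 * (1 - (1 / q).toReal))) *
    (nrm q y) ^ (1 / (2 * (1 - (1 / q).toReal)))

/-- RND (short-medium), rounding. Proof. `x = sgn v`, `w = sgn y` (sign of `0` is `1`), `M = H/√d` is an isometry
(HDN). `|v-x|² = |v|² - 2|v|_1 + d ≤ 2αd`, `|y-w|² ≤ 2βd`, `v = My`. `|Mw - x| ≤ |M(w-y)| + |v-x| ≤ √(2βd)+√(2αd)`,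
`|Mw - x|² = 2d - 2⟨x,Mw⟩`, so `⟨x,Mw⟩ ≥ d - (√α+√β)² d`. `theorem t_rnd (h : HDN) : RND`. -/
def RND : Prop := ∀ (d : ℕ) (H : Matrix (Fin d) (Fin d) ℝ), 0 < d → IsHad H →
  ∀ (y : Fin d → ℝ) (α β : ℝ), 0 ≤ α → 0 ≤ β → ∑ i, (y i) ^ 2 ≤ (d : ℝ) →
    (1 - β) * (d : ℝ) ≤ ∑ i, |y i| → (1 - α) * (d : ℝ) ≤ ∑ i, |H.mulVec y i / Real.sqrt d| →
    ∃ x w : Fin d → ℤˣ, (1 - (Real.sqrt α + Real.sqrt β) ^ 2) * (d : ℝ) ^ (3 / 2 : ℝ) ≤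
      ∑ i, sv x i * H.mulVec (sv w) i

/-- STA (medium), (5.3). `theorem t_sta (hn : HDN) (h1 : HO1) (h2 : HO2) (hr : RND) : STA`.
Proof. `θ = 2/p - 1 ∈ (0,1]`, `t = 1/(2(1-1/q)) ∈ [1/2,1)`. By continuity at `0` choose `δ' ∈ (0,1)` with
`α = 1 - (1-δ')^{1/θ}`, `β = 1 - (1-α)^{1/(1-t)}`, `(√α+√β)² < δ`. Suppose the claim fails for `y`; `y ≠ 0`, scale
`|y|_q = d^{1/q}`; then `|y|_2 ≤ √d` (`pm2` of helper75). `v = Hy/√d`, `|v|_2 = |y|_2`, `|v|_p > (1-δ')d^{1/p}`. HO1: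
`|v|_1^θ ≥ |v|_p/|v|_2^{1-θ} > (1-δ') d^{1/p - (1-θ)/2} = (1-δ') d^θ`, so `|v|_1 ≥ (1-α) d`, `|y|_2 = |v|_2 ≥ |v|_1/√d ≥ (1-α)√d`.
HO2: `|y|_1^{1-t} ≥ |y|_2/|y|_q^t ≥ (1-α) d^{1/2 - t/q} = (1-α) d^{1-t}`, so `|y|_1 ≥ (1-β) d`. RND gives `x,w` with
`⟨x,Hw⟩ ≥ (1-(√α+√β)²) d^{3/2} > (1-δ) d^{3/2}`: contradiction. -/
def STA : Prop := ∀ (p q : ℝ≥0∞) [Fact (1 ≤ p)] [Fact (1 ≤ q)], p < 2 → 2 < q →
  ∀ δ : ℝ, 0 < δ → ∃ δ' : ℝ, 0 < δ' ∧ δ' < 1 ∧ ∀ (d : ℕ) (H : Matrix (Fin d) (Fin d) ℝ),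
    0 < d → IsHad H →
    (∀ x y : Fin d → ℤˣ, ∑ i, sv x i * H.mulVec (sv y) i ≤ (1 - δ) * (d : ℝ) ^ (3 / 2 : ℝ)) →
    ∀ y : Fin d → ℝ, nrm p (H.mulVec y) ≤
      (1 - δ') * (d : ℝ) ^ ((1 / p).toReal + 1 / 2 - (1 / q).toReal) * nrm q y

/-- HLA (medium), (5.4). `theorem t_hla (hn : HDN) (hq : HPQ) : HLA`. Proof. `A = (c d^E)⁻¹ H`,
`E = 1/p + 1/2 - 1/q`, a linear equivalence (inverse `(c d^E/d) Hᵀ`, HDN): `|Ax|_p ≤ |x|_q`.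
`x = d⁻¹ Hᵀ(H x)`, `Hᵀ` is Hadamard (HDN), HPQ: `|x|_q ≤ d⁻¹ d^{max(1/q,1-1/p)} |Hx|_p =
d⁻¹ d^{max(1/q,1-1/p)} c d^E |Ax|_p = c d^γ |Ax|_p`. -/
def HLA : Prop := ∀ (p q : ℝ≥0∞) [Fact (1 ≤ p)] [Fact (1 ≤ q)], p < 2 → 2 < q →
  ∀ (d : ℕ) (H : Matrix (Fin d) (Fin d) ℝ) (c : ℝ), 0 < d → 0 < c → IsHad H →
    (∀ y : Fin d → ℝ, nrm p (H.mulVec y) ≤
      c * (d : ℝ) ^ ((1 / p).toReal + 1 / 2 - (1 / q).toReal) * nrm q y) →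
    LA p q d (c * (d : ℝ) ^ gam p q)

/-! ## Block 6: all dimensions -/

/-- NAP (short-medium). `nrm p (Fin.append a b) = N2 p (nrm p a) (nrm p b)`. Proof. `p = ∞`: suprema over
`Fin (m+r)` (`nrm_top`), `p < ∞`: `nrm_eq`, `Fin.sum_univ_add`, `(x^{1/p})^p = x`. -/
def NAP : Prop := ∀ (p : ℝ≥0∞) [Fact (1 ≤ p)] (m r : ℕ) (a : Fin m → ℝ) (b : Fin r → ℝ),
  nrm p (Fin.append a b) = N2 p (nrm p a) (nrm p b)

/-- BLK (medium), (6.1). `theorem t_blk (h : NAP) : BLK`. Proof. `A (append x₁ x₂) = append (c₁A₁x₁) (c₂A₂x₂)`,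
`c_i = lam_i/(lam₁+lam₂)`. `N2 p s t ≤ |s| + |t|` (`N2_le_add`), `|x_i|_q ≤ |append|_q` (`N2_ge_left`, `N2_comm`),
`|x_i|_q ≤ lam_i |A_i x_i|_p = (lam₁+lam₂) |c_i A_i x_i|_p`, `N2 q` is monotone in the absolute values,
`N2_anti` (`p ≤ q`), `N2_smul`. (If `m = 0` or `r = 0` everything still works.) -/
def BLK : Prop := ∀ (p q : ℝ≥0∞) [Fact (1 ≤ p)] [Fact (1 ≤ q)], p ≤ q →
  ∀ (m r : ℕ) (l₁ l₂ : ℝ), LA p q m l₁ → LA p q r l₂ → LA p q (m + r) (l₁ + l₂)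

/-- HKR (short-medium). Hadamard matrices of order `2^i 12^j`. Proof. Kronecker products of Hadamard
matrices are Hadamard (`Matrix.kroneckerMap`, `Matrix.mul_kronecker_mul`; entries `±1`), transported by
`finProdFinEquiv`; order `1`: `(1)`; order `2`: `(1,1;1,-1)`; order `12`: Paley, with `χ` the quadratic
character mod `11`: `H = ` border of ones and `-1` ..., or any explicit matrix checked by `decide` over `ℤ`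
(`!![...]`, cast to `ℝ`). -/
def HKR : Prop := ∀ i j : ℕ, ∃ K : Matrix (Fin (2 ^ i * 12 ^ j)) (Fin (2 ^ i * 12 ^ j)) ℝ, IsHad K

/-- ALR (medium), (6.2). `theorem t_alr (hq : QPB) (hl : HLA) (hb : BLK) (hk : HKR) : ALR`. Proof. `γ = gam p q > 0`.
`LA p q (2^i) (2^{iγ})` by HKR (`j = 0`), QPB, HLA with `c = 1`. `C = 1/(1-2^{-γ})`. Strong induction on `r ≥ 1`:
`2^i ≤ r < 2^{i+1}` (`Nat.log`), `r = 2^i + r'`, `r' ≤ r/2`. `r' = 0`: `LA` with `2^{iγ} = r^γ ≤ C r^γ`. Otherwise BLK: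
`2^{iγ} + C r'^γ ≤ r^γ + C 2^{-γ} r^γ = C r^γ`. (`LA` is monotone in `lam`.) -/
def ALR : Prop := ∀ (p q : ℝ≥0∞) [Fact (1 ≤ p)] [Fact (1 ≤ q)], p < 2 → 2 < q →
  ∃ C : ℝ, 0 < C ∧ ∀ r : ℕ, 0 < r → LA p q r (C * (r : ℝ) ^ gam p q)

/-- IRR (short-medium). Small combinations. Proof. `log 12/log 2` is irrational (`2^a = 12^b` with `a,b ≥ 1` would
give `3 | 2^a`). Dirichlet (`Real.exists_int_int_abs_mul_sub_le` or pigeonhole, or density of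
`AddSubgroup.closure {log 2, log 12}`): `0 < |a log 2 - b log 12| < η'`, `η' = min η (1/2)`, with integers `a`, `b ≥ 1`
(`η' < log 2` forces `a ≥ 1`). -/
def IRR : Prop := ∀ η : ℝ, 0 < η → ∃ a b : ℕ, 0 < a ∧ 0 < b ∧
  0 < |(a : ℝ) * Real.log 2 - (b : ℝ) * Real.log 12| ∧
  |(a : ℝ) * Real.log 2 - (b : ℝ) * Real.log 12| < η

/-- DEN (medium), (6.3). `theorem t_den (h : IRR) : DEN`. Proof. `η = -log(1-ε) > 0`, `a, b` from IRR,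
`α = a log 2 - b log 12`. Let `X = log x`. If `α > 0`: let `J = ⌈log 12/α⌉`, start with `12^m`, `m = ⌊X/log 12⌋`
(`m ≥ J b` for `x` large) and consider `12^{m - l b} 2^{l a}`, `0 ≤ l ≤ J`: logarithm `m log 12 + l α`, from
`≤ X` up to `≥ m log 12 + log 12 > X` in steps `α < η`: the last `l` with value `≤ X` has value `> X - η`. If `α < 0`: the
same with `2^m`, `m = ⌊X/log 2⌋`, replacing `2^a` by `12^b`, steps `-α`. -/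
def DEN : Prop := ∀ ε : ℝ, 0 < ε → ε < 1 → ∃ N : ℝ, ∀ x : ℝ, N ≤ x → ∃ i j : ℕ,
  (1 - ε) * x ≤ (2 : ℝ) ^ i * 12 ^ j ∧ (2 : ℝ) ^ i * 12 ^ j ≤ x

/-- FIN (medium), the theorem, (6.4).
`theorem t_fin (hc : COR) (hs : STA) (hl : HLA) (hb : BLK) (hk : HKR) (ha : ALR) (hd : DEN) : FIN`.
Proof. `L, δ, k₀` from COR, `δ'` from STA, `C` from ALR, `γ = gam p q > 0`, `ε ∈ (0,1/2)` with `C ε^γ ≤ δ'/2`. `d` large:
DEN for `x = d/2^L`: `k = 2^i 12^j`, `m = 2^L k`, `(1-ε) d ≤ m ≤ d`, `k ≥ k₀`. COR, STA, HLA: `LA p q m ((1-δ') m^γ)`.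
`r = d - m ≤ ε d`. `r = 0`: fine. `r > 0`: ALR and BLK give `LA p q d ((1-δ') m^γ + C r^γ)` and this number is
`≤ (1-δ'/2) d^γ`. `adm_of_linear` and `dBM_le_of_adm` of helper75/BM (`d ≥ 2`) give
`dBM ≤ log((1-δ'/2) d^γ) ≤ γ log d - δ'/2` (`log(1-x) ≤ -x`; `log` is monotone, the `LA` constant is `> 0`). -/
def FIN : Prop := ∀ (p q : ℝ≥0∞) [Fact (1 ≤ p)] [Fact (1 ≤ q)], p < 2 → 2 < q →
  ∃ δ : ℝ, 0 < δ ∧ ∃ d₀ : ℕ, ∀ d : ℕ, d₀ ≤ d →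
    dBM (L d p) (L d q) ≤ gam p q * Real.log (d : ℝ) - δ

end Pool.Agent.helper43.BMH
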