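import Pool.Agent.helper43.BMH.Spec

set_option autoImplicit false

namespace Pool.Agent.helper43.BMH

theorem TY2_act {ι : Type} (P : SP ι) (z : ι → ℤ) (i : ι) :
    act P z (P.1 i) = ((P.2 i : ℤˣ) : ℤ) * z i := by
  unfold act
  rw [Equiv.symm_apply_apply]

theorem TY2_natAbs {ι : Type} {P : SP ι} {z u : ι → ℤ} (h : act P z = u) (i : ι) :
    (u (P.1 i)).natAbs = (z i).natAbs := by
  rw [← h, TY2_act, Int.natAbs_mul, Int.units_natAbs, one_mul]

theorem TY2_card_units : Fintype.card ℤˣ = 2 := by decide

/-- the number of sign patterns -/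
theorem TY2_signs {ι : Type} [Fintype ι] [DecidableEq ι] (z u : ι → ℤ) (σ : Equiv.Perm ι) :
    (Finset.univ.filter fun s : ι → ℤˣ => act (σ, s) z = u).card ≤
      2 ^ (Finset.univ.filter fun i => z i = 0).card := by
  have h1 : (2 : ℕ) ^ (Finset.univ.filter fun i => z i = 0).card =
      (Finset.univ : Finset ({i // z i = 0} → ℤˣ)).card := by
    rw [Finset.card_univ, Fintype.card_fun, TY2_card_units, Fintype.card_subtype]
  rw [h1]
  refine Finset.card_le_card_of_injOn (fun s => fun i => s i.1) (fun _ _ => Finset.mem_coe.2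
    (Finset.mem_univ _)) ?_
  intro s hs s' hs' hss
  rw [Finset.mem_coe, Finset.mem_filter] at hs hs'
  funext i
  by_cases hi : z i = 0
  · exact congrFun hss ⟨i, hi⟩
  · have e1 := TY2_act (σ, s) z i
    have e2 := TY2_act (σ, s') z i
    rw [hs.2] at e1
    rw [hs'.2] at e2
    have e3 := e1.symm.trans e2
    have e4 := mul_right_cancel₀ hi e3
    exact Units.ext e4

theorem t_ty2 (he : EXH) (hf : FAC) (hp : PRM) : TY2 := by
  intro ι _ _ _ B z u hz
  set n := Fintype.card ι with hn
  have hn0 : (0 : ℝ) < n := by rw [hn]; exact_mod_cast Fintype.card_pos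
  rcases (Finset.univ.filter fun P : SP ι => act P z = u).eq_empty_or_nonempty with h0 | ⟨P₀, hP₀⟩
  · rw [h0, Finset.card_empty, Nat.cast_zero]; positivity
  rw [Finset.mem_filter] at hP₀
  have hP₀' := hP₀.2
  have hzB : ∀ i, (z i).natAbs < B + 1 := by
    intro i
    have := hz i
    rw [Int.abs_eq_natAbs] at this
    omega
  have huB : ∀ j, (u j).natAbs < B + 1 := by
    intro j
    have h1 := TY2_natAbs hP₀' (P₀.1.symm j)
    rw [Equiv.apply_symm_apply] at h1
    rw [h1]
    exact hzB _
  let c : ι → Fin (B + 1) := fun i => ⟨(z i).natAbs, hzB i⟩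
  let c' : ι → Fin (B + 1) := fun i => ⟨(u i).natAbs, huB i⟩
  -- count
  have hcount : (Finset.univ.filter fun P : SP ι => act P z = u).card ≤
      (∏ a : Fin (B + 1), (Finset.univ.filter fun i => c i = a).card.factorial) *
        2 ^ (Finset.univ.filter fun i => z i = 0).card := by
    have h1 : (Finset.univ.filter fun P : SP ι => act P z = u).card =
        ∑ σ : Equiv.Perm ι, (Finset.univ.filter fun s : ι → ℤˣ => act (σ, s) z = u).card := by
      rw [Finset.card_filter, Fintype.sum_prod_type]
      refine Finset.sum_congr rfl fun σ _ => ?_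
      rw [Finset.card_filter]
    have h2 : ∀ σ : Equiv.Perm ι, (Finset.univ.filter fun s : ι → ℤˣ => act (σ, s) z = u).card ≤
        if (∀ i, c' (σ i) = c i) then 2 ^ (Finset.univ.filter fun i => z i = 0).card else 0 := by
      intro σ
      split_ifs with h
      · exact TY2_signs z u σ
      · rw [Nat.le_zero, Finset.card_eq_zero, Finset.filter_eq_empty_iff]
        intro s _ hs
        apply h
        intro i
        exact Fin.ext (TY2_natAbs hs i)
    rw [h1]
    calc _ ≤ ∑ σ : Equiv.Perm ι, (if (∀ i, c' (σ i) = c i) then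
          2 ^ (Finset.univ.filter fun i => z i = 0).card else 0) :=
          Finset.sum_le_sum fun σ _ => h2 σ
      _ = (Finset.univ.filter fun σ : Equiv.Perm ι => ∀ i, c' (σ i) = c i).card *
          2 ^ (Finset.univ.filter fun i => z i = 0).card := by
          rw [← Finset.sum_filter, Finset.sum_const, smul_eq_mul]
      _ ≤ _ := Nat.mul_le_mul_right _ (hp ι (B + 1) c c')
  have hcount' : ((Finset.univ.filter fun P : SP ι => act P z = u).card : ℝ) ≤
      (∏ a : Fin (B + 1), (((Finset.univ.filter fun i => c i = a).card.factorial : ℕ) : ℝ)) *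
        2 ^ (Finset.univ.filter fun i => z i = 0).card := by
    have := hcount
    have h3 : ((Finset.univ.filter fun P : SP ι => act P z = u).card : ℝ) ≤
      (((∏ a : Fin (B + 1), (Finset.univ.filter fun i => c i = a).card.factorial) *
        2 ^ (Finset.univ.filter fun i => z i = 0).card : ℕ) : ℝ) := by exact_mod_cast this
    push_cast at h3
    exact h3
  have hfac := hf ι (B + 1) c
  -- the product
  have hprod : (2 : ℝ) ^ (Finset.univ.filter fun i => z i = 0).card *
      ∏ i, (((Finset.univ.filter fun j => c j = c i).card : ℝ) / (n : ℝ)) =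
      2 ^ n * ∏ i, fr z (z i) := by
    have e1 : (2 : ℝ) ^ (Finset.univ.filter fun i => z i = 0).card =
        ∏ i, (if z i = 0 then (2 : ℝ) else 1) := by
      rw [Finset.prod_ite, Finset.prod_const, Finset.prod_const_one, mul_one]
    have e2 : (2 : ℝ) ^ n = ∏ _i : ι, (2 : ℝ) := by
      rw [Finset.prod_const, Finset.card_univ]
    rw [e1, e2, ← Finset.prod_mul_distrib, ← Finset.prod_mul_distrib]
    refine Finset.prod_congr rfl fun i _ => ?_
    have e3 : (Finset.univ.filter fun j => c j = c i) =
        Finset.univ.filter fun j => z j = z i ∨ z j = -z i := by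
      ext j
      simp only [Finset.mem_filter, Finset.mem_univ, true_and, c, Fin.mk.injEq]
      exact Int.natAbs_eq_natAbs_iff
    rw [e3]
    unfold fr
    split_ifs with h
    · rw [h, neg_zero]
      simp only [or_self]
      rw [← hn]
      field_simp
      ring
    · have e4 : (Finset.univ.filter fun j => z j = z i ∨ z j = -z i).card =
          (Finset.univ.filter fun j => z j = z i).card +
            (Finset.univ.filter fun j => z j = -z i).card := by
        rw [Finset.filter_or, Finset.card_union_of_disjoint]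
        rw [Finset.disjoint_left]
        intro j h1 h2
        rw [Finset.mem_filter] at h1 h2
        have := h1.2.symm.trans h2.2
        apply h
        omega
      rw [e4, ← hn]
      push_cast
      field_simp
  have hcard : (Fintype.card (SP ι) : ℝ) = (n.factorial : ℝ) * 2 ^ n := by
    rw [Fintype.card_prod, Fintype.card_perm, Fintype.card_fun, TY2_card_units]
    push_cast
    rfl
  rw [(he ι ℤ z).1, hcard]
  calc ((Finset.univ.filter fun P : SP ι => act P z = u).card : ℝ) ≤
        (∏ a : Fin (B + 1), (((Finset.univ.filter fun i => c i = a).card.factorial : ℕ) : ℝ)) *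
        2 ^ (Finset.univ.filter fun i => z i = 0).card := hcount'
    _ ≤ ((n.factorial : ℝ) * (Real.exp 1 * (n : ℝ)) ^ (B + 1) *
        ∏ i, (((Finset.univ.filter fun j => c j = c i).card : ℝ) / (n : ℝ))) *
        2 ^ (Finset.univ.filter fun i => z i = 0).card :=
        mul_le_mul_of_nonneg_right hfac (by positivity)
    _ = (n.factorial : ℝ) * (Real.exp 1 * (n : ℝ)) ^ (B + 1) *
        (2 ^ (Finset.univ.filter fun i => z i = 0).card *
        ∏ i, (((Finset.univ.filter fun j => c j = c i).card : ℝ) / (n : ℝ))) := by ring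
    _ = (n.factorial : ℝ) * (Real.exp 1 * (n : ℝ)) ^ (B + 1) * (2 ^ n * ∏ i, fr z (z i)) := by
        rw [hprod]
    _ = _ := by ring

end Pool.Agent.helper43.BMH
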