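import Pool.Agent.helper43.BMH.Spec

set_option autoImplicit false

namespace Pool.Agent.helper43.BMH

theorem TYS_card_sum {ι G : Type} [Fintype ι] [DecidableEq ι] [DecidableEq G] (u : ι → G)
    (S : Finset G) :
    ∑ a ∈ S, ((Finset.univ.filter fun i => u i = a).card : ℝ) ≤ (Fintype.card ι : ℝ) := by
  have e : ∑ a ∈ S, (Finset.univ.filter fun i => u i = a).card ≤ Fintype.card ι := by
    rw [← Finset.card_biUnion]
    · exact Finset.card_le_univ _
    · intro a _ b _ hab
      rw [Function.onFun, Finset.disjoint_left]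
      intro i hi hj
      simp only [Finset.mem_filter, Finset.mem_univ, true_and] at hi hj
      exact hab (hi.symm.trans hj)
  exact_mod_cast e

theorem TYS_fr_sum {ι G : Type} [Fintype ι] [DecidableEq ι] [Nonempty ι] [AddCommGroup G]
    [DecidableEq G] (u : ι → G) (A : Finset G) : ∑ a ∈ A, fr u a ≤ 1 := by
  have hn : (0 : ℝ) < Fintype.card ι := by exact_mod_cast Fintype.card_pos
  have h := TYS_card_sum u A
  have h2 : ∑ a ∈ A, ((Finset.univ.filter fun i => u i = -a).card : ℝ) ≤
      (Fintype.card ι : ℝ) := by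
    have := TYS_card_sum u (A.map ⟨fun x => -x, neg_injective⟩)
    rw [Finset.sum_map] at this
    exact this
  unfold fr
  rw [← Finset.sum_div, Finset.sum_add_distrib, div_le_one (by positivity)]
  linarith

theorem t_tys : TYS := by
  intro ι G _ _ _ _ _ A
  have hnn : ∀ (f : ι → G) (g : G), 0 ≤ fr f g := by
    intro f g
    unfold fr
    positivity
  set n := Fintype.card ι with hn
  have hbd : ∀ (f : ι → G) (g : G), (Finset.univ.filter fun i => f i = g).card +
      (Finset.univ.filter fun i => f i = -g).card < 2 * n + 1 := by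
    intro f g
    have h1 : (Finset.univ.filter fun i => f i = g).card ≤ n := Finset.card_le_univ _
    have h2 : (Finset.univ.filter fun i => f i = -g).card ≤ n := Finset.card_le_univ _
    omega
  let T : (ι → G) → (A → Fin (2 * n + 1)) := fun f g =>
    ⟨(Finset.univ.filter fun i => f i = (g : G)).card +
      (Finset.univ.filter fun i => f i = -(g : G)).card, hbd f g⟩
  have hT : ∀ f f' : ι → G, T f = T f' → ∀ g ∈ A, fr f g = fr f' g := by
    intro f f' h g hg
    have h1 := congrArg Fin.val (congrFun h ⟨g, hg⟩)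
    simp only [T] at h1
    unfold fr
    congr 1
    exact_mod_cast h1
  rw [← Finset.sum_fiberwise (s := Fintype.piFinset fun _ : ι => A) (g := T)]
  have hin : ∀ τ : A → Fin (2 * n + 1),
      ∑ f ∈ Fintype.piFinset (fun _ : ι => A) with T f = τ, ∏ i, fr f (f i) ≤ 1 := by
    intro τ
    rcases (Finset.filter (fun f => T f = τ) (Fintype.piFinset fun _ : ι => A)).eq_empty_or_nonempty
      with h0 | ⟨f₀, hf₀⟩
    · rw [h0, Finset.sum_empty]; exact zero_le_one
    · rw [Finset.mem_filter] at hf₀
      calc ∑ f ∈ Fintype.piFinset (fun _ : ι => A) with T f = τ, ∏ i, fr f (f i) =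
          ∑ f ∈ Fintype.piFinset (fun _ : ι => A) with T f = τ, ∏ i, fr f₀ (f i) := by
            refine Finset.sum_congr rfl fun f hf => ?_
            rw [Finset.mem_filter, Fintype.mem_piFinset] at hf
            refine Finset.prod_congr rfl fun i _ => ?_
            exact hT f f₀ (hf.2.trans hf₀.2.symm) _ (hf.1 i)
        _ ≤ ∑ f ∈ Fintype.piFinset (fun _ : ι => A), ∏ i, fr f₀ (f i) :=
            Finset.sum_le_sum_of_subset_of_nonneg (Finset.filter_subset _ _)
              fun f _ _ => Finset.prod_nonneg fun i _ => hnn _ _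
        _ = ∏ _i : ι, ∑ g ∈ A, fr f₀ g := (Finset.prod_univ_sum _ _).symm
        _ ≤ ∏ _i : ι, (1 : ℝ) := Finset.prod_le_prod
            (fun _ _ => Finset.sum_nonneg fun _ _ => hnn _ _) (fun _ _ => TYS_fr_sum f₀ A)
        _ = 1 := by simp
  calc _ ≤ ∑ _τ : A → Fin (2 * n + 1), (1 : ℝ) := Finset.sum_le_sum fun τ _ => hin τ
    _ = (2 * (n : ℝ) + 1) ^ A.card := by
        rw [Finset.sum_const, Finset.card_univ, Fintype.card_fun, Fintype.card_fin,
          Fintype.card_coe, nsmul_eq_mul, mul_one]
        push_cast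
        ring

end Pool.Agent.helper43.BMH
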