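import Pool.Agent.helper10.BMH.IRR
import Pool.Agent.helper11.BMH.BAS
import Pool.Agent.helper11.BMH.FAC
import Pool.Agent.helper11.BMH.GD0
import Pool.Agent.helper23.BMH.AVG
import Pool.Agent.helper23.BMH.CHS
import Pool.Agent.helper23.BMH.POL
import Pool.Agent.helper23.BMH.QPB
import Pool.Agent.helper25.BMH.RTK
import Pool.Agent.helper31.BMH.HPQ
import Pool.Agent.helper32.BMH.GAL
import Pool.Agent.helper32.BMH.ROW
import Pool.Agent.helper36.BMH.HO2
import Pool.Agent.helper38.BMH.RND
import Pool.Agent.helper39.BMH.HYB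
import Pool.Agent.helper43.BMH.CN1
import Pool.Agent.helper43.BMH.COR
import Pool.Agent.helper43.BMH.CPB
import Pool.Agent.helper43.BMH.Cnt
import Pool.Agent.helper43.BMH.DBL
import Pool.Agent.helper43.BMH.DYA
import Pool.Agent.helper43.BMH.Defs
import Pool.Agent.helper43.BMH.ENI
import Pool.Agent.helper43.BMH.FIN
import Pool.Agent.helper43.BMH.FOU
import Pool.Agent.helper43.BMH.HYN
import Pool.Agent.helper43.BMH.ORB
import Pool.Agent.helper43.BMH.RTE
import Pool.Agent.helper43.BMH.RTM
import Pool.Agent.helper43.BMH.STU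
import Pool.Agent.helper43.BMH.Spec
import Pool.Agent.helper43.BMH.TY2
import Pool.Agent.helper43.BMH.TYS
import Pool.Agent.helper45.BMH.HDN
import Pool.Agent.helper45.BMH.RTS
import Pool.Agent.helper54.BMH.STP
import Pool.Agent.helper63.BMH.PRM
import Pool.Agent.helper64.BMH.FAM
import Pool.Agent.helper64.BMH.HO1
import Pool.Agent.helper71.BMH.DEN
import Pool.Agent.helper72.BMH.PAI
import Pool.Agent.helper74.BMH.CPS
import Pool.Agent.helper74.BMH.HLA
import Pool.Agent.helper75.BMH.BLK
import Pool.Agent.helper76.BMH.SYM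
import Pool.Agent.helper77.BMH.GEO
import Pool.Agent.helper77.BMH.STA
import Pool.Agent.helper79.BMH.EXH
import Pool.Agent.helper79.BMH.PIN
import Pool.Agent.helper8.BMH.NAP
import Pool.Agent.helper83.BMH.ALR
import Pool.Agent.helper84.BMH.CN2
import Pool.Agent.helper84.BMH.HKR
import Pool.Agent.helper92.BMH.CN0
import Pool.Agent.helper96.BMH.GIB
import Pool.Agent.helper98.BMH.SPA

set_option autoImplicit false

/-! Assembly of the rows bmh:* -/

namespace Pool.Agent.helper43.BMH

theorem top_CN1 : CN1 := t_cn1 t_geo t_cn0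
theorem top_CN2 : CN2 := t_cn2 t_geo t_cn0
theorem top_TY2 : TY2 := t_ty2 t_exh t_fac t_prm
theorem top_AVG : AVG := t_avg top_TY2
theorem top_CHS : CHS := t_chs t_pin
theorem top_FOU : FOU := t_fou t_pin top_CHS t_dya t_rts
theorem top_ENI : ENI := t_eni t_exh t_gib t_pin top_FOU t_sym
theorem top_PAI : PAI := t_pai t_row top_AVG
theorem top_CPB : CPB := t_cpb top_CN1
theorem top_CPS : CPS := t_cps top_CN1 top_CN2 t_hdn
theorem top_BAS : BAS := t_bas top_PAI top_CPB t_pol
theorem top_SPA : SPA := t_spa top_PAI top_CPS t_orb t_pol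
theorem top_FAM : FAM := t_fam t_row t_dbl
theorem top_STU : STU := t_stu t_exh t_tys t_orb top_AVG top_ENI
theorem top_STP : STP := t_stp t_exh t_pol t_row t_dbl top_SPA top_FAM top_STU
theorem top_GD0 : GD0 := t_gd0 t_exh t_row top_BAS
theorem top_GAL : GAL := t_gal top_GD0 top_STP
theorem top_RTK : RTK := t_rtk t_hdn
theorem top_RTM : RTM := t_rtm t_exh t_tys t_rte
/-- Theorem E: Hadamard matrices of order `2^L k` of excess at most `(1-δ) d^{3/2}` in their class -/
theorem top_COR : COR := t_cor t_pol t_hdn t_dbl top_GAL top_RTK top_RTM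
theorem top_HYB : HYB := t_hyb t_hdn
theorem top_HYN : HYN := t_hyn top_HYB
theorem top_HPQ : HPQ := t_hpq top_HYN
theorem top_QPB : QPB := t_qpb t_hdn
theorem top_RND : RND := t_rnd t_hdn
theorem top_STA : STA := t_sta t_hdn t_ho1 t_ho2 top_RND
theorem top_HLA : HLA := t_hla t_hdn top_HPQ
theorem top_BLK : BLK := t_blk t_nap
theorem top_ALR : ALR := t_alr top_QPB top_HLA top_BLK t_hkr
theorem top_DEN : DEN := t_den t_irr
/-- the theorem -/
theorem top_FIN : FIN := t_fin top_COR top_STA top_HLA top_BLK t_hkr top_ALR top_DEN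

end Pool.Agent.helper43.BMH
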